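import Mathlib
import Pool.Agent.W914.SS.Defs

/-!
# A principle about a family of sequences of rationals and a linear order

The principle is stated twice: as a statement about actual objects (`Principle`), and as a
sentence of the forcing language of a preordered set `P` (`ForcedPrinciple`), see
`Pool.Agent.Helper669.Forcing` for the forcing language. The family and the linear order are
indexed by `Ω × ℕ`; the first coordinate of an index is called its level. Sequences of rationals
are compared lexicographically (`LexLt`, see `Pool.Agent.W914.SS.Defs`).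
-/

set_option autoImplicit false

namespace Pool.Agent.W914.SA

open Pool.Agent.Helper669.Forcing
open Pool.Agent.W914.SS (LexLt FLexLt FDistinct FUncountable FSurjective)

/-! ### The principle -/

/-- The sequences `r x` (`x : Ω × ℕ`) are distinct, no function from `ℕ` to `Ω` is onto, and the
family is mapped monotonically onto each nonempty subfamily. Moreover `lt` is a strict linear
order of `Ω × ℕ` which is mapped monotonically onto each nonempty subset, and whenever `Y` is a
set of indices with unbounded levels and `δ : Ω`, there are `y, y' ∈ Y` with `y` of smaller level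
than `y'`, such that `y` is below `y'` (or, in `down`, above `y'`) and no index of level less than
`δ` lies strictly between them. -/
structure Principle (Ω : Type) [LinearOrder Ω] (r : Ω × ℕ → ℕ → ℚ) (lt : Ω × ℕ → Ω × ℕ → Prop) :
    Prop where
  distinct : ∀ x y, x ≠ y → ∃ n, r x n ≠ r y n
  uncountable : ∀ E : ℕ → Ω, ∃ ω, ∀ n, E n ≠ ω
  surjective : ∀ K : Set (Ω × ℕ), (∃ x, x ∈ K) → ∃ F : Ω × ℕ → Ω × ℕ, (∀ x, F x ∈ K) ∧
    (∀ y ∈ K, ∃ x, F x = y) ∧
    ∀ x x', F x ≠ F x' → LexLt (r x) (r x') → LexLt (r (F x)) (r (F x'))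
  irrefl : ∀ x, ¬ lt x x
  trans : ∀ x y z, lt x y → lt y z → lt x z
  total : ∀ x y, x ≠ y → ¬ lt x y → lt y x
  up : ∀ Y : Set (Ω × ℕ), (∀ δ : Ω, ∃ y ∈ Y, δ ≤ y.1) → ∀ δ : Ω, ∃ y ∈ Y, ∃ y' ∈ Y,
    y.1 < y'.1 ∧ lt y y' ∧ ∀ d, d.1 < δ → ¬ (lt y d ∧ lt d y')
  down : ∀ Y : Set (Ω × ℕ), (∀ δ : Ω, ∃ y ∈ Y, δ ≤ y.1) → ∀ δ : Ω, ∃ y ∈ Y, ∃ y' ∈ Y,
    y.1 < y'.1 ∧ lt y' y ∧ ∀ d, d.1 < δ → ¬ (lt y' d ∧ lt d y)
  surjectiveLine : ∀ K : Set (Ω × ℕ), (∃ x, x ∈ K) → ∃ F : Ω × ℕ → Ω × ℕ, (∀ x, F x ∈ K) ∧
    (∀ y ∈ K, ∃ x, F x = y) ∧ ∀ x x', F x ≠ F x' → lt x x' → lt (F x) (F x')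

/-! ### The sentence of the forcing language -/

section

variable {P : Type} [Preorder P] {Ω : Type}

/-- The relation named by `lt` is a strict linear order. -/
def FLinear (lt : Ω × ℕ → Ω × ℕ → Set P) : Set P :=
  fand (fall fun x => fnot (meets (lt x x)))
    (fand (fall fun x => fall fun y => fall fun z =>
        fimp (fand (meets (lt x y)) (meets (lt y z))) (meets (lt x z)))
      (fall fun x => fall fun y => fall fun _ : x ≠ y =>
        fimp (fnot (meets (lt x y))) (meets (lt y x))))

/-- The set named by `Y` has elements of arbitrarily large levels. -/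
def FUnbounded [LinearOrder Ω] (Y : Ω × ℕ → Set P) : Set P :=
  fall fun δ : Ω => fex fun y => fand (fground (δ ≤ y.1)) (meets (Y y))

/-- The condition `up` of the principle. -/
def FUp [LinearOrder Ω] (lt : Ω × ℕ → Ω × ℕ → Set P) : Set P :=
  fall fun Y : Ω × ℕ → Set P => fimp (FUnbounded Y)
    (fall fun δ : Ω => fex fun y : Ω × ℕ => fex fun y' : Ω × ℕ =>
      fand (fand (meets (Y y)) (meets (Y y'))) (fand (fground (y.1 < y'.1)) (fand (meets (lt y y'))
        (fall fun d : Ω × ℕ => fall fun _ : d.1 < δ =>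
          fnot (fand (meets (lt y d)) (meets (lt d y')))))))

/-- The condition `down` of the principle. -/
def FDown [LinearOrder Ω] (lt : Ω × ℕ → Ω × ℕ → Set P) : Set P :=
  fall fun Y : Ω × ℕ → Set P => fimp (FUnbounded Y)
    (fall fun δ : Ω => fex fun y : Ω × ℕ => fex fun y' : Ω × ℕ =>
      fand (fand (meets (Y y)) (meets (Y y'))) (fand (fground (y.1 < y'.1)) (fand (meets (lt y' y))
        (fall fun d : Ω × ℕ => fall fun _ : d.1 < δ =>
          fnot (fand (meets (lt y' d)) (meets (lt d y)))))))

/-- The order named by `lt` is mapped monotonically onto each nonempty subset. -/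
def FSurjectiveLine (lt : Ω × ℕ → Ω × ℕ → Set P) : Set P :=
  fall fun K : Ω × ℕ → Set P => fimp (fex fun x => meets (K x))
    (fex fun F : Ω × ℕ → Ω × ℕ → Set P => fand (IsFun F)
      (fand (fall fun x => fall fun y => fimp (meets (F x y)) (meets (K y)))
        (fand (fall fun y => fimp (meets (K y)) (fex fun x => meets (F x y)))
          (fall fun x => fall fun x' => fall fun y => fall fun y' => fall fun _ : y ≠ y' =>
            fimp (fand (fand (meets (F x y)) (meets (F x' y'))) (meets (lt x x')))
              (meets (lt y y'))))))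

/-- The principle, as a sentence of the forcing language: there are `r` and `lt` as in
`Principle`. -/
def ForcedPrinciple (P : Type) [Preorder P] (Ω : Type) [LinearOrder Ω] : Set P :=
  fex fun r : Ω × ℕ → ℕ → ℚ → Set P => fex fun lt : Ω × ℕ → Ω × ℕ → Set P =>
    fand (fand (fall fun x => IsFun (r x))
      (fand (FDistinct r) (fand (FUncountable P Ω) (FSurjective r))))
      (fand (FLinear lt) (fand (FUp lt) (fand (FDown lt) (FSurjectiveLine lt))))

end

end Pool.Agent.W914.SA
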