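import Mathlib

/-!
# Finite linear orders with a splitting function

`Line X D lt`: on the finite set `X` of points, `lt` is the lexicographic order given by some
codes `e x : Ω → ℚ` and `D x y` is the least place where the codes of `x` and `y` differ
(`D x x` is the level `x.1` of `x`).
-/

set_option autoImplicit false
set_option linter.unusedSectionVars false

open Classical

namespace Pool.Agent.W914.SA

/-- points; the first coordinate is the colour or level -/
abbrev Pt (Ω : Type) := Ω × ℕ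

variable {Ω : Type} [LinearOrder Ω]

/-- `d` is the first place where `f` and `g` differ -/
def First (f g : Ω → ℚ) (d : Ω) : Prop := (∀ η < d, f η = g η) ∧ f d ≠ g d

theorem First.symm {f g : Ω → ℚ} {d : Ω} (h : First f g d) : First g f d :=
  ⟨fun η hη => (h.1 η hη).symm, h.2.symm⟩

theorem First.unique {f g : Ω → ℚ} {d d' : Ω} (h : First f g d) (h' : First f g d') : d = d' := by
  rcases lt_trichotomy d d' with h1 | h1 | h1
  · exact absurd (h'.1 d h1) h.2
  · exact h1
  · exact absurd (h.1 d' h1) h'.2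

/-- codes for the order and the splitting function -/
structure Codes (X : Set (Pt Ω)) (D : Pt Ω → Pt Ω → Ω) (lt : Pt Ω → Pt Ω → Prop)
    (e : Pt Ω → Ω → ℚ) : Prop where
  fin : ∀ u ∈ X, {η | e u η ≠ 0}.Finite
  first : ∀ u ∈ X, ∀ v ∈ X, u ≠ v → First (e u) (e v) (D u v)
  le : ∀ u ∈ X, ∀ v ∈ X, D u v ≤ u.1
  lt_iff : ∀ u ∈ X, ∀ v ∈ X, u ≠ v → (lt u v ↔ e u (D u v) < e v (D u v))
  irrefl : ∀ u ∈ X, ¬ lt u u
  diag : ∀ u ∈ X, D u u = u.1

/-- the structure has codes -/
def Line (X : Set (Pt Ω)) (D : Pt Ω → Pt Ω → Ω) (lt : Pt Ω → Pt Ω → Prop) : Prop :=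
  ∃ e, Codes X D lt e

namespace Codes

variable {X : Set (Pt Ω)} {D : Pt Ω → Pt Ω → Ω} {lt : Pt Ω → Pt Ω → Prop} {e : Pt Ω → Ω → ℚ}

theorem symm (h : Codes X D lt e) {u v : Pt Ω} (hu : u ∈ X) (hv : v ∈ X) : D u v = D v u := by
  rcases eq_or_ne u v with h1 | h1
  · rw [h1]
  · exact (h.first u hu v hv h1).unique (h.first v hv u hu h1.symm).symm

theorem ne_of_lt (h : Codes X D lt e) {u v : Pt Ω} (hu : u ∈ X) (hlt : lt u v) : u ≠ v := by
  rintro rfl
  exact h.irrefl u hu hlt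

theorem total (h : Codes X D lt e) {u v : Pt Ω} (hu : u ∈ X) (hv : v ∈ X) (hne : u ≠ v) :
    lt u v ∨ lt v u := by
  rw [h.lt_iff u hu v hv hne, h.lt_iff v hv u hu hne.symm, h.symm hv hu]
  exact lt_or_gt_of_ne (h.first u hu v hv hne).2

theorem asymm (h : Codes X D lt e) {u v : Pt Ω} (hu : u ∈ X) (hv : v ∈ X) (hlt : lt u v) :
    ¬ lt v u := by
  have hne := h.ne_of_lt hu hlt
  rw [h.lt_iff u hu v hv hne] at hlt
  rw [h.lt_iff v hv u hu hne.symm, h.symm hv hu]
  exact hlt.asymm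

/-- the main property -/
theorem trans (h : Codes X D lt e) {u v w : Pt Ω} (hu : u ∈ X) (hv : v ∈ X) (hw : w ∈ X)
    (huv : lt u v) (hvw : lt v w) : lt u w ∧ D u w = min (D u v) (D v w) := by
  have hne1 := h.ne_of_lt hu huv
  have hne2 := h.ne_of_lt hv hvw
  have h1 := (h.lt_iff u hu v hv hne1).1 huv
  have h2 := (h.lt_iff v hv w hw hne2).1 hvw
  have f1 := h.first u hu v hv hne1
  have f2 := h.first v hv w hw hne2
  have key : First (e u) (e w) (min (D u v) (D v w)) ∧
      e u (min (D u v) (D v w)) < e w (min (D u v) (D v w)) := by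
    rcases lt_trichotomy (D u v) (D v w) with h3 | h3 | h3
    · rw [min_eq_left h3.le]
      have h4 := f2.1 _ h3
      refine ⟨⟨fun η hη => (f1.1 η hη).trans (f2.1 η (hη.trans h3)), ?_⟩, ?_⟩
      · rw [← h4]; exact f1.2
      · rw [← h4]; exact h1
    · rw [h3, min_self]
      rw [h3] at h1 f1
      have h5 := h1.trans h2
      exact ⟨⟨fun η hη => (f1.1 η hη).trans (f2.1 η hη), h5.ne⟩, h5⟩
    · rw [min_eq_right h3.le]
      have h4 := f1.1 _ h3
      refine ⟨⟨fun η hη => (f1.1 η (hη.trans h3)).trans (f2.1 η hη), ?_⟩, ?_⟩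
      · rw [h4]; exact f2.2
      · rw [h4]; exact h2
  have hne3 : u ≠ w := by
    rintro rfl
    exact key.1.2 rfl
  have h6 := (h.first u hu w hw hne3).unique key.1
  exact ⟨by rw [h.lt_iff u hu w hw hne3, h6]; exact key.2, h6⟩

end Codes

namespace Line

variable {X : Set (Pt Ω)} {D : Pt Ω → Pt Ω → Ω} {lt : Pt Ω → Pt Ω → Prop}

theorem symm (h : Line X D lt) {u v : Pt Ω} (hu : u ∈ X) (hv : v ∈ X) : D u v = D v u := by
  obtain ⟨e, h⟩ := h
  exact h.symm hu hv

theorem total (h : Line X D lt) {u v : Pt Ω} (hu : u ∈ X) (hv : v ∈ X) (hne : u ≠ v) :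
    lt u v ∨ lt v u := by
  obtain ⟨e, h⟩ := h
  exact h.total hu hv hne

theorem irrefl (h : Line X D lt) {u : Pt Ω} (hu : u ∈ X) : ¬ lt u u := by
  obtain ⟨e, h⟩ := h
  exact h.irrefl u hu

theorem ne_of_lt (h : Line X D lt) {u v : Pt Ω} (hu : u ∈ X) (hlt : lt u v) : u ≠ v := by
  rintro rfl
  exact h.irrefl hu hlt

theorem diag (h : Line X D lt) {u : Pt Ω} (hu : u ∈ X) : D u u = u.1 := by
  obtain ⟨e, h⟩ := h
  exact h.diag u hu

theorem asymm (h : Line X D lt) {u v : Pt Ω} (hu : u ∈ X) (hv : v ∈ X) (hlt : lt u v) :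
    ¬ lt v u := by
  obtain ⟨e, h⟩ := h
  exact h.asymm hu hv hlt

theorem trans (h : Line X D lt) {u v w : Pt Ω} (hu : u ∈ X) (hv : v ∈ X) (hw : w ∈ X)
    (huv : lt u v) (hvw : lt v w) : lt u w := by
  obtain ⟨e, h⟩ := h
  exact (h.trans hu hv hw huv hvw).1

theorem D_trans (h : Line X D lt) {u v w : Pt Ω} (hu : u ∈ X) (hv : v ∈ X) (hw : w ∈ X)
    (huv : lt u v) (hvw : lt v w) : D u w = min (D u v) (D v w) := by
  obtain ⟨e, h⟩ := h
  exact (h.trans hu hv hw huv hvw).2

theorem le_left (h : Line X D lt) {u v : Pt Ω} (hu : u ∈ X) (hv : v ∈ X) : D u v ≤ u.1 := by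
  obtain ⟨e, h⟩ := h
  exact h.le u hu v hv

theorem le_right (h : Line X D lt) {u v : Pt Ω} (hu : u ∈ X) (hv : v ∈ X) : D u v ≤ v.1 := by
  rw [h.symm hu hv]
  exact h.le_left hv hu

/-- reversing the order -/
theorem flip (h : Line X D lt) : Line X D fun u v => lt v u := by
  obtain ⟨e, h⟩ := h
  refine ⟨fun u η => - e u η, ?_, ?_, h.le, ?_, h.irrefl, h.diag⟩
  · intro u hu
    simpa using h.fin u hu
  · intro u hu v hv hne
    have h1 := h.first u hu v hv hne
    exact ⟨fun η hη => by simp only [h1.1 η hη], fun h2 => h1.2 (neg_injective h2)⟩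
  · intro u hu v hv hne
    rw [h.lt_iff v hv u hu hne.symm, h.symm hv hu]
    exact neg_lt_neg_iff.symm

/-- if `v` and `w` are closer to each other than `u` to `v`, then `u` is on the same side of both,
at the same distance -/
theorem closer (h : Line X D lt) {u v w : Pt Ω} (hu : u ∈ X) (hv : v ∈ X) (hw : w ∈ X)
    (huv : lt u v) (hlt : D u v < D w v) : lt u w ∧ D u w = D u v := by
  rcases eq_or_ne w v with h1 | h1
  · rw [h1]; exact ⟨huv, rfl⟩
  rcases h.total hw hv h1 with h2 | h2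
  · -- `w < v`
    rcases eq_or_ne u w with h3 | h3
    · subst h3
      exact absurd hlt (lt_irrefl _)
    rcases h.total hu hw h3 with h4 | h4
    · refine ⟨h4, ?_⟩
      have h5 := h.D_trans hu hw hv h4 h2
      rcases min_choice (D u w) (D w v) with h6 | h6
      · rw [h6] at h5; exact h5.symm
      · rw [h6] at h5; exact absurd (h5 ▸ hlt) (lt_irrefl _)
    · have h5 := h.D_trans hw hu hv h4 huv
      exact absurd (h5 ▸ hlt) (not_lt.2 (min_le_right _ _))
  · refine ⟨h.trans hu hv hw huv h2, ?_⟩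
    rw [h.D_trans hu hv hw huv h2, h.symm hv hw]
    exact min_eq_left hlt.le

end Line

end Pool.Agent.W914.SA
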