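import Mathlib
import Pool.Agent.W914.SA.Line

/-!
# Adding a point, and amalgamating two structures
-/

set_option autoImplicit false
set_option linter.unusedSectionVars false

open Classical

namespace Pool.Agent.W914.SA

variable {Ω : Type} [LinearOrder Ω]

theorem exists_slightly_above {ι : Type} (X : Set ι) (hX : X.Finite) (f : ι → ℚ) (c : ℚ) :
    ∃ v, c < v ∧ ∀ y ∈ X, c < f y → v < f y := by
  induction X, hX using Set.Finite.induction_on with
  | empty => exact ⟨c + 1, by linarith, by simp⟩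
  | @insert y s hy hs ih =>
    obtain ⟨v, hv, h⟩ := ih
    by_cases hc : c < f y
    · obtain ⟨w, hw1, hw2⟩ := exists_between (lt_min hv hc)
      refine ⟨w, hw1, ?_⟩
      rintro x (rfl | hx) h1
      · exact hw2.trans_le (min_le_right _ _)
      · exact (hw2.trans_le (min_le_left _ _)).trans (h x hx h1)
    · refine ⟨v, hv, ?_⟩
      rintro x (rfl | hx) h1
      · exact absurd h1 hc
      · exact h x hx h1

/-- adding a point to the right of `u`, at distance `a` -/
theorem Line.insert {X : Set (Pt Ω)} {D : Pt Ω → Pt Ω → Ω} {lt : Pt Ω → Pt Ω → Prop}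
    (h : Line X D lt) (hX : X.Finite) {u z : Pt Ω} (hu : u ∈ X) (hz : z ∉ X) {a : Ω}
    (ha : a ≤ u.1) (ha' : a ≤ z.1) :
    ∃ D' lt', Line (Insert.insert z X) D' lt' ∧
      (∀ v ∈ X, ∀ w ∈ X, D' v w = D v w ∧ (lt' v w ↔ lt v w)) ∧
      (∀ y ∈ X, D' z y = min a (D u y)) ∧
      (∀ y ∈ X, (lt' y z ↔ (y = u ∨ lt y u ∨ (lt u y ∧ a < D u y)))) ∧
      (∀ y ∈ X, (lt' z y ↔ (lt u y ∧ D u y ≤ a))) := by
  obtain ⟨e, h⟩ := h
  obtain ⟨v0, hv0, hv1⟩ := exists_slightly_above X hX (fun y => e y a) (e u a)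
  set code : Ω → ℚ := fun η => if η < a then e u η else if η = a then v0 else 0 with hcode
  have c1 : ∀ η < a, code η = e u η := fun η hη => by simp [hcode, hη]
  have c2 : code a = v0 := by simp [hcode]
  have hne : ∀ y ∈ X, y ≠ z := fun y hy h0 => hz (h0 ▸ hy)
  -- the first difference with the new code
  have key : ∀ w ∈ X, First code (e w) (min a (D u w)) ∧
      (code (min a (D u w)) < e w (min a (D u w)) ↔ (lt u w ∧ D u w ≤ a)) := by
    intro w hw
    rcases eq_or_ne u w with h1 | h1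
    · subst h1
      rw [h.diag u hu, min_eq_left ha]
      refine ⟨⟨fun η hη => c1 η hη, by rw [c2]; exact hv0.ne'⟩, ?_⟩
      rw [c2]
      constructor
      · intro h2; exact absurd hv0 h2.asymm
      · intro h2; exact absurd h2.1 (h.irrefl u hu)
    · have f := h.first u hu w hw h1
      have hl := h.lt_iff u hu w hw h1
      rcases lt_trichotomy (D u w) a with h2 | h2 | h2
      · rw [min_eq_right h2.le]
        refine ⟨⟨fun η hη => (c1 η (hη.trans h2)).trans (f.1 η hη), ?_⟩, ?_⟩
        · rw [c1 _ h2]; exact f.2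
        · rw [c1 _ h2, hl]
          exact ⟨fun h3 => ⟨h3, h2.le⟩, fun h3 => h3.1⟩
      · rw [h2, min_self, c2]
        rw [h2] at f hl
        refine ⟨⟨fun η hη => (c1 η hη).trans (f.1 η hη), ?_⟩, ?_⟩
        · rw [c2]
          rcases lt_or_gt_of_ne f.2 with h3 | h3
          · exact (hv1 w hw h3).ne
          · exact (h3.trans hv0).ne'
        · rw [hl]
          constructor
          · intro h3
            exact ⟨hv0.trans h3, le_rfl⟩
          · intro h3
            exact hv1 w hw h3.1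
      · rw [min_eq_left h2.le, c2]
        have h3 := f.1 a h2
        refine ⟨⟨fun η hη => (c1 η hη).trans (f.1 η (hη.trans h2)), ?_⟩, ?_⟩
        · rw [c2, ← h3]; exact hv0.ne'
        · rw [← h3]
          constructor
          · intro h4; exact absurd hv0 h4.asymm
          · intro h4; exact absurd h2 (not_lt.2 h4.2)
  have key2 : ∀ w ∈ X, (e w (min a (D u w)) < code (min a (D u w)) ↔
      (w = u ∨ lt w u ∨ (lt u w ∧ a < D u w))) := by
    intro w hw
    obtain ⟨k1, k2⟩ := key w hw
    have h1 : (e w (min a (D u w)) < code (min a (D u w)) ↔ ¬ (lt u w ∧ D u w ≤ a)) := by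
      rw [← k2]
      constructor
      · intro h3; exact h3.asymm
      · intro h3; exact lt_of_le_of_ne (not_lt.1 h3) k1.2.symm
    rw [h1]
    constructor
    · intro h2
      rcases eq_or_ne w u with h3 | h3
      · exact .inl h3
      · rcases h.total hw hu h3 with h4 | h4
        · exact .inr (.inl h4)
        · exact .inr (.inr ⟨h4, not_le.1 fun h5 => h2 ⟨h4, h5⟩⟩)
    · rintro (h2 | h2 | h2) h3
      · subst h2; exact h.irrefl w hu h3.1
      · exact h.asymm hw hu h2 h3.1
      · exact absurd h2.2 (not_lt.2 h3.2)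
  refine ⟨fun v w => if v = z then (if w = z then z.1 else min a (D u w)) else
      if w = z then min a (D u v) else D v w,
    fun v w => if v = z then (w ≠ z ∧ lt u w ∧ D u w ≤ a) else
      if w = z then (v = u ∨ lt v u ∨ (lt u v ∧ a < D u v)) else lt v w,
    ⟨Function.update e z code, ?_, ?_, ?_, ?_, ?_, ?_⟩, ?_, ?_, ?_, ?_⟩
  · rintro v (rfl | hv)
    · rw [Function.update_self]
      refine ((h.fin u hu).union (Set.finite_singleton a)).subset fun η hη => ?_
      rcases lt_trichotomy η a with h1 | h1 | h1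
      · exact .inl (by simpa [c1 η h1] using hη)
      · exact .inr h1
      · exfalso
        apply hη
        simp [hcode, h1.not_gt, h1.ne']
    · rw [Function.update_of_ne (hne v hv)]
      exact h.fin v hv
  · rintro v (rfl | hv) w (rfl | hw) hvw
    · exact absurd rfl hvw
    · rw [Function.update_self, Function.update_of_ne (hne w hw)]
      simp only [if_true, if_neg (hne w hw)]
      exact (key w hw).1
    · rw [Function.update_self, Function.update_of_ne (hne v hv)]
      simp only [if_true, if_neg (hne v hv)]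
      exact (key v hv).1.symm
    · rw [Function.update_of_ne (hne w hw), Function.update_of_ne (hne v hv)]
      simp only [if_neg (hne v hv), if_neg (hne w hw)]
      exact h.first v hv w hw hvw
  · rintro v (rfl | hv) w (rfl | hw)
    · simp
    · simp only [if_true, if_neg (hne w hw)]
      exact (min_le_left _ _).trans ha'
    · simp only [if_true, if_neg (hne v hv)]
      refine (min_le_right _ _).trans ?_
      rw [h.symm hu hv]
      exact h.le v hv u hu
    · simp only [if_neg (hne v hv), if_neg (hne w hw)]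
      exact h.le v hv w hw
  · rintro v (rfl | hv) w (rfl | hw) hvw
    · exact absurd rfl hvw
    · rw [Function.update_self, Function.update_of_ne (hne w hw)]
      simp only [if_true, if_neg (hne w hw)]
      rw [(key w hw).2]
      simp [hne w hw]
    · rw [Function.update_self, Function.update_of_ne (hne v hv)]
      simp only [if_true, if_neg (hne v hv)]
      rw [key2 v hv]
    · rw [Function.update_of_ne (hne w hw), Function.update_of_ne (hne v hv)]
      simp only [if_neg (hne v hv), if_neg (hne w hw)]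
      exact h.lt_iff v hv w hw hvw
  · rintro v (rfl | hv)
    · simp
    · simp only [if_neg (hne v hv)]
      exact h.irrefl v hv
  · rintro v (rfl | hv)
    · simp
    · simp only [if_neg (hne v hv)]
      exact h.diag v hv
  · intro v hv w hw
    simp [hne v hv, hne w hw]
  · intro y hy
    simp [hne y hy]
  · intro y hy
    simp [hne y hy]
  · intro y hy
    simp [hne y hy]

/-- the first point -/
theorem line_singleton (z : Pt Ω) : Line {z} (fun _ _ => z.1) (fun _ _ => False) := by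
  refine ⟨fun _ _ => 0, ?_, ?_, ?_, ?_, ?_, ?_⟩
  · intro u _; simp
  · rintro u rfl v rfl h; exact absurd rfl h
  · rintro u rfl v rfl; exact le_rfl
  · rintro u rfl v rfl h; exact absurd rfl h
  · rintro u rfl h; exact h
  · rintro u rfl; rfl

theorem line_empty (D : Pt Ω → Pt Ω → Ω) (lt : Pt Ω → Pt Ω → Prop) : Line ∅ D lt := by
  refine ⟨fun _ _ => 0, ?_, ?_, ?_, ?_, ?_, ?_⟩ <;> simp

/-- amalgamation of two structures of the same type -/
theorem line_merge {X X' : Set (Pt Ω)} {D D' : Pt Ω → Pt Ω → Ω} {lt lt' : Pt Ω → Pt Ω → Prop}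
    {e e' : Pt Ω → Ω → ℚ} (h : Codes X D lt e) (h' : Codes X' D' lt' e')
    (b : Ω) (ε : Prop) (M : Pt Ω → Pt Ω → Prop)
    (hM1 : ∀ u ∈ X, ∃ v ∈ X', M u v) (hM2 : ∀ v ∈ X', ∃ u ∈ X, M u v)
    (hroot : ∀ u v, M u v → u.1 < b → u = v) (hroot' : ∀ u v, M u v → v.1 < b → u = v)
    (hb : ∀ u ∈ X, u.1 < b ∨ b < u.1) (hb' : ∀ u ∈ X', u.1 < b ∨ b < u.1)
    (hMe : ∀ u ∈ X, ∀ v ∈ X', M u v → ∀ η < b, e u η = e' v η)
    (hdis : ∀ u ∈ X, u ∈ X' → u.1 < b)
    (hD : ∀ u ∈ X, ∀ v ∈ X, D u v ≠ b) (hD' : ∀ u ∈ X', ∀ v ∈ X', D' u v ≠ b) :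
    ∃ (D'' : Pt Ω → Pt Ω → Ω) (lt'' : Pt Ω → Pt Ω → Prop), Line (X ∪ X') D'' lt'' ∧
      (∀ v ∈ X, ∀ w ∈ X, D'' v w = D v w ∧ (lt'' v w ↔ lt v w)) ∧
      (∀ v ∈ X', ∀ w ∈ X', D'' v w = D' v w ∧ (lt'' v w ↔ lt' v w)) ∧
      (∀ u ∈ X, ∀ v ∈ X', ∀ w ∈ X, M w v → D u w < b →
        D'' u v = D u w ∧ (lt'' u v ↔ lt u w) ∧ (lt'' v u ↔ lt w u)) ∧
      (∀ u ∈ X, ∀ v ∈ X', ∀ w ∈ X, M w v → b ≤ D u w →
        D'' u v = b ∧ (lt'' u v ↔ ε) ∧ (lt'' v u ↔ ¬ ε)) := by
  -- the new codes
  let e1 : Pt Ω → Ω → ℚ := fun a => Function.update (e a) b (if ε then 0 else 1)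
  let e2 : Pt Ω → Ω → ℚ := fun a => Function.update (e' a) b (if ε then 1 else 0)
  let E : Pt Ω → Ω → ℚ := fun a => if a ∈ X then e1 a else e2 a
  have e1b : ∀ a, e1 a b = if ε then 0 else 1 := fun a => Function.update_self _ _ _
  have e2b : ∀ a, e2 a b = if ε then 1 else 0 := fun a => Function.update_self _ _ _
  have e1n : ∀ a η, η ≠ b → e1 a η = e a η := fun a η hη => Function.update_of_ne hη _ _
  have e2n : ∀ a η, η ≠ b → e2 a η = e' a η := fun a η hη => Function.update_of_ne hη _ _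
  have hEX : ∀ a ∈ X, E a = e1 a := fun a ha => if_pos ha
  have hEX' : ∀ a ∉ X, E a = e2 a := fun a ha => if_neg ha
  -- first differences of the new codes
  have F1 : ∀ u ∈ X, ∀ v ∈ X, u ≠ v → First (E u) (E v) (D u v) ∧
      (E u (D u v) < E v (D u v) ↔ lt u v) := by
    intro u hu v hv hne
    have f := h.first u hu v hv hne
    have hd := hD u hu v hv
    rw [hEX u hu, hEX v hv]
    refine ⟨⟨fun η hη => ?_, ?_⟩, ?_⟩
    · rcases eq_or_ne η b with h1 | h1
      · subst h1; rw [e1b, e1b]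
      · rw [e1n _ _ h1, e1n _ _ h1]; exact f.1 η hη
    · rw [e1n _ _ hd, e1n _ _ hd]; exact f.2
    · rw [e1n _ _ hd, e1n _ _ hd, h.lt_iff u hu v hv hne]
  -- codes of common points
  have hcommon : ∀ u ∈ X, u ∈ X' → ∀ η < b, e u η = e' u η := by
    intro u hu hu' η hη
    obtain ⟨v, hv, huv⟩ := hM1 u hu
    have : u = v := hroot u v huv (hdis u hu hu')
    subst this
    exact hMe u hu u hu' huv η hη
  have F2 : ∀ u ∈ X', ∀ v ∈ X', u ≠ v → First (E u) (E v) (D' u v) ∧
      (E u (D' u v) < E v (D' u v) ↔ lt' u v) := by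
    intro u hu v hv hne
    have f := h'.first u hu v hv hne
    have hd := hD' u hu v hv
    have hdu := h'.le u hu v hv
    have hdv : D' u v ≤ v.1 := by rw [h'.symm hu hv]; exact h'.le v hv u hu
    by_cases hroot : u.1 < b ∨ v.1 < b
    · -- everything happens below `b`
      have hlt : D' u v < b := by
        rcases hroot with h1 | h1
        · exact hdu.trans_lt h1
        · exact hdv.trans_lt h1
      have hval : ∀ a ∈ X', ∀ η < b, E a η = e' a η := by
        intro a ha η hη
        by_cases haX : a ∈ X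
        · rw [hEX a haX, e1n _ _ hη.ne]; exact hcommon a haX ha η hη
        · rw [hEX' a haX, e2n _ _ hη.ne]
      refine ⟨⟨fun η hη => ?_, ?_⟩, ?_⟩
      · rw [hval u hu η (hη.trans hlt), hval v hv η (hη.trans hlt)]; exact f.1 η hη
      · rw [hval u hu _ hlt, hval v hv _ hlt]; exact f.2
      · rw [hval u hu _ hlt, hval v hv _ hlt, h'.lt_iff u hu v hv hne]
    · push Not at hroot
      have huX : u ∉ X := fun h1 => absurd (hdis u h1 hu) (not_lt.2 hroot.1)
      have hvX : v ∉ X := fun h1 => absurd (hdis v h1 hv) (not_lt.2 hroot.2)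
      rw [hEX' u huX, hEX' v hvX]
      refine ⟨⟨fun η hη => ?_, ?_⟩, ?_⟩
      · rcases eq_or_ne η b with h1 | h1
        · subst h1; rw [e2b, e2b]
        · rw [e2n _ _ h1, e2n _ _ h1]; exact f.1 η hη
      · rw [e2n _ _ hd, e2n _ _ hd]; exact f.2
      · rw [e2n _ _ hd, e2n _ _ hd, h'.lt_iff u hu v hv hne]
  -- cross pairs
  have F3 : ∀ u ∈ X, ∀ v ∈ X', v ∉ X → ∀ w ∈ X, M w v → D u w < b →
      First (E u) (E v) (D u w) ∧ (E u (D u w) < E v (D u w) ↔ lt u w) := by
    intro u hu v hv hvX w hw hwv hlt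
    have hwb : b < w.1 := by
      rcases hb w hw with h1 | h1
      · exact absurd (hroot w v hwv h1 ▸ hw) hvX
      · exact h1
    have hne : u ≠ w := by
      rintro rfl
      rw [h.diag u hu] at hlt
      exact hwb.asymm hlt
    have f := h.first u hu w hw hne
    rw [hEX u hu, hEX' v hvX]
    have hval : ∀ η < b, e2 v η = e w η := by
      intro η hη
      rw [e2n _ _ hη.ne]; exact (hMe w hw v hv hwv η hη).symm
    refine ⟨⟨fun η hη => ?_, ?_⟩, ?_⟩
    · rw [e1n _ _ (hη.trans hlt).ne, hval η (hη.trans hlt)]; exact f.1 η hη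
    · rw [e1n _ _ hlt.ne, hval _ hlt]; exact f.2
    · rw [e1n _ _ hlt.ne, hval _ hlt, h.lt_iff u hu w hw hne]
  have F4 : ∀ u ∈ X, ∀ v ∈ X', v ∉ X → ∀ w ∈ X, M w v → b ≤ D u w →
      First (E u) (E v) b ∧ (E u b < E v b ↔ ε) := by
    intro u hu v hv hvX w hw hwv hlt
    rw [hEX u hu, hEX' v hvX]
    refine ⟨⟨fun η hη => ?_, ?_⟩, ?_⟩
    · rw [e1n _ _ hη.ne, e2n _ _ hη.ne, ← hMe w hw v hv hwv η hη]
      rcases eq_or_ne u w with h1 | h1
      · rw [h1]
      · exact (h.first u hu w hw h1).1 η (hη.trans_le hlt)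
    · rw [e1b, e2b]; split_ifs <;> norm_num
    · rw [e1b, e2b]
      by_cases hε : ε
      · simp [hε]
      · simp [hε]
  -- every pair of points is separated
  have hsep : ∀ u ∈ X ∪ X', ∀ v ∈ X ∪ X', u ≠ v → ∃ d, First (E u) (E v) d ∧ d ≤ u.1 ∧ d ≤ v.1 := by
    have hcross : ∀ u ∈ X, ∀ v ∈ X', v ∉ X → ∃ d, First (E u) (E v) d ∧ d ≤ u.1 ∧ d ≤ v.1 := by
      intro u hu v hv hvX
      obtain ⟨w, hw, hwv⟩ := hM2 v hv
      have hvb : b < v.1 := by
        rcases hb' v hv with h1 | h1
        · exact absurd (hroot' w v hwv h1 ▸ hw) hvX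
        · exact h1
      rcases lt_or_ge (D u w) b with h1 | h1
      · exact ⟨_, (F3 u hu v hv hvX w hw hwv h1).1, h.le u hu w hw, (h1.trans hvb).le⟩
      · exact ⟨_, (F4 u hu v hv hvX w hw hwv h1).1, h1.trans (h.le u hu w hw), hvb.le⟩
    rintro u hu v hv hne
    by_cases huX : u ∈ X
    · by_cases hvX : v ∈ X
      · exact ⟨_, (F1 u huX v hvX hne).1, h.le u huX v hvX, by
          rw [h.symm huX hvX]; exact h.le v hvX u huX⟩
      · exact hcross u huX v (hv.resolve_left hvX) hvX
    · by_cases hvX : v ∈ X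
      · obtain ⟨d, h1, h2, h3⟩ := hcross v hvX u (hu.resolve_left huX) huX
        exact ⟨d, h1.symm, h3, h2⟩
      · have hu' := hu.resolve_left huX
        have hv' := hv.resolve_left hvX
        exact ⟨_, (F2 u hu' v hv' hne).1, h'.le u hu' v hv', by
          rw [h'.symm hu' hv']; exact h'.le v hv' u hu'⟩
  let D'' : Pt Ω → Pt Ω → Ω := fun u v => if hd : u ≠ v ∧ ∃ d, First (E u) (E v) d then hd.2.choose
    else u.1
  have hD''1 : ∀ u v d, u ≠ v → First (E u) (E v) d → D'' u v = d := by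
    intro u v d hne hf
    have hd : u ≠ v ∧ ∃ d, First (E u) (E v) d := ⟨hne, d, hf⟩
    simp only [D'']
    rw [dif_pos hd]
    exact hd.2.choose_spec.unique hf
  have hD''2 : ∀ u, D'' u u = u.1 := by
    intro u
    simp [D'']
  let lt'' : Pt Ω → Pt Ω → Prop := fun u v => u ≠ v ∧ E u (D'' u v) < E v (D'' u v)
  have hlt'' : ∀ u v d, u ≠ v → First (E u) (E v) d → (lt'' u v ↔ E u d < E v d) := by
    intro u v d hne hf
    simp only [lt'', hD''1 u v d hne hf]
    exact ⟨fun h1 => h1.2, fun h1 => ⟨hne, h1⟩⟩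
  have hltrev : ∀ u v d, u ≠ v → First (E u) (E v) d → (lt'' v u ↔ ¬ E u d < E v d) := by
    intro u v d hne hf
    rw [hlt'' v u d hne.symm hf.symm]
    exact ⟨fun h1 => h1.asymm, fun h1 => lt_of_le_of_ne (not_lt.1 h1) hf.2.symm⟩
  refine ⟨D'', lt'', ⟨E, ?_, ?_, ?_, ?_, ?_, ?_⟩, ?_, ?_, ?_, ?_⟩
  · intro u hu
    by_cases huX : u ∈ X
    · rw [hEX u huX]
      refine ((h.fin u huX).union (Set.finite_singleton b)).subset fun η hη => ?_
      rcases eq_or_ne η b with h1 | h1
      · exact .inr h1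
      · exact .inl (by simpa [e1n u η h1] using hη)
    · rw [hEX' u huX]
      refine ((h'.fin u (hu.resolve_left huX)).union (Set.finite_singleton b)).subset fun η hη => ?_
      rcases eq_or_ne η b with h1 | h1
      · exact .inr h1
      · exact .inl (by simpa [e2n u η h1] using hη)
  · intro u hu v hv hne
    obtain ⟨d, hd, -, -⟩ := hsep u hu v hv hne
    rw [hD''1 u v d hne hd]
    exact hd
  · intro u hu v hv
    rcases eq_or_ne u v with h1 | h1
    · subst h1; rw [hD''2]
    · obtain ⟨d, hd, hd1, -⟩ := hsep u hu v hv h1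
      rw [hD''1 u v d h1 hd]
      exact hd1
  · intro u hu v hv hne
    simp only [lt'']
    exact ⟨fun h1 => h1.2, fun h1 => ⟨hne, h1⟩⟩
  · intro u _ h1
    exact h1.1 rfl
  · intro u _
    exact hD''2 u
  · intro u hu v hv
    rcases eq_or_ne u v with h1 | h1
    · subst h1
      rw [hD''2, h.diag u hu]
      exact ⟨rfl, fun h2 => absurd rfl h2.1, fun h2 => absurd h2 (h.irrefl u hu)⟩
    · obtain ⟨f1, f2⟩ := F1 u hu v hv h1
      exact ⟨hD''1 u v _ h1 f1, (hlt'' u v _ h1 f1).trans f2⟩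
  · intro u hu v hv
    rcases eq_or_ne u v with h1 | h1
    · subst h1
      rw [hD''2, h'.diag u hu]
      exact ⟨rfl, fun h2 => absurd rfl h2.1, fun h2 => absurd h2 (h'.irrefl u hu)⟩
    · obtain ⟨f1, f2⟩ := F2 u hu v hv h1
      exact ⟨hD''1 u v _ h1 f1, (hlt'' u v _ h1 f1).trans f2⟩
  · intro u hu v hv w hw hwv hlt
    by_cases hvX : v ∈ X
    · -- `v` is a common point
      have hvw : w = v := hroot' w v hwv (hdis v hvX hv)
      subst hvw
      rcases eq_or_ne u w with h1 | h1
      · subst h1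
        rw [hD''2, h.diag u hu]
        refine ⟨rfl, ⟨fun h2 => absurd rfl h2.1, fun h2 => absurd h2 (h.irrefl u hu)⟩,
          ⟨fun h2 => absurd rfl h2.1, fun h2 => absurd h2 (h.irrefl u hu)⟩⟩
      · obtain ⟨f1, f2⟩ := F1 u hu w hw h1
        refine ⟨hD''1 u w _ h1 f1, (hlt'' u w _ h1 f1).trans f2, ?_⟩
        obtain ⟨f1', f2'⟩ := F1 w hw u hu h1.symm
        exact (hlt'' w u _ h1.symm f1').trans f2'
    · have hne : u ≠ v := fun h1 => hvX (h1 ▸ hu)
      obtain ⟨f1, f2⟩ := F3 u hu v hv hvX w hw hwv hlt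
      refine ⟨hD''1 u v _ hne f1, (hlt'' u v _ hne f1).trans f2, ?_⟩
      rw [hltrev u v _ hne f1, f2]
      have huw : u ≠ w := by
        rintro rfl
        have hwb : b < u.1 := by
          rcases hb u hw with h1 | h1
          · exact absurd (hroot u v hwv h1) hne
          · exact h1
        rw [h.diag u hu] at hlt
        exact hwb.asymm hlt
      constructor
      · intro h1; exact (h.total hu hw huw).resolve_left h1
      · intro h1; exact h.asymm hw hu h1
  · intro u hu v hv w hw hwv hlt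
    have hbw : b < w.1 := by
      have h1 : b ≤ w.1 := hlt.trans (by rw [h.symm hu hw]; exact h.le w hw u hu)
      rcases hb w hw with h2 | h2
      · exact absurd h2 (not_lt.2 h1)
      · exact h2
    have hvX : v ∉ X := by
      intro h1
      have h2 := hdis v h1 hv
      have h3 := hroot' w v hwv h2
      rw [h3] at hbw
      exact hbw.asymm h2
    have hne : u ≠ v := fun h1 => hvX (h1 ▸ hu)
    obtain ⟨f1, f2⟩ := F4 u hu v hv hvX w hw hwv hlt
    exact ⟨hD''1 u v _ hne f1, (hlt'' u v _ hne f1).trans f2,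
      (hltrev u v _ hne f1).trans (not_congr f2)⟩

end Pool.Agent.W914.SA
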