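import Mathlib
import Pool.Agent.W914.SS.Str
import Pool.Agent.W914.SA.LineOps

/-!
# The conditions

A condition carries: finite approximations to sequences of rationals for finitely many points, a
finite substructure `X`, `D`, `lt` of the generic Aronszajn line, and for each coordinate `α` finite
approximations to monotone maps of the set of reals and of the Aronszajn line onto a set of points.
-/

set_option autoImplicit false
set_option linter.unusedSectionVars false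

open Classical

namespace Pool.Agent.W914.SA

open Pool.Agent.W914.SS (Lt)

/-- items: `(x, inl z)` means that `z` is mapped to `x`, and `(k, inr s)` that all points whose
sequence extends `s` are mapped to `k` -/
abbrev Item (Ω : Type) := Pt Ω × (Pt Ω ⊕ List ℚ)

/-- raw conditions -/
@[ext] structure Raw (Ω I : Type) where
  /-- the approximations to the sequences -/
  st : Pt Ω → List ℚ
  /-- the items for the set of reals, with their coordinates -/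
  T : Finset (I × Item Ω)
  /-- the points of the Aronszajn line -/
  X : Finset (Pt Ω)
  /-- the splitting function -/
  D : Pt Ω → Pt Ω → Ω
  /-- the order of the Aronszajn line -/
  lt : Pt Ω → Pt Ω → Prop
  /-- the items for the Aronszajn line, with their coordinates: `(x, z)` means that `z` is mapped
  to `x` -/
  U : Finset (I × (Pt Ω × Pt Ω))

variable {Ω I : Type} [LinearOrder Ω] [LinearOrder I]

instance : Preorder (Raw Ω I) where
  le q p := (∀ x, p.st x <+: q.st x) ∧ p.T ⊆ q.T ∧ p.X ⊆ q.X ∧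
    (∀ u ∈ p.X, ∀ v ∈ p.X, q.D u v = p.D u v ∧ (q.lt u v ↔ p.lt u v)) ∧ p.U ⊆ q.U
  le_refl p := ⟨fun _ => List.prefix_rfl, le_rfl, le_rfl, fun _ _ _ _ => ⟨rfl, Iff.rfl⟩, le_rfl⟩
  le_trans a b c h1 h2 := ⟨fun x => (h2.1 x).trans (h1.1 x), h2.2.1.trans h1.2.1,
    h2.2.2.1.trans h1.2.2.1, fun u hu v hv =>
      ⟨(h1.2.2.2.1 u (h2.2.2.1 hu) v (h2.2.2.1 hv)).1.trans (h2.2.2.2.1 u hu v hv).1,
        (h1.2.2.2.1 u (h2.2.2.1 hu) v (h2.2.2.1 hv)).2.trans (h2.2.2.2.1 u hu v hv).2⟩,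
    h2.2.2.2.2.trans h1.2.2.2.2⟩

namespace Raw

theorem le_st {q p : Raw Ω I} (h : q ≤ p) (x : Pt Ω) : p.st x <+: q.st x := h.1 x
theorem le_T {q p : Raw Ω I} (h : q ≤ p) : p.T ⊆ q.T := h.2.1
theorem le_X {q p : Raw Ω I} (h : q ≤ p) : p.X ⊆ q.X := h.2.2.1
theorem le_D {q p : Raw Ω I} (h : q ≤ p) {u v : Pt Ω} (hu : u ∈ p.X) (hv : v ∈ p.X) :
    q.D u v = p.D u v := (h.2.2.2.1 u hu v hv).1
theorem le_lt {q p : Raw Ω I} (h : q ≤ p) {u v : Pt Ω} (hu : u ∈ p.X) (hv : v ∈ p.X) :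
    q.lt u v ↔ p.lt u v := (h.2.2.2.1 u hu v hv).2
theorem le_U {q p : Raw Ω I} (h : q ≤ p) : p.U ⊆ q.U := h.2.2.2.2

end Raw

/-- the part below `α` -/
noncomputable def res (p : Raw Ω I) (α : I) : Raw Ω I :=
  ⟨p.st, p.T.filter fun t => t.1 < α, p.X, p.D, p.lt, p.U.filter fun t => t.1 < α⟩

theorem mem_resT {p : Raw Ω I} {α : I} {t : I × Item Ω} : t ∈ (res p α).T ↔ t ∈ p.T ∧ t.1 < α :=
  Finset.mem_filter

theorem mem_resU {p : Raw Ω I} {α : I} {t : I × (Pt Ω × Pt Ω)} :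
    t ∈ (res p α).U ↔ t ∈ p.U ∧ t.1 < α := Finset.mem_filter

theorem le_res (p : Raw Ω I) (α : I) : p ≤ res p α :=
  ⟨fun _ => List.prefix_rfl, fun _ h => (mem_resT.1 h).1, le_rfl, fun _ _ _ _ => ⟨rfl, Iff.rfl⟩,
    fun _ h => (mem_resU.1 h).1⟩

theorem res_mono {p q : Raw Ω I} (h : q ≤ p) (α : I) : res q α ≤ res p α :=
  ⟨h.1, fun _ ht => mem_resT.2 ⟨h.2.1 (mem_resT.1 ht).1, (mem_resT.1 ht).2⟩, h.2.2.1, h.2.2.2.1,
    fun _ ht => mem_resU.2 ⟨h.2.2.2.2 (mem_resU.1 ht).1, (mem_resU.1 ht).2⟩⟩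

/-- where an item is located -/
def loc (s : Pt Ω → List ℚ) : Pt Ω ⊕ List ℚ → List ℚ
  | .inl z => s z
  | .inr σ => σ

/-- `i` is to the left of `j`, and so is its value or the values are equal and the colour of the
value is less than `δ` -/
def Rel (s : Pt Ω → List ℚ) (δ : Ω) (i j : Item Ω) : Prop :=
  Lt (loc s i.2) (loc s j.2) ∧ (Lt (s i.1) (s j.1) ∨ (i.1 = j.1 ∧ i.1.1 < δ))

theorem loc_mono {s s' : Pt Ω → List ℚ} (h : ∀ x, s x <+: s' x) (w : Pt Ω ⊕ List ℚ) :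
    loc s w <+: loc s' w := by
  cases w with
  | inl z => exact h z
  | inr σ => exact List.prefix_rfl

theorem Rel.mono {s s' : Pt Ω → List ℚ} (h : ∀ x, s x <+: s' x) {δ : Ω} {i j : Item Ω}
    (hr : Rel s δ i j) : Rel s' δ i j := by
  refine ⟨hr.1.mono (loc_mono h _) (loc_mono h _), ?_⟩
  rcases hr.2 with h' | h'
  · exact .inl (h'.mono (h _) (h _))
  · exact .inr h'

/-! ### closure points -/

/-- `γ` is closed under `b` -/
def Cl (b : Ω → Ω) (γ : Ω) : Prop := ∀ η < γ, b η ≤ γ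

/-- no closure point separates `ζ` from the larger `ξ` -/
def Le (b : Ω → Ω) (ξ ζ : Ω) : Prop := ∀ γ, Cl b γ → ζ < γ → ξ < γ

theorem Le.of_le {b : Ω → Ω} {ξ ζ : Ω} (h : ξ ≤ ζ) : Le b ξ ζ := fun _ _ h1 => h.trans_lt h1

theorem Le.refl (b : Ω → Ω) (ξ : Ω) : Le b ξ ξ := Le.of_le le_rfl

theorem Le.trans {b : Ω → Ω} {ξ ζ θ : Ω} (h1 : Le b ξ ζ) (h2 : Le b ζ θ) : Le b ξ θ :=
  fun γ hγ h3 => h1 γ hγ (h2 γ hγ h3)

theorem Le.lt {b : Ω → Ω} {ξ ζ γ : Ω} (h : Le b ξ ζ) (hγ : Cl b γ) (hζ : ζ < γ) : ξ < γ :=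
  h γ hγ hζ

theorem Le.min {b : Ω → Ω} {ξ ζ θ : Ω} (h1 : Le b ξ ζ) (h2 : Le b ξ θ) : Le b ξ (min ζ θ) := by
  rcases min_choice ζ θ with h | h <;> rw [h] <;> assumption

/-- the relation between items `(x, z)`, `(x', z')` with `z` to the left of `z'` -/
def RR (D : Pt Ω → Pt Ω → Ω) (lt : Pt Ω → Pt Ω → Prop) (b : Ω → Ω) (x z x' z' : Pt Ω) : Prop :=
  (x = x' ∧ Le b x.1 (D z z')) ∨
    (lt x x' ∧ Le b (D x x') (D z z') ∧ Le b (D z z') (D x x'))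

/-- the bookkeeping function -/
abbrev Book (Ω I : Type) := I → (Pt Ω → ℕ → Option (Raw Ω I)) × Ω × (Ω → Ω)

/-- good conditions -/
structure Good (B : Book Ω I) (p : Raw Ω I) : Prop where
  fin : {x | p.st x ≠ []}.Finite
  loc1 : ∀ α x z, (α, (x, Sum.inl z)) ∈ p.T → x.1 = z.1 ∧ (B α).2.1 ≤ x.1 ∧ p.st z ≠ []
  loc2 : ∀ α k σ, (α, (k, Sum.inr σ)) ∈ p.T → k.1 < (B α).2.1 ∧ σ ≠ []
  rel : ∀ α i j, (α, i) ∈ p.T → (α, j) ∈ p.T →
    i = j ∨ Rel p.st (B α).2.1 i j ∨ Rel p.st (B α).2.1 j i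
  val : ∀ α x w, (α, (x, w)) ∈ p.T → ∃ n c, (B α).1 x n = some c ∧ res p α ≤ c
  line : Line (p.X : Set (Pt Ω)) p.D p.lt
  uX : ∀ α x z, (α, (x, z)) ∈ p.U → x ∈ p.X ∧ z ∈ p.X
  uLe : ∀ α x z, (α, (x, z)) ∈ p.U → Le (B α).2.2 x.1 z.1
  uFun : ∀ α x x' z, (α, (x, z)) ∈ p.U → (α, (x', z)) ∈ p.U → x = x'
  uRR : ∀ α x z x' z', (α, (x, z)) ∈ p.U → (α, (x', z')) ∈ p.U → p.lt z z' →
    RR p.D p.lt (B α).2.2 x z x' z'
  uval : ∀ α x z, (α, (x, z)) ∈ p.U → ∃ n c, (B α).1 x n = some c ∧ res p α ≤ c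

/-- the conditions -/
abbrev Cond (B : Book Ω I) := {p : Raw Ω I // Good B p}

variable {B : Book Ω I}

theorem Good.loc_ne {p : Raw Ω I} (h : Good B p) {α : I} {i : Item Ω} (hi : (α, i) ∈ p.T) :
    loc p.st i.2 ≠ [] := by
  obtain ⟨x, w⟩ := i
  cases w with
  | inl z => exact (h.loc1 _ _ _ hi).2.2
  | inr σ => exact (h.loc2 _ _ _ hi).2

/-- the relation only depends on `D` and `lt` for the points concerned -/
theorem RR.congr {D D' : Pt Ω → Pt Ω → Ω} {lt lt' : Pt Ω → Pt Ω → Prop} {b : Ω → Ω}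
    {x z x' z' : Pt Ω} (h : RR D lt b x z x' z') (h1 : D' z z' = D z z') (h2 : D' x x' = D x x')
    (h3 : lt' x x' ↔ lt x x') : RR D' lt' b x z x' z' := by
  rcases h with h | h
  · exact .inl ⟨h.1, by rw [h1]; exact h.2⟩
  · exact .inr ⟨h3.2 h.1, by rw [h1, h2]; exact h.2.1, by rw [h1, h2]; exact h.2.2⟩

/-- the sequences can be extended -/
theorem exists_extSt (p : Cond B) (s : Pt Ω → List ℚ) (hs : ∀ x, p.1.st x <+: s x)
    (hf : {x | s x ≠ p.1.st x}.Finite) : ∃ q ≤ p, q.1.st = s ∧ q.1.T = p.1.T := by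
  have hle : (⟨s, p.1.T, p.1.X, p.1.D, p.1.lt, p.1.U⟩ : Raw Ω I) ≤ p.1 :=
    ⟨hs, le_rfl, le_rfl, fun _ _ _ _ => ⟨rfl, Iff.rfl⟩, le_rfl⟩
  refine ⟨⟨⟨s, p.1.T, p.1.X, p.1.D, p.1.lt, p.1.U⟩, ?_, ?_, ?_, ?_, ?_, ?_, ?_, ?_, ?_, ?_, ?_⟩,
    hle, rfl, rfl⟩
  · refine (hf.union p.2.fin).subset fun x hx => ?_
    by_cases h : s x = p.1.st x
    · exact .inr (by simpa [← h] using hx)
    · exact .inl h
  · intro α x z hx
    obtain ⟨h1, h2, h3⟩ := p.2.loc1 α x z hx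
    exact ⟨h1, h2, fun h0 => h3 (List.eq_nil_of_prefix_nil (h0 ▸ hs z))⟩
  · exact p.2.loc2
  · intro α i j hi hj
    rcases p.2.rel α i j hi hj with h' | h' | h'
    · exact .inl h'
    · exact .inr (.inl (h'.mono hs))
    · exact .inr (.inr (h'.mono hs))
  · intro α x w hx
    obtain ⟨n, c, h1, h2⟩ := p.2.val α x w hx
    exact ⟨n, c, h1, (res_mono hle α).trans h2⟩
  · exact p.2.line
  · exact p.2.uX
  · exact p.2.uLe
  · exact p.2.uFun
  · exact p.2.uRR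
  · intro α x w hx
    obtain ⟨n, c, h1, h2⟩ := p.2.uval α x w hx
    exact ⟨n, c, h1, (res_mono hle α).trans h2⟩

/-- the condition `p` with the part below `α` and the structures taken from `q` -/
noncomputable def glue (q p : Raw Ω I) (α : I) : Raw Ω I :=
  ⟨q.st, (q.T.filter fun t => t.1 < α) ∪ p.T.filter fun t => ¬ t.1 < α, q.X, q.D, q.lt,
    (q.U.filter fun t => t.1 < α) ∪ p.U.filter fun t => ¬ t.1 < α⟩

theorem mem_glueT {q p : Raw Ω I} {α : I} {t : I × Item Ω} :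
    t ∈ (glue q p α).T ↔ (t ∈ q.T ∧ t.1 < α) ∨ (t ∈ p.T ∧ ¬ t.1 < α) := by
  simp only [glue, Finset.mem_union, Finset.mem_filter]

theorem mem_glueU {q p : Raw Ω I} {α : I} {t : I × (Pt Ω × Pt Ω)} :
    t ∈ (glue q p α).U ↔ (t ∈ q.U ∧ t.1 < α) ∨ (t ∈ p.U ∧ ¬ t.1 < α) := by
  simp only [glue, Finset.mem_union, Finset.mem_filter]

theorem glueT_sub {q p : Raw Ω I} (h : q ≤ p) {α : I} : (glue q p α).T ⊆ q.T := by
  intro t ht
  rcases mem_glueT.1 ht with ht | ht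
  · exact ht.1
  · exact h.2.1 ht.1

theorem glueU_sub {q p : Raw Ω I} (h : q ≤ p) {α : I} : (glue q p α).U ⊆ q.U := by
  intro t ht
  rcases mem_glueU.1 ht with ht | ht
  · exact ht.1
  · exact h.2.2.2.2 ht.1

theorem glue_le {q p : Raw Ω I} (h : q ≤ p) (α : I) : glue q p α ≤ p := by
  refine ⟨h.1, fun t ht => ?_, h.2.2.1, h.2.2.2.1, fun t ht => ?_⟩
  · by_cases h' : t.1 < α
    · exact mem_glueT.2 (.inl ⟨h.2.1 ht, h'⟩)
    · exact mem_glueT.2 (.inr ⟨ht, h'⟩)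
  · by_cases h' : t.1 < α
    · exact mem_glueU.2 (.inl ⟨h.2.2.2.2 ht, h'⟩)
    · exact mem_glueU.2 (.inr ⟨ht, h'⟩)

theorem glue_le_res {q p : Raw Ω I} (α : I) : glue q p α ≤ res q α :=
  ⟨fun _ => List.prefix_rfl, fun _ ht => mem_glueT.2 (.inl (mem_resT.1 ht)), le_rfl,
    fun _ _ _ _ => ⟨rfl, Iff.rfl⟩, fun _ ht => mem_glueU.2 (.inl (mem_resU.1 ht))⟩

theorem mem_glueT_self {q p : Raw Ω I} {α : I} {i : Item Ω} :
    (α, i) ∈ (glue q p α).T ↔ (α, i) ∈ p.T := by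
  rw [mem_glueT]
  simp

theorem mem_glueU_self {q p : Raw Ω I} {α : I} {i : Pt Ω × Pt Ω} :
    (α, i) ∈ (glue q p α).U ↔ (α, i) ∈ p.U := by
  rw [mem_glueU]
  simp

theorem glue_val {q p : Raw Ω I} (h : q ≤ p) (α β : I) (hβ : β < α) :
    res (glue q p α) β ≤ res q β := by
  refine ⟨fun _ => List.prefix_rfl, fun t ht => ?_, le_rfl, fun _ _ _ _ => ⟨rfl, Iff.rfl⟩,
    fun t ht => ?_⟩
  · rw [mem_resT] at ht ⊢
    exact ⟨mem_glueT.2 (.inl ⟨ht.1, lt_trans ht.2 hβ⟩), ht.2⟩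
  · rw [mem_resU] at ht ⊢
    exact ⟨mem_glueU.2 (.inl ⟨ht.1, lt_trans ht.2 hβ⟩), ht.2⟩

theorem Good.glue {q p : Raw Ω I} (hq : Good B q) (hp : Good B p) (h : q ≤ p) (α : I) :
    Good B (glue q p α) where
  fin := hq.fin
  loc1 β x z hx := hq.loc1 _ _ _ (glueT_sub h hx)
  loc2 β x z hx := hq.loc2 _ _ _ (glueT_sub h hx)
  rel β i j hi hj := hq.rel β i j (glueT_sub h hi) (glueT_sub h hj)
  val β x w hx := by
    rcases mem_glueT.1 hx with hx | hx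
    · obtain ⟨n, c, h1, h2⟩ := hq.val β x w hx.1
      exact ⟨n, c, h1, (glue_val h α β hx.2).trans h2⟩
    · obtain ⟨n, c, h1, h2⟩ := hp.val β x w hx.1
      exact ⟨n, c, h1, (res_mono (glue_le h α) β).trans h2⟩
  line := hq.line
  uX β x z hx := hq.uX _ _ _ (glueU_sub h hx)
  uLe β x z hx := hq.uLe _ _ _ (glueU_sub h hx)
  uFun β x x' z hx hx' := hq.uFun _ _ _ _ (glueU_sub h hx) (glueU_sub h hx')
  uRR β x z x' z' hx hx' hlt := hq.uRR _ _ _ _ _ (glueU_sub h hx) (glueU_sub h hx') hlt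
  uval β x w hx := by
    rcases mem_glueU.1 hx with hx | hx
    · obtain ⟨n, c, h1, h2⟩ := hq.uval β x w hx.1
      exact ⟨n, c, h1, (glue_val h α β hx.2).trans h2⟩
    · obtain ⟨n, c, h1, h2⟩ := hp.uval β x w hx.1
      exact ⟨n, c, h1, (res_mono (glue_le h α) β).trans h2⟩

/-- one point can be separated from finitely many points and sequences -/
theorem exists_separate (p : Cond B) (x : Pt Ω) (Y : Set (Pt Ω)) (hY : Y.Finite) (hx : x ∉ Y)
    (S : Set (List ℚ)) (hS : S.Finite) : ∃ q ≤ p, q.1.T = p.1.T ∧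
      (∀ y ∈ Y, Lt (q.1.st x) (q.1.st y) ∨ Lt (q.1.st y) (q.1.st x)) ∧
      (∀ σ ∈ S, σ <+: p.1.st x ∨ Lt σ (q.1.st x) ∨ Lt (q.1.st x) σ) ∧ q.1.st x ≠ [] := by
  classical
  obtain ⟨a, ha⟩ : ∃ a : ℚ, ∀ y, y = x ∨ y ∈ Y → a ∉ p.1.st y := by
    have h1 : (⋃ y ∈ (insert x Y), {a | a ∈ p.1.st y}).Finite := by
      refine (hY.insert x).biUnion fun y _ => ?_
      exact List.finite_toSet _
    obtain ⟨a, ha⟩ := h1.infinite_compl.nonempty
    refine ⟨a, fun y hy h => ha ?_⟩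
    simp only [Set.mem_iUnion]
    exact ⟨y, hy, h⟩
  obtain ⟨b, hb, hba⟩ : ∃ b : ℚ, (∀ y, y ∈ Y → b ∉ p.1.st y) ∧ b ≠ a ∧ ∀ σ ∈ S, b ∉ σ := by
    have h1 : ((⋃ y ∈ Y, {a | a ∈ p.1.st y}) ∪ {a} ∪ ⋃ σ ∈ S, {a | a ∈ σ}).Finite := by
      refine ((hY.biUnion fun y _ => ?_).union (Set.finite_singleton _)).union
        (hS.biUnion fun y _ => ?_)
      · exact List.finite_toSet _
      · exact List.finite_toSet _
    obtain ⟨a, ha⟩ := h1.infinite_compl.nonempty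
    refine ⟨a, fun y hy h => ha ?_, fun h => ha ?_, fun σ hσ h => ha ?_⟩
    · refine .inl (.inl ?_)
      simp only [Set.mem_iUnion]
      exact ⟨y, hy, h⟩
    · exact .inl (.inr h)
    · refine .inr ?_
      simp only [Set.mem_iUnion]
      exact ⟨σ, hσ, h⟩
  obtain ⟨q, hqp, hq1, hq2⟩ := exists_extSt p
    (fun y => if y = x then p.1.st x ++ [b] else if y ∈ Y then p.1.st y ++ [a] else p.1.st y)
    (by
      intro y
      split_ifs with h1 h2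
      · subst h1; exact List.prefix_append _ _
      · exact List.prefix_append _ _
      · exact List.prefix_rfl)
    ((hY.insert x).subset fun y hy => by
      by_contra hcon
      simp only [Set.mem_insert_iff, not_or] at hcon
      exact hy (by simp [hcon.1, hcon.2]))
  have hqx : q.1.st x = p.1.st x ++ [b] := by rw [hq1]; simp
  have hqy : ∀ y ∈ Y, q.1.st y = p.1.st y ++ [a] := by
    intro y hy
    rw [hq1]
    have : y ≠ x := fun h => hx (h ▸ hy)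
    simp [this, hy]
  refine ⟨q, hqp, hq2, fun y hy => ?_, fun σ hσ => ?_, by rw [hqx]; simp⟩
  · have h1 : b ∉ q.1.st y := by
      rw [hqy y hy]
      simp only [List.mem_append, List.mem_singleton, not_or]
      exact ⟨hb y hy, hba.1⟩
    rcases Lt.append_fresh (t := p.1.st x) h1 with h | h | h
    · exfalso
      rw [hqy y hy] at h
      have : a ∈ p.1.st x := h.subset (by simp)
      exact ha x (.inl rfl) this
    · rw [hqx]; exact .inr h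
    · rw [hqx]; exact .inl h
  · rw [hqx]
    exact Lt.append_fresh (hba.2 σ hσ)

/-- an item can be added -/
theorem exists_add (p : Cond B) (s : Pt Ω → List ℚ) (hs : ∀ x, p.1.st x <+: s x)
    (hf : {x | s x ≠ p.1.st x}.Finite) (α : I) (i0 : Item Ω)
    (h1 : ∀ z, i0.2 = Sum.inl z → i0.1.1 = z.1 ∧ (B α).2.1 ≤ i0.1.1 ∧ s z ≠ [])
    (h2 : ∀ σ, i0.2 = Sum.inr σ → i0.1.1 < (B α).2.1 ∧ σ ≠ [])
    (h3 : ∀ j, (α, j) ∈ p.1.T → Rel s (B α).2.1 i0 j ∨ Rel s (B α).2.1 j i0)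
    (h4 : ∃ n c, (B α).1 i0.1 n = some c ∧ res p.1 α ≤ c) :
    ∃ q ≤ p, q.1.st = s ∧ q.1.T = insert (α, i0) p.1.T := by
  have hle : (⟨s, insert (α, i0) p.1.T, p.1.X, p.1.D, p.1.lt, p.1.U⟩ : Raw Ω I) ≤ p.1 :=
    ⟨hs, Finset.subset_insert _ _, le_rfl, fun _ _ _ _ => ⟨rfl, Iff.rfl⟩, le_rfl⟩
  refine ⟨⟨⟨s, insert (α, i0) p.1.T, p.1.X, p.1.D, p.1.lt, p.1.U⟩, ?_⟩, hle, rfl, rfl⟩
  constructor
  · refine (hf.union p.2.fin).subset fun x hx => ?_
    by_cases h : s x = p.1.st x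
    · exact .inr (by simpa [← h] using hx)
    · exact .inl h
  · intro β x z hx
    rcases Finset.mem_insert.1 hx with hx | hx
    · simp only [Prod.mk.injEq] at hx
      obtain ⟨rfl, rfl⟩ := hx
      exact h1 z rfl
    · obtain ⟨h1, h2, h3⟩ := p.2.loc1 β x z hx
      exact ⟨h1, h2, fun h0 => h3 (List.eq_nil_of_prefix_nil (h0 ▸ hs z))⟩
  · intro β x z hx
    rcases Finset.mem_insert.1 hx with hx | hx
    · simp only [Prod.mk.injEq] at hx
      obtain ⟨rfl, rfl⟩ := hx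
      exact h2 z rfl
    · exact p.2.loc2 β x z hx
  · intro β i j hi hj
    rcases Finset.mem_insert.1 hi with hi1 | hi1 <;> rcases Finset.mem_insert.1 hj with hj1 | hj1
    · simp only [Prod.mk.injEq] at hi1 hj1
      exact .inl (hi1.2.trans hj1.2.symm)
    · simp only [Prod.mk.injEq] at hi1
      obtain ⟨rfl, rfl⟩ := hi1
      exact .inr (h3 j hj1)
    · simp only [Prod.mk.injEq] at hj1
      obtain ⟨rfl, rfl⟩ := hj1
      exact .inr (h3 i hi1).symm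
    · rcases p.2.rel β i j hi1 hj1 with h | h | h
      · exact .inl h
      · exact .inr (.inl (h.mono hs))
      · exact .inr (.inr (h.mono hs))
  · intro β x w hx
    rcases Finset.mem_insert.1 hx with hx | hx
    · simp only [Prod.mk.injEq] at hx
      obtain ⟨rfl, rfl⟩ := hx
      obtain ⟨n, c, h5, h6⟩ := h4
      exact ⟨n, c, h5, (res_mono hle _).trans h6⟩
    · obtain ⟨n, c, h5, h6⟩ := p.2.val β x w hx
      exact ⟨n, c, h5, (res_mono hle _).trans h6⟩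
  · exact p.2.line
  · exact p.2.uX
  · exact p.2.uLe
  · exact p.2.uFun
  · exact p.2.uRR
  · intro α x w hx
    obtain ⟨n, c, h1, h2⟩ := p.2.uval α x w hx
    exact ⟨n, c, h1, (res_mono hle α).trans h2⟩

/-- the line can be extended -/
theorem exists_extLine (p : Cond B) (X : Finset (Pt Ω)) (D : Pt Ω → Pt Ω → Ω)
    (lt : Pt Ω → Pt Ω → Prop) (hX : p.1.X ⊆ X) (hL : Line (X : Set (Pt Ω)) D lt)
    (h : ∀ u ∈ p.1.X, ∀ v ∈ p.1.X, D u v = p.1.D u v ∧ (lt u v ↔ p.1.lt u v)) :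
    ∃ q ≤ p, q.1.X = X ∧ q.1.D = D ∧ q.1.lt = lt ∧ q.1.U = p.1.U ∧ q.1.T = p.1.T := by
  have hle : (⟨p.1.st, p.1.T, X, D, lt, p.1.U⟩ : Raw Ω I) ≤ p.1 :=
    ⟨fun _ => List.prefix_rfl, le_rfl, hX, h, le_rfl⟩
  refine ⟨⟨⟨p.1.st, p.1.T, X, D, lt, p.1.U⟩, ?_⟩, hle, rfl, rfl, rfl, rfl, rfl⟩
  constructor
  · exact p.2.fin
  · exact p.2.loc1
  · exact p.2.loc2
  · exact p.2.rel
  · intro α x w hx
    obtain ⟨n, c, h1, h2⟩ := p.2.val α x w hx
    exact ⟨n, c, h1, (res_mono hle α).trans h2⟩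
  · exact hL
  · intro α x z hx
    exact ⟨hX (p.2.uX α x z hx).1, hX (p.2.uX α x z hx).2⟩
  · exact p.2.uLe
  · exact p.2.uFun
  · intro α x z x' z' hx hx' hlt
    obtain ⟨a1, a2⟩ := p.2.uX α x z hx
    obtain ⟨a3, a4⟩ := p.2.uX α x' z' hx'
    exact (p.2.uRR α x z x' z' hx hx' ((h z a2 z' a4).2.1 hlt)).congr (h z a2 z' a4).1
      (h x a1 x' a3).1 (h x a1 x' a3).2
  · intro α x w hx
    obtain ⟨n, c, h1, h2⟩ := p.2.uval α x w hx
    exact ⟨n, c, h1, (res_mono hle α).trans h2⟩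

/-- adding a point to the right of a given one -/
theorem exists_insert (p : Cond B) {u z : Pt Ω} (hu : u ∈ p.1.X) (hz : z ∉ p.1.X) {a : Ω}
    (ha : a ≤ u.1) (ha' : a ≤ z.1) : ∃ q ≤ p, q.1.X = insert z p.1.X ∧ q.1.U = p.1.U ∧
      (∀ y ∈ p.1.X, q.1.D z y = min a (p.1.D u y)) ∧
      (∀ y ∈ p.1.X, (q.1.lt y z ↔ (y = u ∨ p.1.lt y u ∨ (p.1.lt u y ∧ a < p.1.D u y)))) ∧
      (∀ y ∈ p.1.X, (q.1.lt z y ↔ (p.1.lt u y ∧ p.1.D u y ≤ a))) := by
  obtain ⟨D', lt', h1, h2, h3, h4, h5⟩ := p.2.line.insert (Finset.finite_toSet _) hu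
    (by simpa using hz) ha ha'
  obtain ⟨q, hq, hX, hD, hlt, hU, -⟩ := exists_extLine p (insert z p.1.X) D' lt'
    (Finset.subset_insert _ _) (by simpa using h1) h2
  refine ⟨q, hq, hX, hU, ?_, ?_, ?_⟩
  · rw [hD]; exact h3
  · rw [hlt]; exact h4
  · rw [hlt]; exact h5

/-- adding a point to the left of a given one -/
theorem exists_insert' (p : Cond B) {u z : Pt Ω} (hu : u ∈ p.1.X) (hz : z ∉ p.1.X) {a : Ω}
    (ha : a ≤ u.1) (ha' : a ≤ z.1) : ∃ q ≤ p, q.1.X = insert z p.1.X ∧ q.1.U = p.1.U ∧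
      (∀ y ∈ p.1.X, q.1.D z y = min a (p.1.D u y)) ∧
      (∀ y ∈ p.1.X, (q.1.lt z y ↔ (y = u ∨ p.1.lt u y ∨ (p.1.lt y u ∧ a < p.1.D u y)))) ∧
      (∀ y ∈ p.1.X, (q.1.lt y z ↔ (p.1.lt y u ∧ p.1.D u y ≤ a))) := by
  obtain ⟨D', lt', h1, h2, h3, h4, h5⟩ := p.2.line.flip.insert (Finset.finite_toSet _) hu
    (by simpa using hz) ha ha'
  obtain ⟨q, hq, hX, hD, hlt, hU, -⟩ := exists_extLine p (insert z p.1.X) D' (fun u v => lt' v u)
    (Finset.subset_insert _ _) (by simpa using h1.flip)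
    (fun u hu v hv => ⟨(h2 u hu v hv).1, (h2 v hv u hu).2⟩)
  refine ⟨q, hq, hX, hU, ?_, ?_, ?_⟩
  · rw [hD]; exact h3
  · rw [hlt]; exact h4
  · rw [hlt]; exact h5

/-- adding a point anywhere -/
theorem exists_mem (p : Cond B) (z : Pt Ω) : ∃ q ≤ p, z ∈ q.1.X ∧ q.1.U = p.1.U := by
  by_cases hz : z ∈ p.1.X
  · exact ⟨p, le_rfl, hz, rfl⟩
  rcases p.1.X.eq_empty_or_nonempty with h | ⟨u, hu⟩
  · obtain ⟨q, hq, hX, -, -, hU, -⟩ := exists_extLine p {z} (fun _ _ => z.1) (fun _ _ => False)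
      (by rw [h]; exact Finset.empty_subset _) (by simpa using line_singleton z)
      (by rw [h]; simp)
    exact ⟨q, hq, by rw [hX]; simp, hU⟩
  · obtain ⟨q, hq, hX, hU, -⟩ := exists_insert p hu hz (min_le_left u.1 z.1) (min_le_right _ _)
    exact ⟨q, hq, by rw [hX]; simp, hU⟩

/-- an item for the Aronszajn line can be added -/
theorem exists_addU (p : Cond B) (α : I) (x z : Pt Ω) (hx : x ∈ p.1.X) (hz : z ∈ p.1.X)
    (h1 : Le (B α).2.2 x.1 z.1) (h2 : ∀ x', (α, (x', z)) ∉ p.1.U)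
    (h3 : ∀ x' z', (α, (x', z')) ∈ p.1.U → p.1.lt z' z →
      RR p.1.D p.1.lt (B α).2.2 x' z' x z)
    (h3' : ∀ x' z', (α, (x', z')) ∈ p.1.U → p.1.lt z z' →
      RR p.1.D p.1.lt (B α).2.2 x z x' z')
    (h4 : ∃ n c, (B α).1 x n = some c ∧ res p.1 α ≤ c) :
    ∃ q ≤ p, (α, (x, z)) ∈ q.1.U := by
  have hle : (⟨p.1.st, p.1.T, p.1.X, p.1.D, p.1.lt, insert (α, (x, z)) p.1.U⟩ : Raw Ω I) ≤ p.1 :=
    ⟨fun _ => List.prefix_rfl, le_rfl, le_rfl, fun _ _ _ _ => ⟨rfl, Iff.rfl⟩,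
      Finset.subset_insert _ _⟩
  refine ⟨⟨⟨p.1.st, p.1.T, p.1.X, p.1.D, p.1.lt, insert (α, (x, z)) p.1.U⟩, ?_⟩, hle,
    Finset.mem_insert_self _ _⟩
  constructor
  · exact p.2.fin
  · exact p.2.loc1
  · exact p.2.loc2
  · exact p.2.rel
  · intro α x w hx
    obtain ⟨n, c, h1, h2⟩ := p.2.val α x w hx
    exact ⟨n, c, h1, (res_mono hle α).trans h2⟩
  · exact p.2.line
  · intro β y w hy
    rcases Finset.mem_insert.1 hy with hy | hy
    · simp only [Prod.mk.injEq] at hy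
      obtain ⟨rfl, rfl, rfl⟩ := hy
      exact ⟨hx, hz⟩
    · exact p.2.uX β y w hy
  · intro β y w hy
    rcases Finset.mem_insert.1 hy with hy | hy
    · simp only [Prod.mk.injEq] at hy
      obtain ⟨rfl, rfl, rfl⟩ := hy
      exact h1
    · exact p.2.uLe β y w hy
  · intro β y y' w hy hy'
    rcases Finset.mem_insert.1 hy with hy1 | hy1 <;> rcases Finset.mem_insert.1 hy' with hy2 | hy2
    · simp only [Prod.mk.injEq] at hy1 hy2
      exact hy1.2.1.trans hy2.2.1.symm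
    · simp only [Prod.mk.injEq] at hy1
      obtain ⟨rfl, rfl, rfl⟩ := hy1
      exact absurd hy2 (h2 _)
    · simp only [Prod.mk.injEq] at hy2
      obtain ⟨rfl, rfl, rfl⟩ := hy2
      exact absurd hy1 (h2 _)
    · exact p.2.uFun β y y' w hy1 hy2
  · intro β y w y' w' hy hy' hlt
    rcases Finset.mem_insert.1 hy with hy1 | hy1 <;> rcases Finset.mem_insert.1 hy' with hy2 | hy2
    · simp only [Prod.mk.injEq] at hy1 hy2
      exfalso
      obtain ⟨-, -, rfl⟩ := hy1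
      obtain ⟨-, -, rfl⟩ := hy2
      exact p.2.line.irrefl (by simpa using hz) hlt
    · simp only [Prod.mk.injEq] at hy1
      obtain ⟨rfl, rfl, rfl⟩ := hy1
      exact h3' _ _ hy2 hlt
    · simp only [Prod.mk.injEq] at hy2
      obtain ⟨rfl, rfl, rfl⟩ := hy2
      exact h3 _ _ hy1 hlt
    · exact p.2.uRR β y w y' w' hy1 hy2 hlt
  · intro β y w hy
    rcases Finset.mem_insert.1 hy with hy | hy
    · simp only [Prod.mk.injEq] at hy
      obtain ⟨rfl, rfl, rfl⟩ := hy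
      obtain ⟨n, c, h5, h6⟩ := h4
      exact ⟨n, c, h5, (res_mono hle _).trans h6⟩
    · obtain ⟨n, c, h5, h6⟩ := p.2.uval β y w hy
      exact ⟨n, c, h5, (res_mono hle _).trans h6⟩

end Pool.Agent.W914.SA
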