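import Mathlib
import Pool.Agent.W914.SA.Base
import Pool.Agent.W914.SS.Delta

/-!
# Merging two conditions of the same type
-/

set_option autoImplicit false
set_option linter.unusedSectionVars false

open Classical

namespace Pool.Agent.W914.SA

open Pool.Agent.W914.SS (Lt delta_system uncountable_fiber)

variable {Ω I : Type} [LinearOrder Ω] [LinearOrder I] {B : Book Ω I}

/-- the label of a point -/
def lp (l : Ω → ℕ) (x : Pt Ω) : ℕ × ℕ := (l x.1, x.2)

/-- the label of an item -/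
def li (l : Ω → ℕ) (i : Item Ω) : (ℕ × ℕ) × ((ℕ × ℕ) ⊕ List ℚ) := (lp l i.1, Sum.map (lp l) id i.2)

/-- the label of an item for the Aronszajn line -/
def lu (l : Ω → ℕ) (i : Pt Ω × Pt Ω) : (ℕ × ℕ) × (ℕ × ℕ) := (lp l i.1, lp l i.2)

theorem merge_two (p p' : Cond B) (S S' : Set (Pt Ω)) (R : Set Ω) (l l' : Ω → ℕ)
    (hfin : S.Finite) (hfin' : S'.Finite) (b : Ω) (ε : Prop)
    (e e' : Pt Ω → Ω → ℚ) (he : Codes (p.1.X : Set (Pt Ω)) p.1.D p.1.lt e)
    (he' : Codes (p'.1.X : Set (Pt Ω)) p'.1.D p'.1.lt e')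
    (hinj : ∀ x ∈ S, ∀ y ∈ S, l x.1 = l y.1 → x.1 = y.1)
    (hinj' : ∀ x ∈ S', ∀ y ∈ S', l' x.1 = l' y.1 → x.1 = y.1)
    (hR : ∀ c ∈ R, l c = l' c) (hRS : ∀ c ∈ R, ∃ x ∈ S, x.1 = c) (hRS' : ∀ c ∈ R, ∃ x ∈ S', x.1 = c)
    (hdis : ∀ x ∈ S, ∀ x' ∈ S', x.1 = x'.1 → x.1 ∈ R)
    (hRb : ∀ c ∈ R, c < b)
    (hb : ∀ x ∈ S, x.1 ∈ R ∨ b < x.1) (hb' : ∀ x ∈ S', x.1 ∈ R ∨ b < x.1)
    (hsupp : ∀ x, p.1.st x ≠ [] → x ∈ S) (hsupp' : ∀ x, p'.1.st x ≠ [] → x ∈ S')
    (hX : ∀ x ∈ p.1.X, x ∈ S) (hX' : ∀ x ∈ p'.1.X, x ∈ S')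
    (hit : ∀ t ∈ p.1.T, t.2.1 ∈ S ∧ ∀ z, t.2.2 = Sum.inl z → z ∈ S)
    (hit' : ∀ t ∈ p'.1.T, t.2.1 ∈ S' ∧ ∀ z, t.2.2 = Sum.inl z → z ∈ S')
    (hst : ∀ x ∈ S, ∃ x' ∈ S', lp l x = lp l' x' ∧ p.1.st x = p'.1.st x' ∧
      (x ∈ p.1.X ↔ x' ∈ p'.1.X))
    (hst' : ∀ x' ∈ S', ∃ x ∈ S, lp l x = lp l' x' ∧ p.1.st x = p'.1.st x' ∧
      (x ∈ p.1.X ↔ x' ∈ p'.1.X))
    (hcode : ∀ x ∈ p.1.X, ∀ x' ∈ p'.1.X, lp l x = lp l' x' → ∀ η < b, e x η = e' x' η)
    (hDb : ∀ u ∈ p.1.X, ∀ v ∈ p.1.X, p.1.D u v ≠ b)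
    (hDb' : ∀ u ∈ p'.1.X, ∀ v ∈ p'.1.X, p'.1.D u v ≠ b)
    (hT : ∀ α i j, (α, i) ∈ p.1.T → (α, j) ∈ p'.1.T →
      (B α).2.1 < b ∧ ∃ j', (α, j') ∈ p.1.T ∧ li l j' = li l' j)
    (hU : ∀ α i j, (α, i) ∈ p.1.U → (α, j) ∈ p'.1.U →
      Cl (B α).2.2 b ∧ (∃ j', (α, j') ∈ p.1.U ∧ lu l j' = lu l' j) ∧
        ∃ i', (α, i') ∈ p'.1.U ∧ lu l i = lu l' i') :
    ∃ q : Cond B, q ≤ p ∧ q ≤ p' ∧ ∀ u ∈ p.1.X, ∀ v ∈ p'.1.X, lp l u = lp l' v → u.1 ∉ R →
      q.1.D u v = b ∧ (q.1.lt u v ↔ ε) ∧ (q.1.lt v u ↔ ¬ ε) := by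
  -- matching points
  have hM1 : ∀ x ∈ S, ∀ x' ∈ S', lp l x = lp l' x' → x.1 ∈ R → x = x' := by
    intro x hx x' hx' h hxR
    simp only [lp, Prod.mk.injEq] at h
    obtain ⟨y, hy, hyx⟩ := hRS' _ hxR
    have h1 : l' y.1 = l' x'.1 := by rw [hyx, ← hR _ hxR, h.1]
    have h2 := hinj' y hy x' hx' h1
    exact Prod.ext (hyx.symm.trans h2) h.2
  have hM1' : ∀ x ∈ S, ∀ x' ∈ S', lp l x = lp l' x' → x'.1 ∈ R → x = x' := by
    intro x hx x' hx' h hxR
    simp only [lp, Prod.mk.injEq] at h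
    obtain ⟨y, hy, hyx⟩ := hRS _ hxR
    have h1 : l y.1 = l x.1 := by rw [hyx, hR _ hxR, h.1]
    have h2 := hinj y hy x hx h1
    exact Prod.ext (h2.symm.trans hyx) h.2
  have hM2 : ∀ x ∈ S, ∀ x' ∈ S', lp l x = lp l' x' → p.1.st x = p'.1.st x' ∧
      (x ∈ p.1.X ↔ x' ∈ p'.1.X) := by
    intro x hx x' hx' h
    obtain ⟨x'', hx'', h1, h2⟩ := hst x hx
    have h3 : lp l' x'' = lp l' x' := h1.symm.trans h
    simp only [lp, Prod.mk.injEq] at h3
    have h4 : x'' = x' := Prod.ext (hinj' _ hx'' _ hx' h3.1) h3.2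
    rw [← h4]; exact h2
  have hMu : ∀ x ∈ S, ∀ y ∈ S, ∀ x', lp l x = lp l' x' → lp l y = lp l' x' → x = y := by
    intro x hx y hy x' h1 h2
    have h3 : lp l x = lp l y := h1.trans h2.symm
    simp only [lp, Prod.mk.injEq] at h3
    exact Prod.ext (hinj _ hx _ hy h3.1) h3.2
  have hRst : ∀ x : Pt Ω, x.1 ∈ R → p.1.st x = p'.1.st x := by
    intro x hxR
    by_cases hx : x ∈ S
    · obtain ⟨x', hx', h1, h2, -⟩ := hst x hx
      rw [h2, hM1 x hx x' hx' h1 hxR]
    · by_cases hx' : x ∈ S'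
      · obtain ⟨x0, hx0, h1, h2, -⟩ := hst' x hx'
        rw [← h2, ← hM1' x0 hx0 x hx' h1 hxR]
      · have h1 : p.1.st x = [] := by
          by_contra h; exact hx (hsupp _ h)
        have h2 : p'.1.st x = [] := by
          by_contra h; exact hx' (hsupp' _ h)
        rw [h1, h2]
  -- the sequences of the new condition
  let s : Pt Ω → List ℚ := fun x =>
    if x.1 ∈ R then p.1.st x
    else if x ∈ S then p.1.st x ++ [0]
    else if x ∈ S' then p'.1.st x ++ [1]
    else []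
  have hs1 : ∀ x, p.1.st x <+: s x := by
    intro x
    simp only [s]
    by_cases h1 : x.1 ∈ R
    · rw [if_pos h1]
    · rw [if_neg h1]
      by_cases h2 : x ∈ S
      · rw [if_pos h2]; exact List.prefix_append _ _
      · have : p.1.st x = [] := by
          by_contra h; exact h2 (hsupp _ h)
        rw [this]; exact List.nil_prefix
  have hs2 : ∀ x, p'.1.st x <+: s x := by
    intro x
    simp only [s]
    by_cases h1 : x.1 ∈ R
    · rw [if_pos h1, hRst x h1]
    · rw [if_neg h1]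
      by_cases h3 : x ∈ S'
      · have h2 : x ∉ S := fun h => h1 (hdis x h x h3 rfl)
        rw [if_neg h2, if_pos h3]; exact List.prefix_append _ _
      · have : p'.1.st x = [] := by
          by_contra h; exact h3 (hsupp' _ h)
        rw [this]; exact List.nil_prefix
  have hs3 : ∀ x ∈ S, ∀ x' ∈ S', lp l x = lp l' x' → x.1 ∉ R → Lt (s x) (s x') := by
    intro x hx x' hx' h hxR
    have hxR' : x'.1 ∉ R := fun h' => hxR (by rw [hM1' x hx x' hx' h h']; exact h')
    have hxS' : x' ∉ S := fun h' => hxR' (hdis x' h' x' hx' rfl)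
    have e1 : s x = p.1.st x ++ [0] := by
      simp only [s]; rw [if_neg hxR, if_pos hx]
    have e2 : s x' = p.1.st x ++ [1] := by
      simp only [s]; rw [if_neg hxR', if_neg hxS', if_pos hx', (hM2 x hx x' hx' h).1]
    rw [e1, e2]
    exact Lt.append_head (by norm_num) _
  -- the relation for items of different conditions
  have hcross : ∀ α i j, (α, i) ∈ p.1.T → (α, j) ∈ p'.1.T →
      i = j ∨ Rel s (B α).2.1 i j ∨ Rel s (B α).2.1 j i := by
    intro α i j hi hj
    obtain ⟨hαb, j', hj', hjj⟩ := hT α i j hi hj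
    have hjS' := (hit' _ hj).1
    have hj'S := (hit _ hj').1
    have hiS := (hit _ hi).1
    simp only at hjS' hj'S hiS
    have hval : lp l j'.1 = lp l' j.1 := congrArg Prod.fst hjj
    have hloc : loc p.1.st j'.2 = loc p'.1.st j.2 := by
      have h2 : Sum.map (lp l) id j'.2 = Sum.map (lp l') id j.2 := congrArg Prod.snd hjj
      obtain ⟨x, w⟩ := j
      obtain ⟨x', w'⟩ := j'
      cases w with
      | inl z =>
        cases w' with
        | inl z' =>
          simp only [Sum.map_inl, Sum.inl.injEq] at h2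
          exact (hM2 z' ((hit _ hj').2 z' rfl) z ((hit' _ hj).2 z rfl) h2).1
        | inr σ => simp at h2
      | inr σ =>
        cases w' with
        | inl z' => simp at h2
        | inr σ' =>
          simp only [Sum.map_inr, id_eq, Sum.inr.injEq] at h2
          simp [loc, h2]
    have hlocj : loc p.1.st j'.2 <+: loc s j.2 := hloc ▸ loc_mono hs2 _
    have hvalj : p.1.st j'.1 <+: s j.1 := by
      rw [(hM2 j'.1 hj'S j.1 hjS' hval).1]
      exact hs2 _
    have hroot : ∀ x ∈ S, x.1 < (B α).2.1 → x.1 ∈ R := by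
      intro x hx hlt
      rcases hb x hx with h | h
      · exact h
      · exact absurd (hlt.trans hαb) h.asymm
    rcases p.2.rel α i j' hi hj' with h | h | h
    · subst h
      -- matching items
      obtain ⟨x, w⟩ := i
      obtain ⟨x', w'⟩ := j
      simp only at hval hjS' hiS
      by_cases hxR : x.1 ∈ R
      · have hxx : x = x' := hM1 x hiS x' hjS' hval hxR
        subst hxx
        left
        have h2 : Sum.map (lp l) id w = Sum.map (lp l') id w' := congrArg Prod.snd hjj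
        cases w with
        | inl z =>
          cases w' with
          | inl z' =>
            simp only [Sum.map_inl, Sum.inl.injEq] at h2
            have hz := (p.2.loc1 _ _ _ hi).1
            rw [hM1 z ((hit _ hi).2 z rfl) z' ((hit' _ hj).2 z' rfl) h2 (hz ▸ hxR)]
          | inr σ => simp at h2
        | inr σ =>
          cases w' with
          | inl z' => simp at h2
          | inr σ' =>
            simp only [Sum.map_inr, id_eq, Sum.inr.injEq] at h2
            rw [h2]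
      · right
        have h2 : Sum.map (lp l) id w = Sum.map (lp l') id w' := congrArg Prod.snd hjj
        cases w with
        | inl z =>
          cases w' with
          | inl z' =>
            simp only [Sum.map_inl, Sum.inl.injEq] at h2
            have hz := (p.2.loc1 _ _ _ hi).1
            have h3 := hs3 x hiS x' hjS' hval hxR
            have h4 := hs3 z ((hit _ hi).2 z rfl) z' ((hit' _ hj).2 z' rfl) h2 (hz ▸ hxR)
            exact .inl ⟨h4, .inl h3⟩
          | inr σ => simp at h2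
        | inr σ => exact absurd (hroot x hiS (p.2.loc2 _ _ _ hi).1) hxR
    · right; left
      refine ⟨h.1.mono (loc_mono hs1 _) hlocj, ?_⟩
      rcases h.2 with h' | h'
      · exact .inl (h'.mono (hs1 _) hvalj)
      · have hr := hroot _ hiS h'.2
        refine .inr ⟨?_, h'.2⟩
        rw [h'.1]
        exact hM1 _ hj'S _ hjS' hval (h'.1 ▸ hr)
    · right; right
      refine ⟨h.1.mono hlocj (loc_mono hs1 _), ?_⟩
      rcases h.2 with h' | h'
      · exact .inl (h'.mono hvalj (hs1 _))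
      · have hr := hroot _ hj'S h'.2
        have hjj' := hM1 _ hj'S _ hjS' hval hr
        exact .inr ⟨hjj' ▸ h'.1, hjj' ▸ h'.2⟩
  -- levels
  have hlev : ∀ x ∈ S, x.1 < b → x.1 ∈ R := fun x hx h =>
    (hb x hx).resolve_right fun h' => h.asymm h'
  have hlev' : ∀ x ∈ S', x.1 < b → x.1 ∈ R := fun x hx h =>
    (hb' x hx).resolve_right fun h' => h.asymm h'
  -- the amalgamated line
  obtain ⟨D, lt, hline, hL1, hL2, hL3, hL4⟩ := line_merge he he' b ε
    (fun u v => u ∈ p.1.X ∧ v ∈ p'.1.X ∧ lp l u = lp l' v)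
    (fun u hu => by
      obtain ⟨v, hv, h1, h2, h3⟩ := hst u (hX u hu)
      exact ⟨v, h3.1 hu, hu, h3.1 hu, h1⟩)
    (fun v hv => by
      obtain ⟨u, hu, h1, h2, h3⟩ := hst' v (hX' v hv)
      exact ⟨u, h3.2 hv, h3.2 hv, hv, h1⟩)
    (fun u v h hlt => hM1 u (hX u h.1) v (hX' v h.2.1) h.2.2 (hlev u (hX u h.1) hlt))
    (fun u v h hlt => hM1' u (hX u h.1) v (hX' v h.2.1) h.2.2 (hlev' v (hX' v h.2.1) hlt))
    (fun u hu => (hb u (hX u hu)).imp (hRb _) id)
    (fun u hu => (hb' u (hX' u hu)).imp (hRb _) id)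
    (fun u hu v hv h => hcode u hu v hv h.2.2)
    (fun u hu hu' => hRb _ (hdis u (hX u hu) u (hX' u hu') rfl))
    hDb hDb'
  -- the relation for items of different conditions
  have hcrossU : ∀ α x z x' z', (α, (x, z)) ∈ p.1.U → (α, (x', z')) ∈ p'.1.U →
      (lt z z' → RR D lt (B α).2.2 x z x' z') ∧ (lt z' z → RR D lt (B α).2.2 x' z' x z) ∧
        (z = z' → x = x') := by
    intro α x z x' z' hi hj
    obtain ⟨hcl, ⟨⟨x'', z''⟩, hj', hjj⟩, ⟨⟨y, t⟩, hi', hii⟩⟩ := hU α _ _ hi hj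
    simp only [lu, Prod.mk.injEq] at hjj hii
    obtain ⟨hxx, hzz⟩ := hjj
    obtain ⟨hyx, htz⟩ := hii
    obtain ⟨hxX, hzX⟩ := p.2.uX _ _ _ hi
    obtain ⟨hx''X, hz''X⟩ := p.2.uX _ _ _ hj'
    obtain ⟨hx'X, hz'X⟩ := p'.2.uX _ _ _ hj
    obtain ⟨hyX, htX⟩ := p'.2.uX _ _ _ hi'
    have hxle := p.2.uLe _ _ _ hi
    have hx''le := p.2.uLe _ _ _ hj'
    have hx'le := p'.2.uLe _ _ _ hj
    -- values of root points are root
    have hrz : z.1 < b → x.1 < b := fun h => hxle.lt hcl h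
    have hrz' : z'.1 < b → x'.1 < b := fun h => hx'le.lt hcl h
    by_cases hzb : z.1 < b
    · -- `i` is an item of the second condition
      have hxb := hrz hzb
      have e1 : z = t := hM1 z (hX z hzX) t (hX' t htX) htz (hlev z (hX z hzX) hzb)
      have e2 : x = y := hM1 x (hX x hxX) y (hX' y hyX) hyx (hlev x (hX x hxX) hxb)
      subst e1 e2
      obtain ⟨l1, l2⟩ := hL2 z htX z' hz'X
      obtain ⟨l3, l4⟩ := hL2 z' hz'X z htX
      obtain ⟨l5, l6⟩ := hL2 x hyX x' hx'X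
      obtain ⟨l7, l8⟩ := hL2 x' hx'X x hyX
      refine ⟨fun h => ?_, fun h => ?_, fun h => ?_⟩
      · exact (p'.2.uRR _ _ _ _ _ hi' hj (l2.1 h)).congr l1 l5 l6
      · exact (p'.2.uRR _ _ _ _ _ hj hi' (l4.1 h)).congr l3 l7 l8
      · subst h; exact p'.2.uFun _ _ _ _ hi' hj
    by_cases hzb' : z'.1 < b
    · have hxb := hrz' hzb'
      have e1 : z'' = z' := hM1' z'' (hX z'' hz''X) z' (hX' z' hz'X) hzz
        (hlev' z' (hX' z' hz'X) hzb')
      have e2 : x'' = x' := hM1' x'' (hX x'' hx''X) x' (hX' x' hx'X) hxx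
        (hlev' x' (hX' x' hx'X) hxb)
      subst e1 e2
      obtain ⟨l1, l2⟩ := hL1 z hzX z'' hz''X
      obtain ⟨l3, l4⟩ := hL1 z'' hz''X z hzX
      obtain ⟨l5, l6⟩ := hL1 x hxX x'' hx''X
      obtain ⟨l7, l8⟩ := hL1 x'' hx''X x hxX
      refine ⟨fun h => ?_, fun h => ?_, fun h => ?_⟩
      · exact (p.2.uRR _ _ _ _ _ hi hj' (l2.1 h)).congr l1 l5 l6
      · exact (p.2.uRR _ _ _ _ _ hj' hi (l4.1 h)).congr l3 l7 l8
      · subst h; exact p.2.uFun _ _ _ _ hi hj'
    -- both points are high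
    have hzne : z ≠ z' := by
      rintro rfl
      exact hzb (hRb _ (hdis z (hX z hzX) z (hX' z hz'X) rfl))
    have hDsymm : ∀ u ∈ p.1.X, ∀ v ∈ p'.1.X, D v u = D u v := fun u hu v hv =>
      hline.symm (Or.inr hv) (Or.inl hu)
    by_cases hcase : p.1.D z z'' < b
    · -- separated below `b`
      have hne : z ≠ z'' := by
        rintro rfl
        rw [p.2.line.diag hzX] at hcase
        exact hzb hcase
      obtain ⟨m1, m2, m3⟩ := hL3 z hzX z' hz'X z'' hz''X ⟨hz''X, hz'X, hzz⟩ hcase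
      have hsym : p.1.D z'' z = p.1.D z z'' := p.2.line.symm hz''X hzX
      -- the values
      have hvals : ∀ (hlt : p.1.lt z z'' ∨ p.1.lt z'' z),
          (x = x'' ∧ x.1 < b ∧ Le (B α).2.2 x.1 (p.1.D z z'')) ∨
          (p.1.D x x'' < b ∧ Le (B α).2.2 (p.1.D x x'') (p.1.D z z'') ∧
            Le (B α).2.2 (p.1.D z z'') (p.1.D x x'') ∧
            ((p.1.lt z z'' → p.1.lt x x'') ∧ (p.1.lt z'' z → p.1.lt x'' x))) := by
        rintro (hlt | hlt)
        · rcases p.2.uRR _ _ _ _ _ hi hj' hlt with h | h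
          · exact .inl ⟨h.1, h.2.lt hcl hcase, h.2⟩
          · refine .inr ⟨h.2.1.lt hcl hcase, h.2.1, h.2.2, fun _ => h.1, fun h' => ?_⟩
            exact absurd hlt (p.2.line.asymm hz''X hzX h')
        · rcases p.2.uRR _ _ _ _ _ hj' hi hlt with h | h
          · rw [hsym] at h
            exact .inl ⟨h.1.symm, h.1 ▸ h.2.lt hcl hcase, h.1 ▸ h.2⟩
          · rw [hsym, p.2.line.symm hx''X hxX] at h
            refine .inr ⟨h.2.1.lt hcl hcase, h.2.1, h.2.2, fun h' => ?_, fun _ => h.1⟩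
            exact absurd hlt (p.2.line.asymm hzX hz''X h')
      rcases hvals (p.2.line.total hzX hz''X hne) with ⟨v1, v2, v3⟩ | ⟨v1, v2, v3, v4, v5⟩
      · have e1 : x'' = x' := hM1 x'' (hX x'' hx''X) x' (hX' x' hx'X) hxx
          (hlev x'' (hX x'' hx''X) (v1 ▸ v2))
        have e2 : x = x' := v1.trans e1
        refine ⟨fun _ => .inl ⟨e2, by rw [m1]; exact v3⟩, fun _ => .inl ⟨e2.symm, ?_⟩,
          fun h => absurd h hzne⟩
        rw [hDsymm z hzX z' hz'X, m1, ← e2]; exact v3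
      · obtain ⟨n1, n2, n3⟩ := hL3 x hxX x' hx'X x'' hx''X ⟨hx''X, hx'X, hxx⟩ v1
        refine ⟨fun h => .inr ⟨n2.2 (v4 (m2.1 h)), ?_, ?_⟩,
          fun h => .inr ⟨n3.2 (v5 (m3.1 h)), ?_, ?_⟩, fun h => absurd h hzne⟩
        · rw [n1, m1]; exact v2
        · rw [n1, m1]; exact v3
        · rw [hDsymm z hzX z' hz'X, hDsymm x hxX x' hx'X, n1, m1]; exact v2
        · rw [hDsymm z hzX z' hz'X, hDsymm x hxX x' hx'X, n1, m1]; exact v3
    · -- separated at `b`
      rw [not_lt] at hcase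
      obtain ⟨m1, m2, m3⟩ := hL4 z hzX z' hz'X z'' hz''X ⟨hz''X, hz'X, hzz⟩ hcase
      have hsym : p.1.D z'' z = p.1.D z z'' := p.2.line.symm hz''X hzX
      have hvals : x = x'' ∨ b ≤ p.1.D x x'' := by
        by_cases hne : z = z''
        · subst hne
          exact .inl (p.2.uFun _ _ _ _ hi hj')
        · rcases p.2.line.total hzX hz''X hne with hlt | hlt
          · rcases p.2.uRR _ _ _ _ _ hi hj' hlt with h | h
            · exact .inl h.1
            · refine .inr (not_lt.1 fun h' => ?_)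
              exact absurd (h.2.2.lt hcl h') (not_lt.2 hcase)
          · rcases p.2.uRR _ _ _ _ _ hj' hi hlt with h | h
            · exact .inl h.1.symm
            · refine .inr (not_lt.1 fun h' => ?_)
              rw [hsym, p.2.line.symm hx''X hxX] at h
              exact absurd (h.2.2.lt hcl h') (not_lt.2 hcase)
      by_cases hxR : x = x'' ∧ x.1 < b
      · have e1 : x'' = x' := hM1 x'' (hX x'' hx''X) x' (hX' x' hx'X) hxx
          (hlev x'' (hX x'' hx''X) (hxR.1 ▸ hxR.2))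
        have e2 : x = x' := hxR.1.trans e1
        refine ⟨fun _ => .inl ⟨e2, ?_⟩, fun _ => .inl ⟨e2.symm, ?_⟩, fun h => absurd h hzne⟩
        · rw [m1]; exact Le.of_le hxR.2.le
        · rw [hDsymm z hzX z' hz'X, m1, ← e2]; exact Le.of_le hxR.2.le
      · have hge : b ≤ p.1.D x x'' := by
          rcases hvals with h | h
          · rw [← h, p.2.line.diag hxX]
            exact not_lt.1 fun h' => hxR ⟨h, h'⟩
          · exact h
        obtain ⟨n1, n2, n3⟩ := hL4 x hxX x' hx'X x'' hx''X ⟨hx''X, hx'X, hxx⟩ hge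
        refine ⟨fun h => .inr ⟨n2.2 (m2.1 h), ?_, ?_⟩,
          fun h => .inr ⟨n3.2 (m3.1 h), ?_, ?_⟩, fun h => absurd h hzne⟩
        · rw [n1, m1]; exact Le.refl _ _
        · rw [n1, m1]; exact Le.refl _ _
        · rw [hDsymm z hzX z' hz'X, hDsymm x hxX x' hx'X, n1, m1]; exact Le.refl _ _
        · rw [hDsymm z hzX z' hz'X, hDsymm x hxX x' hx'X, n1, m1]; exact Le.refl _ _
  have hle1 : (⟨s, p.1.T ∪ p'.1.T, p.1.X ∪ p'.1.X, D, lt, p.1.U ∪ p'.1.U⟩ : Raw Ω I) ≤ p.1 :=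
    ⟨hs1, Finset.subset_union_left, Finset.subset_union_left, hL1, Finset.subset_union_left⟩
  have hle2 : (⟨s, p.1.T ∪ p'.1.T, p.1.X ∪ p'.1.X, D, lt, p.1.U ∪ p'.1.U⟩ : Raw Ω I) ≤ p'.1 :=
    ⟨hs2, Finset.subset_union_right, Finset.subset_union_right, hL2, Finset.subset_union_right⟩
  have hgood : Good B ⟨s, p.1.T ∪ p'.1.T, p.1.X ∪ p'.1.X, D, lt, p.1.U ∪ p'.1.U⟩ := {
    fin := by
      refine ((hfin.union hfin').union p.2.fin).subset fun x hx => ?_
      by_contra hcon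
      simp only [Set.mem_union, not_or] at hcon
      obtain ⟨⟨h1, h2⟩, h3⟩ := hcon
      apply hx
      simp only [s]
      by_cases hxR : x.1 ∈ R
      · rw [if_pos hxR]; simpa using h3
      · rw [if_neg hxR, if_neg h1, if_neg h2]
    loc1 := by
      intro α x z hx
      rcases Finset.mem_union.1 hx with hx | hx
      · obtain ⟨h1, h2, h3⟩ := p.2.loc1 α x z hx
        exact ⟨h1, h2, fun h0 => h3 (List.eq_nil_of_prefix_nil (h0 ▸ hs1 z))⟩
      · obtain ⟨h1, h2, h3⟩ := p'.2.loc1 α x z hx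
        exact ⟨h1, h2, fun h0 => h3 (List.eq_nil_of_prefix_nil (h0 ▸ hs2 z))⟩
    loc2 := by
      intro α x z hx
      rcases Finset.mem_union.1 hx with hx | hx
      · exact p.2.loc2 α x z hx
      · exact p'.2.loc2 α x z hx
    rel := by
      intro α i j hi hj
      rcases Finset.mem_union.1 hi with hi | hi <;> rcases Finset.mem_union.1 hj with hj | hj
      · rcases p.2.rel α i j hi hj with h | h | h
        · exact .inl h
        · exact .inr (.inl (h.mono hs1))
        · exact .inr (.inr (h.mono hs1))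
      · exact hcross α i j hi hj
      · rcases hcross α j i hj hi with h | h | h
        · exact .inl h.symm
        · exact .inr (.inr h)
        · exact .inr (.inl h)
      · rcases p'.2.rel α i j hi hj with h | h | h
        · exact .inl h
        · exact .inr (.inl (h.mono hs2))
        · exact .inr (.inr (h.mono hs2))
    val := by
      intro α x w hx
      rcases Finset.mem_union.1 hx with hx | hx
      · obtain ⟨n, c, h1, h2⟩ := p.2.val α x w hx
        exact ⟨n, c, h1, le_trans (res_mono hle1 α) h2⟩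
      · obtain ⟨n, c, h1, h2⟩ := p'.2.val α x w hx
        exact ⟨n, c, h1, le_trans (res_mono hle2 α) h2⟩
    line := by
      have : ((p.1.X ∪ p'.1.X : Finset (Pt Ω)) : Set (Pt Ω)) = (p.1.X : Set (Pt Ω)) ∪ p'.1.X :=
        Finset.coe_union _ _
      simp only
      rw [this]
      exact hline
    uX := by
      intro α x z hx
      rcases Finset.mem_union.1 hx with hx | hx
      · obtain ⟨h1, h2⟩ := p.2.uX α x z hx
        exact ⟨Finset.subset_union_left h1, Finset.subset_union_left h2⟩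
      · obtain ⟨h1, h2⟩ := p'.2.uX α x z hx
        exact ⟨Finset.subset_union_right h1, Finset.subset_union_right h2⟩
    uLe := by
      intro α x z hx
      rcases Finset.mem_union.1 hx with hx | hx
      · exact p.2.uLe α x z hx
      · exact p'.2.uLe α x z hx
    uFun := by
      intro α x x' z hx hx'
      rcases Finset.mem_union.1 hx with hx1 | hx1 <;> rcases Finset.mem_union.1 hx' with hx2 | hx2
      · exact p.2.uFun α x x' z hx1 hx2
      · exact (hcrossU α x z x' z hx1 hx2).2.2 rfl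
      · exact ((hcrossU α x' z x z hx2 hx1).2.2 rfl).symm
      · exact p'.2.uFun α x x' z hx1 hx2
    uRR := by
      intro α x z x' z' hx hx' hlt
      simp only at hlt
      rcases Finset.mem_union.1 hx with hx1 | hx1 <;> rcases Finset.mem_union.1 hx' with hx2 | hx2
      · obtain ⟨a1, a2⟩ := p.2.uX α x z hx1
        obtain ⟨a3, a4⟩ := p.2.uX α x' z' hx2
        exact (p.2.uRR α x z x' z' hx1 hx2 ((hL1 z a2 z' a4).2.1 hlt)).congr (hL1 z a2 z' a4).1
          (hL1 x a1 x' a3).1 (hL1 x a1 x' a3).2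
      · exact (hcrossU α x z x' z' hx1 hx2).1 hlt
      · exact (hcrossU α x' z' x z hx2 hx1).2.1 hlt
      · obtain ⟨a1, a2⟩ := p'.2.uX α x z hx1
        obtain ⟨a3, a4⟩ := p'.2.uX α x' z' hx2
        exact (p'.2.uRR α x z x' z' hx1 hx2 ((hL2 z a2 z' a4).2.1 hlt)).congr (hL2 z a2 z' a4).1
          (hL2 x a1 x' a3).1 (hL2 x a1 x' a3).2
    uval := by
      intro α x w hx
      rcases Finset.mem_union.1 hx with hx | hx
      · obtain ⟨n, c, h1, h2⟩ := p.2.uval α x w hx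
        exact ⟨n, c, h1, le_trans (res_mono hle1 α) h2⟩
      · obtain ⟨n, c, h1, h2⟩ := p'.2.uval α x w hx
        exact ⟨n, c, h1, le_trans (res_mono hle2 α) h2⟩ }
  refine ⟨⟨_, hgood⟩, hle1, hle2, ?_⟩
  intro u hu v hv huv huR
  have hbu : b < u.1 := (hb u (hX u hu)).resolve_left huR
  exact hL4 u hu v hv u hu ⟨hu, hv, huv⟩ (by
    rw [p.2.line.diag hu]
    exact hbu.le)

end Pool.Agent.W914.SA
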