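import Mathlib
import Pool.Agent.W914.SA.Merge

/-!
# Closure points and the main amalgamation lemma
-/

set_option autoImplicit false
set_option linter.unusedSectionVars false

open Classical Cardinal

namespace Pool.Agent.W914.SA

open Pool.Agent.W914.SS (Lt delta_system uncountable_fiber)

/-- the properties of the order `ω₁` which we use -/
structure IsOmega (Ω : Type) [LinearOrder Ω] : Prop where
  card : #Ω ≤ ℵ₁
  bdd : ∀ S : Set Ω, S.Countable → ∃ b, ∀ s ∈ S, s < b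
  init : ∀ b : Ω, (Set.Iio b).Countable

variable {Ω I : Type} [LinearOrder Ω] [LinearOrder I] {B : Book Ω I}

theorem IsOmega.uncountable (h : IsOmega Ω) : ¬ (Set.univ : Set Ω).Countable := fun hc => by
  obtain ⟨b, hb⟩ := h.bdd _ hc
  exact lt_irrefl _ (hb b trivial)

theorem IsOmega.iic (h : IsOmega Ω) (b : Ω) : (Set.Iic b).Countable := by
  obtain ⟨c, hc⟩ := h.bdd {b} (Set.countable_singleton _)
  exact (h.init c).mono fun x hx => lt_of_le_of_lt hx (hc b rfl)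

/-- countably many functions have common closure points above any given point -/
theorem exists_Cl [WellFoundedLT Ω] (h : IsOmega Ω) (F : Set (Ω → Ω)) (hF : F.Countable) (ζ : Ω) :
    ∃ γ, (∀ f ∈ F, Cl f γ) ∧ ζ < γ := by
  have step : ∀ γ : Ω, ∃ γ', γ < γ' ∧ ∀ f ∈ F, ∀ η ≤ γ, f η < γ' := by
    intro γ
    obtain ⟨c, hc⟩ := h.bdd (insert γ (⋃ f ∈ F, f '' Set.Iic γ))
      ((hF.biUnion fun f _ => (h.iic γ).image f).insert γ)
    refine ⟨c, hc _ (Set.mem_insert _ _), fun f hf η hη => hc _ (.inr ?_)⟩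
    simp only [Set.mem_iUnion]
    exact ⟨f, hf, η, hη, rfl⟩
  choose g hg1 hg2 using step
  let s : ℕ → Ω := fun n => g^[n] ζ
  have hs : ∀ n, s (n + 1) = g (s n) := fun n => Function.iterate_succ_apply' g n ζ
  obtain ⟨c, hc⟩ := h.bdd (Set.range s) (Set.countable_range s)
  have hne : ({c | ∀ n, s n < c} : Set Ω).Nonempty := ⟨c, fun n => hc _ ⟨n, rfl⟩⟩
  let γ := WellFounded.min (wellFounded_lt (α := Ω)) {c | ∀ n, s n < c} hne
  have hγ1 : ∀ n, s n < γ := WellFounded.min_mem (wellFounded_lt (α := Ω)) {c | ∀ n, s n < c} hne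
  refine ⟨γ, fun f hf η hη => ?_, hγ1 0⟩
  obtain ⟨n, hn⟩ : ∃ n, η ≤ s n := by
    by_contra hcon
    push Not at hcon
    exact WellFounded.not_lt_min (wellFounded_lt (α := Ω)) {c | ∀ n, s n < c} (x := η) hcon hη
  have h1 := hg2 (s n) f hf η hn
  rw [← hs] at h1
  exact (h1.trans (hγ1 _)).le

/-- the next closure point -/
theorem exists_next [WellFoundedLT Ω] (h : IsOmega Ω) (b : Ω → Ω) (ζ : Ω) :
    ∃ γ, Cl b γ ∧ ζ < γ ∧ ∀ ξ < γ, Le b ξ ζ := by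
  obtain ⟨c, hc1, hc2⟩ := exists_Cl h {b} (Set.countable_singleton _) ζ
  have hne : ({c | Cl b c ∧ ζ < c} : Set Ω).Nonempty := ⟨c, hc1 b rfl, hc2⟩
  obtain ⟨h1, h2⟩ := WellFounded.min_mem (wellFounded_lt (α := Ω)) {c | Cl b c ∧ ζ < c} hne
  refine ⟨_, h1, h2, fun ξ hξ γ hγ hζ => lt_of_lt_of_le hξ ?_⟩
  exact not_lt.1 (WellFounded.not_lt_min (wellFounded_lt (α := Ω)) {c | Cl b c ∧ ζ < c} (x := γ) ⟨hγ, hζ⟩)

/-! ### the points which occur in a condition -/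

/-- codes of the line of a condition -/
noncomputable def code (p : Cond B) : Pt Ω → Ω → ℚ := p.2.line.choose

theorem code_spec (p : Cond B) : Codes (p.1.X : Set (Pt Ω)) p.1.D p.1.lt (code p) :=
  p.2.line.choose_spec

/-- the places which occur in the codes -/
noncomputable def hts (p : Cond B) : Finset Ω :=
  (p.1.X.finite_toSet.biUnion' fun u hu => (code_spec p).fin u hu).toFinset

theorem mem_hts {p : Cond B} {u : Pt Ω} {η : Ω} (hu : u ∈ p.1.X) (h : code p u η ≠ 0) :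
    η ∈ hts p := by
  rw [hts, Set.Finite.mem_toFinset]
  simp only [Set.mem_iUnion]
  exact ⟨u, hu, h⟩

/-- the points which occur in a condition -/
noncomputable def sup (p : Cond B) (u : Pt Ω) : Finset (Pt Ω) :=
  p.2.fin.toFinset ∪ (p.1.T.image fun t => t.2.1) ∪
    (p.1.T.image fun t => match t.2.2 with
      | Sum.inl z => z
      | Sum.inr _ => t.2.1) ∪ p.1.X ∪ (hts p).image (fun η => (η, 0)) ∪ {u}

theorem mem_sup_st {p : Cond B} {u x : Pt Ω} (h : p.1.st x ≠ []) : x ∈ sup p u := by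
  simp only [sup, Finset.mem_union, Set.Finite.mem_toFinset]
  exact .inl (.inl (.inl (.inl (.inl h))))

theorem mem_sup_val {p : Cond B} {u : Pt Ω} {t} (h : t ∈ p.1.T) : t.2.1 ∈ sup p u := by
  simp only [sup, Finset.mem_union]
  exact .inl (.inl (.inl (.inl (.inr (Finset.mem_image.2 ⟨t, h, rfl⟩)))))

theorem mem_sup_loc {p : Cond B} {u z : Pt Ω} {t} (h : t ∈ p.1.T) (hz : t.2.2 = Sum.inl z) :
    z ∈ sup p u := by
  simp only [sup, Finset.mem_union]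
  exact .inl (.inl (.inl (.inr (Finset.mem_image.2 ⟨t, h, by rw [hz]⟩))))

theorem mem_sup_X {p : Cond B} {u x : Pt Ω} (h : x ∈ p.1.X) : x ∈ sup p u := by
  simp only [sup, Finset.mem_union]
  exact .inl (.inl (.inr h))

theorem mem_sup_hts {p : Cond B} {u : Pt Ω} {η : Ω} (h : η ∈ hts p) : (η, 0) ∈ sup p u := by
  simp only [sup, Finset.mem_union]
  exact .inl (.inr (Finset.mem_image.2 ⟨η, h, rfl⟩))

theorem mem_sup_u {p : Cond B} {u : Pt Ω} : u ∈ sup p u := by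
  simp [sup]

/-- The main amalgamation lemma. -/
theorem merge [WellFoundedLT Ω] (hΩ : IsOmega Ω) (J : Set Ω) (hJ : ¬ J.Countable)
    (p : Ω → Cond B) (u : Ω → Pt Ω) (hu : ∀ ξ ∈ J, ξ ≤ (u ξ).1) (huX : ∀ ξ ∈ J, u ξ ∈ (p ξ).1.X)
    (ε : Prop) (β : Ω) :
    ∃ ξ ∈ J, ∃ η ∈ J, (u ξ).1 < η ∧ ∃ q : Cond B, q ≤ p ξ ∧ q ≤ p η ∧
      β < q.1.D (u ξ) (u η) ∧ (q.1.lt (u ξ) (u η) ↔ ε) ∧ (q.1.lt (u η) (u ξ) ↔ ¬ ε) := by
  set S : Ω → Finset (Pt Ω) := fun ξ => sup (p ξ) (u ξ) with hS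
  obtain ⟨J1, R, hJ1, hJ1c, hR1, hR2⟩ := delta_system (fun ξ => (S ξ).image Prod.fst) J hJ
  obtain ⟨J2, A, hJ2, hJ2c, hA1, hA2⟩ := delta_system
    (fun ξ => (p ξ).1.T.image Prod.fst ∪ (p ξ).1.U.image Prod.fst) J1 hJ1c
  obtain ⟨b1, hb1⟩ := hΩ.bdd (↑(insert β (R ∪ A.image fun α => (B α).2.1)) : Set Ω)
    (Finset.countable_toSet _)
  obtain ⟨b, hbc, hb1b⟩ := exists_Cl hΩ (↑(A.image fun α => (B α).2.2) : Set (Ω → Ω))
    (Finset.countable_toSet _) b1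
  have hbβ : β < b := (hb1 β (by simp)).trans hb1b
  have hbR : ∀ c ∈ R, c < b := fun c hc => (hb1 c (by simp [hc])).trans hb1b
  have hbA : ∀ α ∈ A, (B α).2.1 < b := fun α hα => (hb1 _ (by
    simp only [Finset.coe_insert, Finset.coe_union, Finset.coe_image, Set.mem_insert_iff,
      Set.mem_union, Finset.mem_coe]
    exact .inr (.inr ⟨α, hα, rfl⟩))).trans hb1b
  have hbCl : ∀ α ∈ A, Cl (B α).2.2 b := fun α hα => hbc _ (by
    simp only [Finset.coe_image]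
    exact ⟨α, hα, rfl⟩)
  -- remove countably many
  have hJ3c : ¬ {ξ ∈ J2 | b < ξ ∧ ∀ c ∈ (S ξ).image Prod.fst, c ∈ R ∨ b < c}.Countable := by
    intro hc
    apply hJ2c
    have hsub : J2 ⊆ {ξ ∈ J2 | b < ξ ∧ ∀ c ∈ (S ξ).image Prod.fst, c ∈ R ∨ b < c} ∪ Set.Iic b ∪
        ⋃ c ∈ {c ∈ Set.Iic b | c ∉ R}, {ξ ∈ J2 | c ∈ (S ξ).image Prod.fst} := by
      intro ξ hξ
      by_cases h1 : b < ξ
      · by_cases h2 : ∀ c ∈ (S ξ).image Prod.fst, c ∈ R ∨ b < c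
        · exact .inl (.inl ⟨hξ, h1, h2⟩)
        · push Not at h2
          obtain ⟨c, hc1, hc2, hc3⟩ := h2
          refine .inr ?_
          simp only [Set.mem_iUnion]
          exact ⟨c, ⟨hc3, hc2⟩, hξ, hc1⟩
      · exact .inl (.inr (not_lt.1 h1))
    refine Set.Countable.mono hsub ((hc.union (hΩ.iic b)).union ?_)
    refine Set.Countable.biUnion ((hΩ.iic b).mono fun c hc => hc.1) fun c hc => ?_
    refine Set.Subsingleton.countable fun ξ hξ η hη => ?_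
    by_contra hne
    exact hc.2 (hR2 ξ (hJ2 hξ.1) η (hJ2 hη.1) hne c hξ.2 hη.2)
  -- labels
  have hlab : ∀ ξ, ∃ f : Ω → ℕ, Set.InjOn f ((S ξ).image Prod.fst : Finset Ω) := fun ξ =>
    Set.countable_iff_exists_injOn.1 (Finset.countable_toSet _)
  choose lab hlab using hlab
  let ty : Ω → (↥R → ℕ) × Finset ((ℕ × ℕ) × List ℚ × Bool) ×
      (↥A → Finset ((ℕ × ℕ) × ((ℕ × ℕ) ⊕ List ℚ))) × (↥A → Finset ((ℕ × ℕ) × (ℕ × ℕ))) ×
      Finset ((ℕ × ℕ) × ℕ × ℚ) × (ℕ × ℕ) := fun ξ =>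
    (fun c => lab ξ c.1,
      (S ξ).image fun x => (lp (lab ξ) x, (p ξ).1.st x, decide (x ∈ (p ξ).1.X)),
      fun α => ((p ξ).1.T.filter fun t => t.1 = α.1).image fun t => li (lab ξ) t.2,
      fun α => ((p ξ).1.U.filter fun t => t.1 = α.1).image fun t => lu (lab ξ) t.2,
      ((p ξ).1.X ×ˢ hts (p ξ)).image fun t => (lp (lab ξ) t.1, lab ξ t.2, code (p ξ) t.1 t.2),
      lp (lab ξ) (u ξ))
  obtain ⟨τ, hτ⟩ := uncountable_fiber ty _ hJ3c
  set J5 := {ξ ∈ {ξ ∈ J2 | b < ξ ∧ ∀ c ∈ (S ξ).image Prod.fst, c ∈ R ∨ b < c} | ty ξ = τ}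
    with hJ5
  obtain ⟨ξ, hξ⟩ : J5.Nonempty := by
    by_contra hcon
    rw [Set.not_nonempty_iff_eq_empty] at hcon
    rw [hcon] at hτ
    exact hτ Set.countable_empty
  obtain ⟨η, hη, hξη⟩ : ∃ η ∈ J5, (u ξ).1 < η := by
    by_contra hcon
    push Not at hcon
    exact hτ ((hΩ.iic (u ξ).1).mono fun η hη => hcon η hη)
  obtain ⟨⟨hξ2, hξb, hξc⟩, hξτ⟩ := hξ
  obtain ⟨⟨hη2, hηb, hηc⟩, hητ⟩ := hη
  have hty : ty ξ = ty η := hξτ.trans hητ.symm
  simp only [ty, Prod.mk.injEq] at hty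
  obtain ⟨ht1, ht2, ht3, ht4, ht5, ht6⟩ := hty
  have hξ1 := hJ2 hξ2
  have hη1 := hJ2 hη2
  have hne : ξ ≠ η := ((hu ξ (hJ1 hξ1)).trans_lt hξη).ne
  have himg : ∀ ζ x, x ∈ S ζ → x.1 ∈ (S ζ).image Prod.fst := fun ζ x hx =>
    Finset.mem_image.2 ⟨x, hx, rfl⟩
  have hRlab : ∀ c ∈ R, lab ξ c = lab η c := fun c hc => congrFun ht1 ⟨c, hc⟩
  have hcol : ∀ ζ, ζ ∈ J5 → ∀ c ∈ (S ζ).image Prod.fst, c < b → c ∈ R := by
    intro ζ hζ c hc hcb
    exact (hζ.1.2.2 c hc).resolve_right fun h => hcb.asymm h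
  have hξ5 : ξ ∈ J5 := ⟨⟨hξ2, hξb, hξc⟩, hξτ⟩
  have hη5 : η ∈ J5 := ⟨⟨hη2, hηb, hηc⟩, hητ⟩
  have hnb : ∀ ζ, ζ ∈ J5 → ∀ c ∈ (S ζ).image Prod.fst, c ≠ b := by
    rintro ζ hζ c hc rfl
    rcases hζ.1.2.2 c hc with h | h
    · exact lt_irrefl _ (hbR c h)
    · exact lt_irrefl _ h
  have hht : ∀ ζ h, h ∈ hts (p ζ) → h ∈ (S ζ).image Prod.fst := fun ζ h hh =>
    himg ζ (h, 0) (mem_sup_hts hh)
  -- the splitting function avoids `b`
  have hDb : ∀ ζ, ζ ∈ J5 → ∀ x ∈ (p ζ).1.X, ∀ y ∈ (p ζ).1.X, (p ζ).1.D x y ≠ b := by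
    intro ζ hζ x hx y hy
    rcases eq_or_ne x y with h | h
    · subst h
      rw [(p ζ).2.line.diag hx]
      exact hnb ζ hζ _ (himg ζ x (mem_sup_X hx))
    · have f := (code_spec (p ζ)).first x hx y hy h
      refine hnb ζ hζ _ (hht ζ _ ?_)
      by_cases h0 : code (p ζ) x ((p ζ).1.D x y) = 0
      · refine mem_hts hy fun h1 => f.2 (h0.trans h1.symm)
      · exact mem_hts hx h0
  -- the codes agree below `b`
  have hcode1 : ∀ ζ ζ', ζ ∈ J5 → ζ' ∈ J5 → (∀ c ∈ R, lab ζ c = lab ζ' c) →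
      (((p ζ).1.X ×ˢ hts (p ζ)).image fun t => (lp (lab ζ) t.1, lab ζ t.2, code (p ζ) t.1 t.2)) =
      (((p ζ').1.X ×ˢ hts (p ζ')).image fun t =>
        (lp (lab ζ') t.1, lab ζ' t.2, code (p ζ') t.1 t.2)) →
      ∀ x ∈ (p ζ).1.X, ∀ x' ∈ (p ζ').1.X, lp (lab ζ) x = lp (lab ζ') x' → ∀ h < b,
        code (p ζ) x h ≠ 0 → code (p ζ) x h = code (p ζ') x' h := by
    intro ζ ζ' hζ hζ' hRl himage x hx x' hx' hxx h hh h0
    have h1 : h ∈ hts (p ζ) := mem_hts hx h0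
    have h2 : h ∈ R := hcol ζ hζ _ (hht ζ h h1) hh
    have h3 : (lp (lab ζ) x, lab ζ h, code (p ζ) x h) ∈
        (((p ζ').1.X ×ˢ hts (p ζ')).image fun t =>
          (lp (lab ζ') t.1, lab ζ' t.2, code (p ζ') t.1 t.2)) := by
      rw [← himage]
      exact Finset.mem_image.2 ⟨(x, h), Finset.mem_product.2 ⟨hx, h1⟩, rfl⟩
    obtain ⟨⟨y, k⟩, h4, h5⟩ := Finset.mem_image.1 h3
    obtain ⟨hy, hk⟩ := Finset.mem_product.1 h4
    simp only [Prod.mk.injEq] at h5 hy hk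
    obtain ⟨h6, h7, h8⟩ := h5
    have hyx : y = x' := by
      have h9 : lp (lab ζ') y = lp (lab ζ') x' := h6.trans hxx
      simp only [lp, Prod.mk.injEq] at h9
      exact Prod.ext (hlab ζ' (himg ζ' y (mem_sup_X hy)) (himg ζ' x' (mem_sup_X hx')) h9.1) h9.2
    have hkh : k = h := by
      rw [hRl h h2] at h7
      exact hlab ζ' (hht ζ' k hk) (hR1 ζ' (hJ2 hζ'.1.1) h2) h7
    rw [← h8, hyx, hkh]
  obtain ⟨q, hq1, hq2, hq3⟩ := merge_two (p ξ) (p η) (S ξ) (S η) R (lab ξ) (lab η)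
    (Finset.finite_toSet _) (Finset.finite_toSet _) b ε (code (p ξ)) (code (p η))
    (code_spec _) (code_spec _)
    (fun x hx y hy h => hlab ξ (himg ξ x hx) (himg ξ y hy) h)
    (fun x hx y hy h => hlab η (himg η x hx) (himg η y hy) h)
    hRlab
    (fun c hc => by
      obtain ⟨x, hx, hxc⟩ := Finset.mem_image.1 (hR1 ξ hξ1 hc)
      exact ⟨x, hx, hxc⟩)
    (fun c hc => by
      obtain ⟨x, hx, hxc⟩ := Finset.mem_image.1 (hR1 η hη1 hc)
      exact ⟨x, hx, hxc⟩)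
    (fun x hx x' hx' h => hR2 ξ hξ1 η hη1 hne _ (himg ξ x hx) (h ▸ himg η x' hx'))
    hbR
    (fun x hx => hξc _ (himg ξ x hx)) (fun x hx => hηc _ (himg η x hx))
    (fun x hx => mem_sup_st hx) (fun x hx => mem_sup_st hx)
    (fun x hx => mem_sup_X hx) (fun x hx => mem_sup_X hx)
    (fun t ht => ⟨mem_sup_val ht, fun z hz => mem_sup_loc ht hz⟩)
    (fun t ht => ⟨mem_sup_val ht, fun z hz => mem_sup_loc ht hz⟩)
    (fun x hx => by
      have h1 : (lp (lab ξ) x, (p ξ).1.st x, decide (x ∈ (p ξ).1.X)) ∈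
          (S η).image fun x => (lp (lab η) x, (p η).1.st x, decide (x ∈ (p η).1.X)) := by
        rw [← ht2]; exact Finset.mem_image.2 ⟨x, hx, rfl⟩
      obtain ⟨x', hx', h2⟩ := Finset.mem_image.1 h1
      simp only [Prod.mk.injEq, decide_eq_decide] at h2
      exact ⟨x', hx', h2.1.symm, h2.2.1.symm, h2.2.2.symm⟩)
    (fun x hx => by
      have h1 : (lp (lab η) x, (p η).1.st x, decide (x ∈ (p η).1.X)) ∈
          (S ξ).image fun x => (lp (lab ξ) x, (p ξ).1.st x, decide (x ∈ (p ξ).1.X)) := by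
        rw [ht2]; exact Finset.mem_image.2 ⟨x, hx, rfl⟩
      obtain ⟨x', hx', h2⟩ := Finset.mem_image.1 h1
      simp only [Prod.mk.injEq, decide_eq_decide] at h2
      exact ⟨x', hx', h2.1, h2.2.1, h2.2.2⟩)
    (by
      intro x hx x' hx' hxx h hh
      by_cases h0 : code (p ξ) x h = 0
      · by_contra h1
        have h2 : code (p η) x' h ≠ 0 := fun h3 => h1 (h0.trans h3.symm)
        exact h1 (hcode1 η ξ hη5 hξ5 (fun c hc => (hRlab c hc).symm) ht5.symm x' hx' x hx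
          hxx.symm h hh h2).symm
      · exact hcode1 ξ η hξ5 hη5 hRlab ht5 x hx x' hx' hxx h hh h0)
    (hDb ξ hξ5) (hDb η hη5)
    (fun α i j hi hj => by
      have hαA : α ∈ A := hA2 ξ hξ2 η hη2 hne α
        (Finset.mem_union_left _ (Finset.mem_image.2 ⟨_, hi, rfl⟩))
        (Finset.mem_union_left _ (Finset.mem_image.2 ⟨_, hj, rfl⟩))
      refine ⟨hbA α hαA, ?_⟩
      have h1 : li (lab η) j ∈ ((p ξ).1.T.filter fun t => t.1 = α).image
          fun t => li (lab ξ) t.2 := by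
        rw [congrFun ht3 ⟨α, hαA⟩]
        exact Finset.mem_image.2 ⟨(α, j), Finset.mem_filter.2 ⟨hj, rfl⟩, rfl⟩
      obtain ⟨⟨α', j'⟩, h2, h3⟩ := Finset.mem_image.1 h1
      obtain ⟨h4, h5⟩ := Finset.mem_filter.1 h2
      simp only at h5
      subst h5
      exact ⟨j', h4, h3⟩)
    (fun α i j hi hj => by
      have hαA : α ∈ A := hA2 ξ hξ2 η hη2 hne α
        (Finset.mem_union_right _ (Finset.mem_image.2 ⟨_, hi, rfl⟩))
        (Finset.mem_union_right _ (Finset.mem_image.2 ⟨_, hj, rfl⟩))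
      refine ⟨hbCl α hαA, ?_, ?_⟩
      · have h1 : lu (lab η) j ∈ ((p ξ).1.U.filter fun t => t.1 = α).image
            fun t => lu (lab ξ) t.2 := by
          rw [congrFun ht4 ⟨α, hαA⟩]
          exact Finset.mem_image.2 ⟨(α, j), Finset.mem_filter.2 ⟨hj, rfl⟩, rfl⟩
        obtain ⟨⟨α', j'⟩, h2, h3⟩ := Finset.mem_image.1 h1
        obtain ⟨h4, h5⟩ := Finset.mem_filter.1 h2
        simp only at h5
        subst h5
        exact ⟨j', h4, h3⟩
      · have h1 : lu (lab ξ) i ∈ ((p η).1.U.filter fun t => t.1 = α).image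
            fun t => lu (lab η) t.2 := by
          rw [← congrFun ht4 ⟨α, hαA⟩]
          exact Finset.mem_image.2 ⟨(α, i), Finset.mem_filter.2 ⟨hi, rfl⟩, rfl⟩
        obtain ⟨⟨α', j'⟩, h2, h3⟩ := Finset.mem_image.1 h1
        obtain ⟨h4, h5⟩ := Finset.mem_filter.1 h2
        simp only at h5
        subst h5
        exact ⟨j', h4, h3.symm⟩)
  refine ⟨ξ, hJ1 hξ1, η, hJ1 hη1, hξη, q, hq1, hq2, ?_⟩
  have h1 : (u ξ).1 ∉ R := fun h => by
    have h2 := hbR _ h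
    have h3 := hu ξ (hJ1 hξ1)
    exact absurd (h2.trans (hξb.trans_le h3)) (lt_irrefl _)
  obtain ⟨h2, h3, h4⟩ := hq3 (u ξ) (huX ξ (hJ1 hξ1)) (u η) (huX η (hJ1 hη1)) ht6 h1
  exact ⟨by rw [h2]; exact hbβ, h3, h4⟩

end Pool.Agent.W914.SA
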