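import Mathlib
import Pool.Agent.W914.SA.Merge2

/-!
# The countable chain condition and its consequences
-/

set_option autoImplicit false
set_option linter.unusedSectionVars false

open Classical Cardinal

namespace Pool.Agent.W914.SA

open Pool.Agent.W914.SS (Lt)

variable {Ω I : Type} [LinearOrder Ω] [WellFoundedLT Ω] [LinearOrder I] {B : Book Ω I}

/-- the countable chain condition -/
theorem ccc (hΩ : IsOmega Ω) (A : Set (Cond B))
    (hA : ∀ p ∈ A, ∀ p' ∈ A, p ≠ p' → ¬ ∃ q : Cond B, q ≤ p ∧ q ≤ p') : A.Countable := by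
  by_contra hcon
  have h1 : #Ω ≤ #A := by
    refine hΩ.card.trans ?_
    rw [← Cardinal.succ_aleph0]
    refine Order.succ_le_of_lt (not_le.1 fun h => hcon ?_)
    exact Cardinal.le_aleph0_iff_set_countable.1 h
  obtain ⟨f, hf⟩ : ∃ f : Ω → A, Function.Injective f := ⟨h1.some, h1.some.injective⟩
  obtain ⟨ξ0, -⟩ := hΩ.bdd ∅ Set.countable_empty
  choose g hg hgX _ using fun ξ : Ω => exists_mem (f ξ).1 (ξ, 0)
  obtain ⟨ξ, -, η, -, hlt, q, hq1, hq2, -⟩ := merge hΩ Set.univ hΩ.uncountable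
    g (fun ξ => (ξ, 0)) (fun _ _ => le_rfl) (fun ξ _ => hgX ξ) True ξ0
  exact hA _ (f ξ).2 _ (f η).2 (fun h => hlt.ne (hf (Subtype.ext h)))
    ⟨q, hq1.trans (hg ξ), hq2.trans (hg η)⟩

/-- countable predense subsets -/
theorem exists_predense (hΩ : IsOmega Ω) (D : Set (Cond B)) :
    ∃ a : ℕ → Option (Cond B), (∀ n c, a n = some c → c ∈ D) ∧
      ∀ p ∈ D, ∃ n c, a n = some c ∧ ∃ q ≤ p, q ≤ c := by
  obtain ⟨A, hA⟩ := zorn_subset {A : Set (Cond B) | A ⊆ D ∧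
      ∀ p ∈ A, ∀ p' ∈ A, p ≠ p' → ¬ ∃ q : Cond B, q ≤ p ∧ q ≤ p'} (by
    intro c hc hchain
    refine ⟨⋃₀ c, ⟨Set.sUnion_subset fun s hs => (hc hs).1, ?_⟩,
      fun s hs => Set.subset_sUnion_of_mem hs⟩
    rintro p ⟨s, hs, hps⟩ p' ⟨s', hs', hps'⟩ hne
    rcases hchain.total hs hs' with h | h
    · exact (hc hs').2 p (h hps) p' hps' hne
    · exact (hc hs).2 p hps p' (h hps') hne)
  have hc := ccc hΩ A hA.prop.2
  obtain ⟨f, hf⟩ := Set.countable_iff_exists_injOn.1 hc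
  refine ⟨fun n => if h : ∃ c ∈ A, f c = n then some h.choose else none, ?_, ?_⟩
  · intro n c h
    dsimp only at h
    split_ifs at h with h1
    simp only [Option.some.injEq] at h
    rw [← h]
    exact hA.prop.1 h1.choose_spec.1
  · intro p hp
    by_contra hcon
    push Not at hcon
    have key : ∀ c ∈ A, ∀ q ≤ p, ¬ q ≤ c := by
      intro c hcA q hq hqc
      have h1 : ∃ c' ∈ A, f c' = f c := ⟨c, hcA, rfl⟩
      have h2 : h1.choose = c := hf h1.choose_spec.1 hcA h1.choose_spec.2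
      refine hcon (f c) c ?_ q hq hqc
      rw [dif_pos h1, h2]
    have hins : insert p A ⊆ A := by
      apply hA.le_of_ge (y := insert p A)
      · refine ⟨Set.insert_subset hp hA.prop.1, ?_⟩
        rintro a (rfl | ha) a' (rfl | ha') hne
        · exact absurd rfl hne
        · rintro ⟨q, h1, h2⟩
          exact key a' ha' q h1 h2
        · rintro ⟨q, h1, h2⟩
          exact key a ha q h2 h1
        · exact hA.prop.2 a ha a' ha' hne
      · exact Set.subset_insert _ _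
    exact key p (hins (Set.mem_insert _ _)) p le_rfl le_rfl

/-- reflection -/
theorem reflect (hΩ : IsOmega Ω) {X : Type} (col : X → Ω) (φ : Cond B → X → Prop)
    (hφ : ∀ p q k, φ p k → q ≤ p → φ q k) :
    ∃ δ, ∀ p k, φ p k → ∃ q ≤ p, ∃ k', col k' < δ ∧ φ q k' := by
  obtain ⟨a, ha1, ha2⟩ := exists_predense hΩ {p | ∃ k, φ p k}
  have h1 : ∀ n, ∃ δ, ∀ c, a n = some c → ∃ k, φ c k ∧ col k < δ := by
    intro n
    cases h : a n with
    | none =>
      obtain ⟨b, -⟩ := hΩ.bdd ∅ Set.countable_empty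
      exact ⟨b, by simp⟩
    | some c =>
      obtain ⟨k, hk⟩ := ha1 n c h
      obtain ⟨b, hb⟩ := hΩ.bdd {col k} (Set.countable_singleton _)
      refine ⟨b, fun c' hc' => ?_⟩
      simp only [Option.some.injEq] at hc'
      exact ⟨k, hc' ▸ hk, hb _ rfl⟩
  choose δ hδ using h1
  obtain ⟨b, hb⟩ := hΩ.bdd (Set.range δ) (Set.countable_range _)
  refine ⟨b, fun p k hpk => ?_⟩
  obtain ⟨n, c, hc, q, hqp, hqc⟩ := ha2 p ⟨k, hpk⟩
  obtain ⟨k', hk', hlt⟩ := hδ n c hc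
  exact ⟨q, hqp, k', hlt.trans (hb _ ⟨n, rfl⟩), hφ c q k' hk' hqc⟩

/-! ### names for sets of points -/

/-- `q` decides that `k` belongs to the set named by `N` -/
def In (N : Pt Ω → ℕ → Option (Raw Ω I)) (q : Cond B) (k : Pt Ω) : Prop :=
  ∃ n c, N k n = some c ∧ q.1 ≤ c

theorem In.mono {N : Pt Ω → ℕ → Option (Raw Ω I)} {q q' : Cond B} {k : Pt Ω} (h : In N q k)
    (hle : q' ≤ q) : In N q' k := by
  obtain ⟨n, c, h1, h2⟩ := h
  exact ⟨n, c, h1, le_trans hle h2⟩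

/-- `k` belongs to the set and its sequence extends `σ` -/
def Ph1 (N : Pt Ω → ℕ → Option (Raw Ω I)) (σ : List ℚ) (q : Cond B) (k : Pt Ω) : Prop :=
  In N q k ∧ σ <+: q.1.st k

theorem Ph1.mono {N : Pt Ω → ℕ → Option (Raw Ω I)} {σ : List ℚ} {q q' : Cond B} {k : Pt Ω}
    (h : Ph1 N σ q k) (hle : q' ≤ q) : Ph1 N σ q' k :=
  ⟨h.1.mono hle, h.2.trans (Raw.le_st hle k)⟩

/-- `k` is the largest such element -/
def Ph2 (N : Pt Ω → ℕ → Option (Raw Ω I)) (σ : List ℚ) (q : Cond B) (k : Pt Ω) : Prop :=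
  Ph1 N σ q k ∧ ∀ q' ≤ q, ∀ k', Ph1 N σ q' k' → ¬ Lt (q'.1.st k) (q'.1.st k')

/-- `k` is the smallest such element -/
def Ph3 (N : Pt Ω → ℕ → Option (Raw Ω I)) (σ : List ℚ) (q : Cond B) (k : Pt Ω) : Prop :=
  Ph1 N σ q k ∧ ∀ q' ≤ q, ∀ k', Ph1 N σ q' k' → ¬ Lt (q'.1.st k') (q'.1.st k)

theorem Ph2.mono {N : Pt Ω → ℕ → Option (Raw Ω I)} {σ : List ℚ} {q q' : Cond B} {k : Pt Ω}
    (h : Ph2 N σ q k) (hle : q' ≤ q) : Ph2 N σ q' k :=
  ⟨h.1.mono hle, fun r hr k' hk' => h.2 r (hr.trans hle) k' hk'⟩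

theorem Ph3.mono {N : Pt Ω → ℕ → Option (Raw Ω I)} {σ : List ℚ} {q q' : Cond B} {k : Pt Ω}
    (h : Ph3 N σ q k) (hle : q' ≤ q) : Ph3 N σ q' k :=
  ⟨h.1.mono hle, fun r hr k' hk' => h.2 r (hr.trans hle) k' hk'⟩

/-- `δ` reflects the name `N` -/
structure Refl (B : Book Ω I) (N : Pt Ω → ℕ → Option (Raw Ω I)) (δ : Ω) : Prop where
  r1 : ∀ σ (q : Cond B) k, Ph1 N σ q k → ∃ q' ≤ q, ∃ k', k'.1 < δ ∧ Ph1 N σ q' k'
  r2 : ∀ σ (q : Cond B) k, Ph2 N σ q k → k.1 < δ
  r3 : ∀ σ (q : Cond B) k, Ph3 N σ q k → k.1 < δ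

theorem exists_Refl (hΩ : IsOmega Ω) (N : Pt Ω → ℕ → Option (Raw Ω I)) : ∃ δ, Refl B N δ := by
  have h1 : ∀ σ, ∃ δ, ∀ (p : Cond B) k, Ph1 N σ p k → ∃ q ≤ p, ∃ k', k'.1 < δ ∧ Ph1 N σ q k' :=
    fun σ => reflect hΩ Prod.fst (Ph1 N σ) fun _ _ _ h h' => h.mono h'
  have h2 : ∀ σ, ∃ δ, ∀ (p : Cond B) k, Ph2 N σ p k → ∃ q ≤ p, ∃ k', k'.1 < δ ∧ Ph2 N σ q k' :=
    fun σ => reflect hΩ Prod.fst (Ph2 N σ) fun _ _ _ h h' => h.mono h'
  have h3 : ∀ σ, ∃ δ, ∀ (p : Cond B) k, Ph3 N σ p k → ∃ q ≤ p, ∃ k', k'.1 < δ ∧ Ph3 N σ q k' :=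
    fun σ => reflect hΩ Prod.fst (Ph3 N σ) fun _ _ _ h h' => h.mono h'
  choose d1 hd1 using h1
  choose d2 hd2 using h2
  choose d3 hd3 using h3
  obtain ⟨b, hb⟩ := hΩ.bdd (Set.range d1 ∪ Set.range d2 ∪ Set.range d3)
    (((Set.countable_range _).union (Set.countable_range _)).union (Set.countable_range _))
  refine ⟨b, fun σ q k h => ?_, fun σ q k h => ?_, fun σ q k h => ?_⟩
  · obtain ⟨q', hq', k', hk', h'⟩ := hd1 σ q k h
    exact ⟨q', hq', k', hk'.trans (hb _ (.inl (.inl ⟨σ, rfl⟩))), h'⟩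
  · obtain ⟨q', hq', k', hk', h'⟩ := hd2 σ q k h
    have hkk : k = k' := by
      by_contra hne
      obtain ⟨r, hr, -, h4, -, -⟩ := exists_separate q' k {k'} (Set.finite_singleton _) hne ∅
        Set.finite_empty
      rcases h4 k' rfl with h5 | h5
      · exact (h.mono hq').2 r hr k' (h'.1.mono hr) h5
      · exact h'.2 r hr k ((h.mono hq').1.mono hr) h5
    rw [hkk]
    exact hk'.trans (hb _ (.inl (.inr ⟨σ, rfl⟩)))
  · obtain ⟨q', hq', k', hk', h'⟩ := hd3 σ q k h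
    have hkk : k = k' := by
      by_contra hne
      obtain ⟨r, hr, -, h4, -, -⟩ := exists_separate q' k {k'} (Set.finite_singleton _) hne ∅
        Set.finite_empty
      rcases h4 k' rfl with h5 | h5
      · exact h'.2 r hr k ((h.mono hq').1.mono hr) h5
      · exact (h.mono hq').2 r hr k' (h'.1.mono hr) h5
    rw [hkk]
    exact hk'.trans (hb _ (.inr ⟨σ, rfl⟩))

/-- the largest element of a finite set for a relation -/
theorem exists_last {X : Type} (r : X → X → Prop) (htr : ∀ x y z, r x y → r y z → r x z)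
    (L : Set X) (hL : L.Finite) (hne : L.Nonempty)
    (htot : ∀ x ∈ L, ∀ y ∈ L, x = y ∨ r x y ∨ r y x) : ∃ m ∈ L, ∀ x ∈ L, x = m ∨ r x m := by
  induction L, hL using Set.Finite.induction_on with
  | empty => exact absurd hne Set.not_nonempty_empty
  | @insert a s ha hs ih =>
    by_cases hse : s.Nonempty
    · obtain ⟨m, hm, h⟩ := ih hse fun x hx y hy => htot x (.inr hx) y (.inr hy)
      rcases htot a (.inl rfl) m (.inr hm) with h1 | h1 | h1
      · exact absurd (h1 ▸ hm) ha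
      · refine ⟨m, .inr hm, ?_⟩
        rintro x (rfl | hx)
        · exact .inr h1
        · exact h x hx
      · refine ⟨a, .inl rfl, ?_⟩
        rintro x (rfl | hx)
        · exact .inl rfl
        · rcases h x hx with h2 | h2
          · exact .inr (h2 ▸ h1)
          · exact .inr (htr _ _ _ h2 h1)
    · refine ⟨a, .inl rfl, ?_⟩
      rintro x (rfl | hx)
      · exact .inl rfl
      · exact absurd ⟨x, hx⟩ hse

/-- the elements of colour less than `δ` are dense -/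
theorem Refl.between {N : Pt Ω → ℕ → Option (Raw Ω I)} {δ : Ω} (h : Refl B N δ) (p : Cond B)
    (hp : ∃ q ≤ p, ∃ k, In N q k)
    (L R : Set (Pt Ω)) (hLf : L.Finite) (hRf : R.Finite) (hL : ∀ x ∈ L, In N p x)
    (hR : ∀ x ∈ R, In N p x)
    (hLL : ∀ x ∈ L, ∀ y ∈ L, x = y ∨ Lt (p.1.st x) (p.1.st y) ∨ Lt (p.1.st y) (p.1.st x))
    (hRR : ∀ x ∈ R, ∀ y ∈ R, x = y ∨ Lt (p.1.st x) (p.1.st y) ∨ Lt (p.1.st y) (p.1.st x))
    (hLR : ∀ x ∈ L, ∀ y ∈ R, Lt (p.1.st x) (p.1.st y) ∨ (x = y ∧ x.1 < δ)) :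
    ∃ q ≤ p, ∃ k, k.1 < δ ∧ In N q k ∧ (∀ x ∈ L, x = k ∨ Lt (q.1.st x) (q.1.st k)) ∧
      (∀ y ∈ R, k = y ∨ Lt (q.1.st k) (q.1.st y)) := by
  have htr : ∀ x y z : Pt Ω, Lt (p.1.st x) (p.1.st y) → Lt (p.1.st y) (p.1.st z) →
      Lt (p.1.st x) (p.1.st z) := fun x y z h1 h2 => h1.trans h2
  have monoP : ∀ {q : Cond B} (_ : q ≤ p) {x y : Pt Ω}, Lt (p.1.st x) (p.1.st y) →
      Lt (q.1.st x) (q.1.st y) := fun hq x y h => h.mono (hq.1 x) (hq.1 y)
  rcases L.eq_empty_or_nonempty with rfl | hLne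
  · rcases R.eq_empty_or_nonempty with rfl | hRne
    · obtain ⟨q, hq, k, hk⟩ := hp
      obtain ⟨q', hq', k', hk', h'⟩ := h.r1 [] q k ⟨hk, List.nil_prefix⟩
      exact ⟨q', hq'.trans hq, k', hk', h'.1, by simp, by simp⟩
    · obtain ⟨m, hm, hmin⟩ := exists_last (fun x y => Lt (p.1.st y) (p.1.st x))
        (fun x y z h1 h2 => h2.trans h1) R hRf hRne
        (fun x hx y hy => by rcases hRR x hx y hy with h | h | h <;> simp [h])
      by_cases hmδ : m.1 < δ
      · refine ⟨p, le_rfl, m, hmδ, hR m hm, by simp, fun y hy => ?_⟩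
        rcases hmin y hy with h1 | h1
        · exact .inl h1.symm
        · exact .inr h1
      · by_cases hex : ∃ q ≤ p, ∃ k', In N q k' ∧ Lt (q.1.st k') (q.1.st m)
        · obtain ⟨q, hq, k', hk', hlt⟩ := hex
          obtain ⟨q', hq', k, hk, h'⟩ := h.r1 (q.1.st k') q k' ⟨hk', List.prefix_rfl⟩
          have h1 : Lt (q'.1.st k) (q'.1.st m) := hlt.mono h'.2 (hq'.1 m)
          refine ⟨q', hq'.trans hq, k, hk, h'.1, by simp, fun y hy => .inr ?_⟩
          rcases hmin y hy with h2 | h2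
          · rw [h2]; exact h1
          · exact h1.trans (monoP (hq'.trans hq) h2)
        · push Not at hex
          refine absurd (h.r3 [] p m ⟨⟨hR m hm, List.nil_prefix⟩, fun q hq k' hk' => ?_⟩) hmδ
          exact hex q hq k' hk'.1
  · obtain ⟨l, hl, hmax⟩ := exists_last (fun x y => Lt (p.1.st x) (p.1.st y))
      (fun x y z h1 h2 => h1.trans h2) L hLf hLne hLL
    rcases R.eq_empty_or_nonempty with rfl | hRne
    · by_cases hlδ : l.1 < δ
      · exact ⟨p, le_rfl, l, hlδ, hL l hl, fun y hy => hmax y hy, by simp⟩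
      · by_cases hex : ∃ q ≤ p, ∃ k', In N q k' ∧ Lt (q.1.st l) (q.1.st k')
        · obtain ⟨q, hq, k', hk', hlt⟩ := hex
          obtain ⟨q', hq', k, hk, h'⟩ := h.r1 (q.1.st k') q k' ⟨hk', List.prefix_rfl⟩
          have h1 : Lt (q'.1.st l) (q'.1.st k) := hlt.mono (hq'.1 l) h'.2
          refine ⟨q', hq'.trans hq, k, hk, h'.1, fun y hy => .inr ?_, by simp⟩
          rcases hmax y hy with h2 | h2
          · rw [h2]; exact h1
          · exact (monoP (hq'.trans hq) h2).trans h1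
        · push Not at hex
          refine absurd (h.r2 [] p l ⟨⟨hL l hl, List.nil_prefix⟩, fun q hq k' hk' => ?_⟩) hlδ
          exact hex q hq k' hk'.1
    · obtain ⟨m, hm, hmin⟩ := exists_last (fun x y => Lt (p.1.st y) (p.1.st x))
        (fun x y z h1 h2 => h2.trans h1) R hRf hRne
        (fun x hx y hy => by rcases hRR x hx y hy with h | h | h <;> simp [h])
      by_cases hlδ : l.1 < δ
      · refine ⟨p, le_rfl, l, hlδ, hL l hl, fun y hy => hmax y hy, fun y hy => ?_⟩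
        rcases hLR l hl y hy with h1 | h1
        · exact .inr h1
        · exact .inl h1.1
      · by_cases hmδ : m.1 < δ
        · refine ⟨p, le_rfl, m, hmδ, hR m hm, fun x hx => ?_, fun y hy => ?_⟩
          · rcases hLR x hx m hm with h1 | h1
            · exact .inr h1
            · exact .inl h1.1
          · rcases hmin y hy with h1 | h1
            · exact .inl h1.symm
            · exact .inr h1
        · have hlm : Lt (p.1.st l) (p.1.st m) := by
            rcases hLR l hl m hm with h1 | h1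
            · exact h1
            · exact absurd h1.2 hlδ
          by_cases hex : ∃ q ≤ p, ∃ k', In N q k' ∧ Lt (q.1.st l) (q.1.st k') ∧
              Lt (q.1.st k') (q.1.st m)
          · obtain ⟨q, hq, k', hk', hlt1, hlt2⟩ := hex
            obtain ⟨q', hq', k, hk, h'⟩ := h.r1 (q.1.st k') q k' ⟨hk', List.prefix_rfl⟩
            have h1 : Lt (q'.1.st l) (q'.1.st k) := hlt1.mono (hq'.1 l) h'.2
            have h2 : Lt (q'.1.st k) (q'.1.st m) := hlt2.mono h'.2 (hq'.1 m)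
            refine ⟨q', hq'.trans hq, k, hk, h'.1, fun y hy => .inr ?_, fun y hy => .inr ?_⟩
            · rcases hmax y hy with h3 | h3
              · rw [h3]; exact h1
              · exact (monoP (hq'.trans hq) h3).trans h1
            · rcases hmin y hy with h3 | h3
              · rw [h3]; exact h2
              · exact h2.trans (monoP (hq'.trans hq) h3)
          · push Not at hex
            refine absurd (h.r2 (p.1.st l) p l ⟨⟨hL l hl, List.prefix_rfl⟩,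
              fun q hq k' hk' hlt => ?_⟩) hlδ
            exact hex q hq k' hk'.1 hlt (hlm.mono hk'.2 (hq.1 m))

/-! ### elements of low level of a subset of the Aronszajn line -/

/-- the order or its reverse -/
def ltS (s : Bool) (q : Raw Ω I) (x y : Pt Ω) : Prop := if s then q.lt x y else q.lt y x

/-- close to each element `l` of the set, on the side given by `s`, there is an element of level
less than `γ` -/
def KP (B : Book Ω I) (N : Pt Ω → ℕ → Option (Raw Ω I)) (s : Bool) (γ η : Ω) : Prop :=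
  ∀ (p : Cond B) l, In N p l → l ∈ p.1.X → ∃ q ≤ p, ∃ k ∈ q.1.X, In N q k ∧ k.1 < γ ∧
    (k = l ∨ (ltS s q.1 l k ∧ η < q.1.D l k))

/-- there is an element of level less than `γ` -/
def K0 (B : Book Ω I) (N : Pt Ω → ℕ → Option (Raw Ω I)) (γ : Ω) : Prop :=
  ∀ (p : Cond B) l, In N p l → ∃ q ≤ p, ∃ k, In N q k ∧ k.1 < γ

theorem exists_KP (hΩ : IsOmega Ω) (N : Pt Ω → ℕ → Option (Raw Ω I)) (s : Bool) (η : Ω) :
    ∃ b, ∀ γ, b ≤ γ → KP B N s γ η := by
  by_contra hcon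
  push Not at hcon
  have hJ : ¬ {γ | ¬ KP B N s γ η}.Countable := by
    intro hc
    obtain ⟨b, hb⟩ := hΩ.bdd _ hc
    obtain ⟨γ, hγ1, hγ2⟩ := hcon b
    exact absurd (hb γ hγ2) (not_lt.2 hγ1)
  have h1 : ∀ γ, ∃ (p : Cond B) (l : Pt Ω), γ ∈ {γ | ¬ KP B N s γ η} → (In N p l ∧ l ∈ p.1.X ∧
      ∀ q ≤ p, ∀ k ∈ q.1.X, In N q k → k.1 < γ →
        ¬ (k = l ∨ (ltS s q.1 l k ∧ η < q.1.D l k))) := by
    intro γ
    by_cases hγ : γ ∈ {γ | ¬ KP B N s γ η}
    · have h2 : ¬ KP B N s γ η := hγ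
      unfold KP at h2
      push Not at h2
      obtain ⟨p, l, h3, h4, h5⟩ := h2
      refine ⟨p, l, fun _ => ⟨h3, h4, fun q hq k hk hkN hkγ => ?_⟩⟩
      have h6 := h5 q hq k hk hkN hkγ
      rintro (h7 | h7)
      · exact h6.1 h7
      · exact absurd h7.2 (not_lt.2 (h6.2 h7.1))
    · obtain ⟨γ0, -, h2⟩ := hcon γ
      unfold KP at h2
      push Not at h2
      obtain ⟨p, l, -⟩ := h2
      exact ⟨p, l, fun h => absurd h hγ⟩
  choose p l hpl using h1
  have hlev : ∀ γ ∈ {γ | ¬ KP B N s γ η}, γ ≤ (l γ).1 := by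
    intro γ hγ
    obtain ⟨h2, h3, h4⟩ := hpl γ hγ
    by_contra h5
    exact h4 (p γ) le_rfl (l γ) h3 h2 (not_le.1 h5) (.inl rfl)
  obtain ⟨γ, hγ, γ', hγ', hlt, q, hq, hq', hD, hε, hε'⟩ := merge hΩ _ hJ p l hlev
    (fun γ hγ => (hpl γ hγ).2.1) (s = false) η
  obtain ⟨h2, h3, h4⟩ := hpl γ' hγ'
  have hlX : l γ ∈ q.1.X := Raw.le_X hq (hpl γ hγ).2.1
  have hlX' : l γ' ∈ q.1.X := Raw.le_X hq' h3
  refine h4 q hq' (l γ) hlX ((hpl γ hγ).1.mono hq) hlt (.inr ⟨?_, ?_⟩)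
  · unfold ltS
    cases s
    · simpa using hε
    · simpa using hε'
  · rw [q.2.line.symm hlX' hlX]; exact hD

theorem exists_K0 (hΩ : IsOmega Ω) (N : Pt Ω → ℕ → Option (Raw Ω I)) :
    ∃ b, ∀ γ, b ≤ γ → K0 B N γ := by
  obtain ⟨δ, hδ⟩ := reflect (B := B) hΩ Prod.fst (In N) fun _ _ _ h h' => h.mono h'
  refine ⟨δ, fun γ hγ p l hl => ?_⟩
  obtain ⟨q, hq, k, hk, h⟩ := hδ p l hl
  exact ⟨q, hq, k, h, hk.trans_le hγ⟩

/-- the function `b` reflects the name `N` -/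
structure ReflU (B : Book Ω I) (N : Pt Ω → ℕ → Option (Raw Ω I)) (b : Ω → Ω) : Prop where
  k0 : ∀ γ η, Cl b γ → η < γ → K0 B N γ
  kp : ∀ s γ η, Cl b γ → η < γ → KP B N s γ η

theorem exists_ReflU (hΩ : IsOmega Ω) (N : Pt Ω → ℕ → Option (Raw Ω I)) : ∃ b, ReflU B N b := by
  choose b1 hb1 using fun η : Ω => exists_KP (B := B) hΩ N true η
  choose b2 hb2 using fun η : Ω => exists_KP (B := B) hΩ N false η
  obtain ⟨b0, hb0⟩ := exists_K0 (B := B) hΩ N
  refine ⟨fun η => max b0 (max (b1 η) (b2 η)), fun γ η hγ hη => ?_, fun s γ η hγ hη => ?_⟩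
  · exact hb0 γ ((le_max_left _ _).trans (hγ η hη))
  · cases s
    · exact hb2 η γ (((le_max_right _ _).trans (le_max_right _ _)).trans (hγ η hη))
    · exact hb1 η γ (((le_max_left _ _).trans (le_max_right _ _)).trans (hγ η hη))

end Pool.Agent.W914.SA
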