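import Mathlib
import Pool.Agent.W914.SA.Reflect

/-!
# Density lemmas
-/

set_option autoImplicit false
set_option linter.unusedSectionVars false

open Classical Cardinal

namespace Pool.Agent.W914.SA

open Pool.Agent.W914.SS (Lt interpolate_set)

variable {Ω I : Type} [LinearOrder Ω] [WellFoundedLT Ω] [LinearOrder I] {B : Book Ω I}

/-- the condition decides that the map added at the coordinate `α` sends `z` to `x` -/
def Maps (α : I) (q : Cond B) (z x : Pt Ω) : Prop :=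
  ∃ w, (α, (x, w)) ∈ q.1.T ∧ (w = Sum.inl z ∨ ∃ σ, w = Sum.inr σ ∧ σ <+: q.1.st z)

theorem Maps.mono {α : I} {q q' : Cond B} {z x : Pt Ω} (h : Maps α q z x) (hle : q' ≤ q) :
    Maps α q' z x := by
  obtain ⟨w, h1, h2⟩ := h
  refine ⟨w, Raw.le_T hle h1, ?_⟩
  rcases h2 with h2 | ⟨σ, h2, h3⟩
  · exact .inl h2
  · exact .inr ⟨σ, h2, h3.trans (Raw.le_st hle z)⟩

theorem Maps.exists_pre {α : I} {q : Cond B} {z x : Pt Ω} (h : Maps α q z x) :
    ∃ w, (α, (x, w)) ∈ q.1.T ∧ loc q.1.st w <+: q.1.st z := by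
  obtain ⟨w, h1, h2⟩ := h
  refine ⟨w, h1, ?_⟩
  rcases h2 with h2 | ⟨σ, h2, h3⟩
  · subst h2; exact List.prefix_rfl
  · subst h2; exact h3

theorem Maps.unique {α : I} {q : Cond B} {z x x' : Pt Ω} (h : Maps α q z x)
    (h' : Maps α q z x') : x = x' := by
  obtain ⟨w, h1, h2⟩ := h.exists_pre
  obtain ⟨w', h1', h2'⟩ := h'.exists_pre
  rcases q.2.rel α _ _ h1 h1' with h3 | h3 | h3
  · exact congrArg Prod.fst h3
  · exact absurd h3.1 (Lt.not_of_prefix h2 h2')
  · exact absurd h3.1 (Lt.not_of_prefix h2' h2)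

theorem Maps.monotone {α : I} {q : Cond B} {z z' x x' : Pt Ω} (h : Maps α q z x)
    (h' : Maps α q z' x') (hlt : Lt (q.1.st z) (q.1.st z')) (hne : x ≠ x') :
    Lt (q.1.st x) (q.1.st x') := by
  obtain ⟨w, h1, h2⟩ := h.exists_pre
  obtain ⟨w', h1', h2'⟩ := h'.exists_pre
  rcases q.2.rel α _ _ h1 h1' with h3 | h3 | h3
  · exact absurd (congrArg Prod.fst h3) hne
  · rcases h3.2 with h4 | h4
    · exact h4
    · exact absurd h4.1 hne
  · exact absurd (h3.1.mono h2' h2) hlt.asymm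

/-- a name attached to a coordinate -/
structure Attached (B : Book Ω I) (α : I) (N : Pt Ω → ℕ → Option (Raw Ω I)) (δ : Ω)
    (b : Ω → Ω) : Prop where
  eq : B α = (N, δ, b)
  supp : ∀ x n c, N x n = some c → (∀ t ∈ c.T, t.1 < α) ∧ ∀ t ∈ c.U, t.1 < α
  refl : Refl B N δ
  reflU : ReflU B N b

section

variable {α : I} {N : Pt Ω → ℕ → Option (Raw Ω I)} {δ : Ω} {b : Ω → Ω}

theorem Attached.le_of_res (h : Attached B α N δ b) {q q' : Raw Ω I} {x : Pt Ω} {n : ℕ}
    {c : Raw Ω I} (hc : N x n = some c) (hq : q ≤ c) (hq' : q' ≤ res q α) : q' ≤ c := by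
  have hX : (res q α).X ⊆ q'.X := Raw.le_X hq'
  refine ⟨fun y => (hq.1 y).trans (hq'.1 y), fun t ht => hq'.2.1 ?_,
    (Raw.le_X hq).trans hX, fun u hu v hv => ?_, fun t ht => Raw.le_U hq' ?_⟩
  · exact mem_resT.2 ⟨hq.2.1 ht, (h.supp x n c hc).1 t ht⟩
  · exact ⟨(Raw.le_D hq' (Raw.le_X hq hu) (Raw.le_X hq hv)).trans (Raw.le_D hq hu hv),
      (Raw.le_lt hq' (Raw.le_X hq hu) (Raw.le_X hq hv)).trans (Raw.le_lt hq hu hv)⟩
  · exact mem_resU.2 ⟨Raw.le_U hq ht, (h.supp x n c hc).2 t ht⟩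

theorem Attached.val (h : Attached B α N δ b) {p : Cond B} {x : Pt Ω} (hp : In N p x) :
    ∃ n c, (B α).1 x n = some c ∧ res p.1 α ≤ c := by
  obtain ⟨n, c, h1, h2⟩ := hp
  exact ⟨n, c, by rw [h.eq]; exact h1, h.le_of_res h1 h2 le_rfl⟩

theorem Attached.in (h : Attached B α N δ b) {p : Cond B} {x : Pt Ω} {w}
    (hx : (α, (x, w)) ∈ p.1.T) : In N p x := by
  obtain ⟨n, c, h1, h2⟩ := p.2.val _ _ _ hx
  exact ⟨n, c, by rw [h.eq] at h1; exact h1, (le_res _ _).trans h2⟩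

theorem finite_items (p : Cond B) (α : I) : {i : Item Ω | (α, i) ∈ p.1.T}.Finite := by
  refine ((p.1.T.finite_toSet).image Prod.snd).subset ?_
  intro i hi
  exact ⟨(α, i), hi, rfl⟩

/-- the map is defined everywhere -/
theorem Attached.total (h : Attached B α N δ b) (p : Cond B)
    (hp : ∀ q ≤ p, ∃ q' ≤ q, ∃ k, In N q' k) (z : Pt Ω) : ∃ q ≤ p, ∃ x, Maps α q z x := by
  by_cases hcov : ∃ x, Maps α p z x
  · obtain ⟨x, hx⟩ := hcov
    exact ⟨p, le_rfl, x, hx⟩
  have hδ : (B α).2.1 = δ := by rw [h.eq]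
  push Not at hcov
  have hfin := finite_items p α
  obtain ⟨p1, hp1, hT1, hs1, hs2, hs3⟩ := exists_separate p z
    {y | ∃ x, (α, (x, Sum.inl y)) ∈ p.1.T}
    ((hfin.image fun i => match i.2 with
      | Sum.inl y => y
      | Sum.inr _ => i.1).subset (by
        rintro y ⟨x, hx⟩
        exact ⟨_, hx, rfl⟩))
    (by
      rintro ⟨x, hx⟩
      exact hcov x ⟨_, hx, .inl rfl⟩)
    {σ | ∃ x, (α, (x, Sum.inr σ)) ∈ p.1.T}
    ((hfin.image fun i => match i.2 with
      | Sum.inl y => []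
      | Sum.inr σ => σ).subset (by
        rintro y ⟨x, hx⟩
        exact ⟨_, hx, rfl⟩))
  have hcmp : ∀ i, (α, i) ∈ p1.1.T → Lt (loc p1.1.st i.2) (p1.1.st z) ∨
      Lt (p1.1.st z) (loc p1.1.st i.2) := by
    rintro ⟨x, w⟩ hi
    rw [hT1] at hi
    cases w with
    | inl y => exact (hs1 y ⟨x, hi⟩).symm
    | inr σ =>
      rcases hs2 σ ⟨x, hi⟩ with h1 | h1 | h1
      · exact absurd ⟨_, hi, .inr ⟨σ, rfl, h1⟩⟩ (hcov x)
      · exact .inl h1
      · exact .inr h1
  have hrel := p1.2.rel α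
  rw [hδ] at hrel
  have hfin1 := finite_items p1 α
  obtain ⟨q, hq, k, hkδ, hkN, hkL, hkR⟩ := h.refl.between p1 (hp p1 hp1)
    {x | ∃ w, (α, (x, w)) ∈ p1.1.T ∧ Lt (loc p1.1.st w) (p1.1.st z)}
    {x | ∃ w, (α, (x, w)) ∈ p1.1.T ∧ Lt (p1.1.st z) (loc p1.1.st w)}
    ((hfin1.image Prod.fst).subset (by
      rintro x ⟨w, hw, -⟩
      exact ⟨_, hw, rfl⟩))
    ((hfin1.image Prod.fst).subset (by
      rintro x ⟨w, hw, -⟩
      exact ⟨_, hw, rfl⟩))
    (by
      rintro x ⟨w, hw, -⟩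
      exact h.in hw)
    (by
      rintro x ⟨w, hw, -⟩
      exact h.in hw)
    (by
      rintro x ⟨w, hw, -⟩ y ⟨w', hw', -⟩
      rcases hrel _ _ hw hw' with h1 | h1 | h1
      · exact .inl (congrArg Prod.fst h1)
      · rcases h1.2 with h2 | h2
        · exact .inr (.inl h2)
        · exact .inl h2.1
      · rcases h1.2 with h2 | h2
        · exact .inr (.inr h2)
        · exact .inl h2.1.symm)
    (by
      rintro x ⟨w, hw, -⟩ y ⟨w', hw', -⟩
      rcases hrel _ _ hw hw' with h1 | h1 | h1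
      · exact .inl (congrArg Prod.fst h1)
      · rcases h1.2 with h2 | h2
        · exact .inr (.inl h2)
        · exact .inl h2.1
      · rcases h1.2 with h2 | h2
        · exact .inr (.inr h2)
        · exact .inl h2.1.symm)
    (by
      rintro x ⟨w, hw, hl⟩ y ⟨w', hw', hl'⟩
      have hlt := hl.trans hl'
      rcases hrel _ _ hw hw' with h1 | h1 | h1
      · simp only [Prod.mk.injEq] at h1
        rw [h1.2] at hlt
        exact absurd hlt Lt.irrefl
      · rcases h1.2 with h2 | h2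
        · exact .inl h2
        · exact .inr h2
      · exact absurd hlt h1.1.asymm)
  -- forget the part of `q` above `α`
  have hGle : glue q.1 p1.1 α ≤ p1.1 := glue_le hq α
  let G : Cond B := ⟨glue q.1 p1.1 α, q.2.glue p1.2 hq α⟩
  have hGN : In N G k := by
    obtain ⟨n, c, h1, h2⟩ := hkN
    exact ⟨n, c, h1, h.le_of_res h1 h2 (glue_le_res α)⟩
  have hGst : G.1.st = q.1.st := rfl
  have hzq : p1.1.st z <+: q.1.st z := hq.1 z
  have hzne : q.1.st z ≠ [] := fun h0 => hs3 (List.eq_nil_of_prefix_nil (h0 ▸ hzq))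
  obtain ⟨r, hr, hrs, hrT⟩ := exists_add G G.1.st (fun _ => List.prefix_rfl) (by simp) α
    (k, Sum.inr (G.1.st z)) (by simp)
    (by
      intro σ hσ
      simp only [Sum.inr.injEq] at hσ
      subst hσ
      exact ⟨by rw [hδ]; exact hkδ, hzne⟩)
    (by
      intro j hj
      have hj1 : (α, j) ∈ p1.1.T := mem_glueT_self.1 hj
      rcases hcmp j hj1 with h1 | h1
      · right
        refine ⟨h1.mono (loc_mono hq.1 _) hzq, ?_⟩
        rcases hkL j.1 ⟨j.2, hj1, h1⟩ with h2 | h2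
        · exact .inr ⟨h2, by rw [h2, hδ]; exact hkδ⟩
        · exact .inl h2
      · left
        refine ⟨h1.mono hzq (loc_mono hq.1 _), ?_⟩
        rcases hkR j.1 ⟨j.2, hj1, h1⟩ with h2 | h2
        · exact .inr ⟨h2, by rw [hδ]; exact hkδ⟩
        · exact .inl h2)
    (h.val hGN)
  refine ⟨r, (hr.trans hGle).trans hp1, k, Sum.inr (G.1.st z), ?_, .inr ⟨_, rfl, ?_⟩⟩
  · rw [hrT]; exact Finset.mem_insert_self _ _
  · rw [hrs]

/-- every element of the set is a value -/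
theorem Attached.onto (h : Attached B α N δ b) (p : Cond B) (x : Pt Ω) (hx : In N p x) :
    ∃ q ≤ p, ∃ z, Maps α q z x := by
  have hδ : (B α).2.1 = δ := by rw [h.eq]
  have fresh : ∀ q : Cond B, ∃ z : Pt Ω, z.1 = x.1 ∧ q.1.st z = [] := by
    intro q
    have h1 : {n : ℕ | q.1.st (x.1, n) ≠ []}.Finite :=
      q.2.fin.preimage (fun a _ b _ hab => congrArg Prod.snd hab)
    obtain ⟨n, hn⟩ := h1.infinite_compl.nonempty
    exact ⟨(x.1, n), rfl, by simpa using hn⟩
  have hset : ∀ (q : Cond B) (z : Pt Ω) (σ : List ℚ), q.1.st z = [] →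
      (∀ y, q.1.st y <+: Function.update q.1.st z σ y) ∧
        {y | Function.update q.1.st z σ y ≠ q.1.st y}.Finite := by
    intro q z σ hz
    constructor
    · intro y
      by_cases hy : y = z
      · subst hy; rw [hz]; exact List.nil_prefix
      · rw [Function.update_of_ne hy]
    · refine (Set.finite_singleton z).subset fun y hy => ?_
      by_contra hne
      exact hy (Function.update_of_ne hne _ _)
  by_cases hval : ∃ w, (α, (x, w)) ∈ p.1.T
  · obtain ⟨w, hw⟩ := hval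
    cases w with
    | inl z => exact ⟨p, le_rfl, z, _, hw, .inl rfl⟩
    | inr σ =>
      obtain ⟨z, -, hz⟩ := fresh p
      obtain ⟨q, hq, hq1, hq2⟩ := exists_extSt p (Function.update p.1.st z σ) (hset p z σ hz).1
        (hset p z σ hz).2
      refine ⟨q, hq, z, _, hq2 ▸ hw, .inr ⟨σ, rfl, ?_⟩⟩
      rw [hq1, Function.update_self]
  push Not at hval
  have hfin := finite_items p α
  obtain ⟨p1, hp1, hT1, hs1, -, hs3⟩ := exists_separate p x {y | ∃ w, (α, (y, w)) ∈ p.1.T}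
    ((hfin.image Prod.fst).subset (by
      rintro x ⟨w, hw⟩
      exact ⟨_, hw, rfl⟩))
    (by rintro ⟨w, hw⟩; exact hval w hw) ∅ Set.finite_empty
  have hcmp : ∀ i, (α, i) ∈ p1.1.T → Lt (p1.1.st x) (p1.1.st i.1) ∨
      Lt (p1.1.st i.1) (p1.1.st x) := fun i hi => hs1 i.1 ⟨i.2, by rw [← hT1]; exact hi⟩
  obtain ⟨τ, hτ0, hτA, hτB⟩ := interpolate_set
    {σ | ∃ i, (α, i) ∈ p1.1.T ∧ loc p1.1.st i.2 = σ ∧ Lt (p1.1.st i.1) (p1.1.st x)}
    {σ | ∃ i, (α, i) ∈ p1.1.T ∧ loc p1.1.st i.2 = σ ∧ Lt (p1.1.st x) (p1.1.st i.1)}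
    (((finite_items p1 α).image fun i => loc p1.1.st i.2).subset (by
      rintro σ ⟨i, hi, rfl, -⟩
      exact ⟨i, hi, rfl⟩))
    (((finite_items p1 α).image fun i => loc p1.1.st i.2).subset (by
      rintro σ ⟨i, hi, rfl, -⟩
      exact ⟨i, hi, rfl⟩))
    (by
      rintro σ ⟨i, hi, rfl, -⟩
      exact p1.2.loc_ne hi)
    (by
      rintro σ ⟨i, hi, rfl, -⟩
      exact p1.2.loc_ne hi)
    (by
      rintro σ ⟨i, hi, rfl, hlt⟩ σ' ⟨j, hj, rfl, hlt'⟩
      have hij := hlt.trans hlt'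
      rcases p1.2.rel α i j hi hj with h1 | h1 | h1
      · rw [h1] at hij
        exact absurd hij Lt.irrefl
      · exact h1.1
      · rcases h1.2 with h2 | h2
        · exact absurd hij h2.asymm
        · rw [h2.1] at hij
          exact absurd hij Lt.irrefl)
  obtain ⟨z, hz1, hz⟩ := fresh p1
  have hzx : x ≠ z := fun h0 => hs3 (by rw [h0]; exact hz)
  obtain ⟨hu1, hu2⟩ := hset p1 z τ hz
  have hsz : Function.update p1.1.st z τ z = τ := Function.update_self _ _ _
  have hsx : Function.update p1.1.st z τ x = p1.1.st x := Function.update_of_ne hzx _ _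
  set w0 : Pt Ω ⊕ List ℚ := if x.1 < δ then Sum.inr τ else Sum.inl z with hw0
  have hlocw : loc (Function.update p1.1.st z τ) w0 = τ := by
    rw [hw0]
    split_ifs
    · rfl
    · exact hsz
  obtain ⟨q, hq, hqs, hqT⟩ := exists_add p1 (Function.update p1.1.st z τ) hu1 hu2 α (x, w0)
    (by
      intro z' hz'
      simp only [hw0] at hz'
      split_ifs at hz' with h1
      simp only [Sum.inl.injEq] at hz'
      subst hz'
      exact ⟨hz1.symm, by rw [hδ]; exact not_lt.1 h1, by rw [hsz]; exact hτ0⟩)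
    (by
      intro σ hσ
      simp only [hw0] at hσ
      split_ifs at hσ with h1
      simp only [Sum.inr.injEq] at hσ
      subst hσ
      exact ⟨by rw [hδ]; exact h1, hτ0⟩)
    (by
      intro j hj
      rcases hcmp j hj with h1 | h1
      · left
        refine ⟨?_, .inl ?_⟩
        · simp only [hlocw]
          exact (hτB _ ⟨j, hj, rfl, h1⟩).mono List.prefix_rfl (loc_mono hu1 _)
        · exact h1.mono (hu1 _) (hu1 _)
      · right
        refine ⟨?_, .inl ?_⟩
        · simp only [hlocw]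
          exact (hτA _ ⟨j, hj, rfl, h1⟩).mono (loc_mono hu1 _) List.prefix_rfl
        · exact h1.mono (hu1 _) (hu1 _))
    (h.val (hx.mono hp1))
  refine ⟨q, hq.trans hp1, z, w0, ?_, ?_⟩
  · rw [hqT]; exact Finset.mem_insert_self _ _
  · simp only [hw0]
    split_ifs
    · exact .inr ⟨τ, rfl, by rw [hqs, hsz]⟩
    · exact .inl rfl

end

end Pool.Agent.W914.SA
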