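import Mathlib
import Pool.Agent.W914.SA.Dens

/-!
# Density lemmas for the Aronszajn line
-/

set_option autoImplicit false
set_option linter.unusedSectionVars false

open Classical Cardinal

namespace Pool.Agent.W914.SA

variable {Ω I : Type} [LinearOrder Ω] [WellFoundedLT Ω] [LinearOrder I] {B : Book Ω I}

/-- the relation between items is transitive -/
theorem RR.trans {X : Set (Pt Ω)} {D : Pt Ω → Pt Ω → Ω} {lt : Pt Ω → Pt Ω → Prop}
    (hL : Line X D lt) {b : Ω → Ω} {x1 z1 x2 z2 x3 z3 : Pt Ω} (hx1 : x1 ∈ X) (hz1 : z1 ∈ X)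
    (hx2 : x2 ∈ X) (hz2 : z2 ∈ X) (hx3 : x3 ∈ X) (hz3 : z3 ∈ X)
    (h12 : RR D lt b x1 z1 x2 z2) (h23 : RR D lt b x2 z2 x3 z3) (hz12 : lt z1 z2)
    (hz23 : lt z2 z3) : RR D lt b x1 z1 x3 z3 := by
  have hD := hL.D_trans hz1 hz2 hz3 hz12 hz23
  rcases h12 with ⟨h1, h2⟩ | ⟨h1, h2, h2'⟩
  · subst h1
    rcases h23 with ⟨h3, h4⟩ | ⟨h3, h4, h4'⟩
    · subst h3
      exact .inl ⟨rfl, by rw [hD]; exact h2.min h4⟩
    · refine .inr ⟨h3, ?_, ?_⟩
      · rw [hD]
        exact ((Le.of_le (hL.le_left hx1 hx3)).trans h2).min h4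
      · rw [hD]
        exact (Le.of_le (min_le_right _ _)).trans h4'
  · rcases h23 with ⟨h3, h4⟩ | ⟨h3, h4, h4'⟩
    · subst h3
      refine .inr ⟨h1, ?_, ?_⟩
      · rw [hD]
        exact h2.min ((Le.of_le (hL.le_right hx1 hx2)).trans h4)
      · rw [hD]
        exact (Le.of_le (min_le_left _ _)).trans h2'
    · have hD' := hL.D_trans hx1 hx2 hx3 h1 h3
      refine .inr ⟨hL.trans hx1 hx2 hx3 h1 h3, ?_, ?_⟩
      · rw [hD, hD']
        exact ((Le.of_le (min_le_left _ _)).trans h2).min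
          ((Le.of_le (min_le_right _ _)).trans h4)
      · rw [hD, hD']
        exact ((Le.of_le (min_le_left _ _)).trans h2').min
          ((Le.of_le (min_le_right _ _)).trans h4')

section

variable {α : I} {N : Pt Ω → ℕ → Option (Raw Ω I)} {δ : Ω} {b : Ω → Ω}

theorem Attached.inU (h : Attached B α N δ b) {p : Cond B} {x z : Pt Ω}
    (hx : (α, (x, z)) ∈ p.1.U) : In N p x := by
  obtain ⟨n, c, h1, h2⟩ := p.2.uval _ _ _ hx
  exact ⟨n, c, by rw [h.eq] at h1; exact h1, (le_res _ _).trans h2⟩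

/-- forgetting the new items from `α` on -/
theorem Attached.reduce (h : Attached B α N δ b) {p q : Cond B} (hq : q ≤ p) :
    ∃ G ≤ p, G.1.X = q.1.X ∧ G.1.D = q.1.D ∧ G.1.lt = q.1.lt ∧
      (∀ i, (α, i) ∈ G.1.U ↔ (α, i) ∈ p.1.U) ∧ ∀ k, In N q k → In N G k := by
  refine ⟨⟨glue q.1 p.1 α, q.2.glue p.2 hq α⟩, glue_le hq α, rfl, rfl, rfl,
    fun i => mem_glueU_self, ?_⟩
  rintro k ⟨n, c, h1, h2⟩
  exact ⟨n, c, h1, h.le_of_res h1 h2 (glue_le_res α)⟩

/-- the final step: adding an item which fits to its neighbours -/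
theorem Attached.finish (h : Attached B α N δ b) (p : Cond B) {k z : Pt Ω} (hk : k ∈ p.1.X)
    (hz : z ∈ p.1.X) (hN : In N p k) (hle : Le b k.1 z.1) (hnot : ∀ x, (α, (x, z)) ∉ p.1.U)
    (hl : (∀ x' z', (α, (x', z')) ∈ p.1.U → ¬ p.1.lt z' z) ∨
      ∃ xl zl, (α, (xl, zl)) ∈ p.1.U ∧ p.1.lt zl z ∧ (∀ x' z', (α, (x', z')) ∈ p.1.U →
        p.1.lt z' z → z' = zl ∨ p.1.lt z' zl) ∧ RR p.1.D p.1.lt b xl zl k z)
    (hr : (∀ x' z', (α, (x', z')) ∈ p.1.U → ¬ p.1.lt z z') ∨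
      ∃ xr zr, (α, (xr, zr)) ∈ p.1.U ∧ p.1.lt z zr ∧ (∀ x' z', (α, (x', z')) ∈ p.1.U →
        p.1.lt z z' → z' = zr ∨ p.1.lt zr z') ∧ RR p.1.D p.1.lt b k z xr zr) :
    ∃ q ≤ p, (α, (k, z)) ∈ q.1.U := by
  have hb : (B α).2.2 = b := by rw [h.eq]
  refine exists_addU p α k z hk hz (by rw [hb]; exact hle) hnot ?_ ?_ ?_
  · intro x' z' hi hlt
    rw [hb]
    rcases hl with hl | ⟨xl, zl, hl1, hl2, hl3, hl4⟩
    · exact absurd hlt (hl x' z' hi)
    · obtain ⟨a1, a2⟩ := p.2.uX _ _ _ hi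
      obtain ⟨a3, a4⟩ := p.2.uX _ _ _ hl1
      rcases hl3 x' z' hi hlt with h1 | h1
      · subst h1
        rw [p.2.uFun _ _ _ _ hi hl1]
        exact hl4
      · have h2 := p.2.uRR _ _ _ _ _ hi hl1 h1
        rw [hb] at h2
        exact h2.trans p.2.line a1 a2 a3 a4 hk hz hl4 h1 hl2
  · intro x' z' hi hlt
    rw [hb]
    rcases hr with hr | ⟨xr, zr, hr1, hr2, hr3, hr4⟩
    · exact absurd hlt (hr x' z' hi)
    · obtain ⟨a1, a2⟩ := p.2.uX _ _ _ hi
      obtain ⟨a3, a4⟩ := p.2.uX _ _ _ hr1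
      rcases hr3 x' z' hi hlt with h1 | h1
      · subst h1
        rw [p.2.uFun _ _ _ _ hi hr1]
        exact hr4
      · have h2 := p.2.uRR _ _ _ _ _ hr1 hi h1
        rw [hb] at h2
        exact hr4.trans p.2.line hk hz a3 a4 a1 a2 h2 hr2 h1
  · obtain ⟨n, c, h1, h2⟩ := hN
    exact ⟨n, c, by rw [h.eq]; exact h1, h.le_of_res h1 h2 le_rfl⟩

/-- the step towards a neighbour -/
theorem Attached.step (hΩ : IsOmega Ω) (h : Attached B α N δ b) (p : Cond B) (s : Bool)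
    {x1 z1 : Pt Ω} (hi : (α, (x1, z1)) ∈ p.1.U) (d η0 : Ω) (hη0 : Le b η0 d) :
    ∃ q ≤ p, (∀ i, (α, i) ∈ q.1.U ↔ (α, i) ∈ p.1.U) ∧ ∃ k ∈ q.1.X, In N q k ∧ Le b k.1 d ∧
      (k = x1 ∨ (ltS s q.1 x1 k ∧ d < q.1.D x1 k ∧ η0 < q.1.D x1 k ∧ Le b (q.1.D x1 k) d)) := by
  obtain ⟨hx1, -⟩ := p.2.uX _ _ _ hi
  obtain ⟨γ, hγ1, hγ2, hγ3⟩ := exists_next hΩ b d
  obtain ⟨q, hq, k, hk, hkN, hkγ, hkx⟩ := h.reflU.kp s γ (max d η0) hγ1
    (max_lt hγ2 (hη0.lt hγ1 hγ2)) p x1 (h.inU hi) hx1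
  obtain ⟨G, hG, hGX, hGD, hGlt, hGU, hGN⟩ := h.reduce hq
  refine ⟨G, hG, hGU, k, by rw [hGX]; exact hk, hGN k hkN, hγ3 _ hkγ, ?_⟩
  rcases hkx with h1 | ⟨h1, h2⟩
  · exact .inl h1
  · refine .inr ⟨?_, ?_, ?_, ?_⟩
    · unfold ltS at h1 ⊢
      rw [hGlt]; exact h1
    · rw [hGD]; exact (le_max_left _ _).trans_lt h2
    · rw [hGD]; exact (le_max_right _ _).trans_lt h2
    · rw [hGD]
      exact hγ3 _ ((q.2.line.le_right (Raw.le_X hq hx1) hk).trans_lt hkγ)

theorem finite_itemsU (p : Cond B) (α : I) : {z | ∃ x, (α, (x, z)) ∈ p.1.U}.Finite := by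
  refine ((p.1.U.finite_toSet).image fun t => t.2.2).subset ?_
  rintro z ⟨x, hx⟩
  exact ⟨(α, (x, z)), hx, rfl⟩

/-- the rightmost item with a given property -/
theorem exists_right (p : Cond B) (α : I) (P : Pt Ω → Pt Ω → Prop)
    (hne : ∃ x z, (α, (x, z)) ∈ p.1.U ∧ P x z) :
    ∃ x z, (α, (x, z)) ∈ p.1.U ∧ P x z ∧ ∀ x' z', (α, (x', z')) ∈ p.1.U → P x' z' →
      z' = z ∨ p.1.lt z' z := by
  have hsub : {z | ∃ x, (α, (x, z)) ∈ p.1.U ∧ P x z} ⊆ {z | ∃ x, (α, (x, z)) ∈ p.1.U} := by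
    rintro z ⟨x, hx, -⟩
    exact ⟨x, hx⟩
  have hXs : ∀ z ∈ {z | ∃ x, (α, (x, z)) ∈ p.1.U ∧ P x z}, z ∈ p.1.X := by
    rintro z ⟨x, hx, -⟩
    exact (p.2.uX _ _ _ hx).2
  obtain ⟨m, ⟨x, hx, hP⟩, hm⟩ := exists_last (fun z z' => z ∈ p.1.X ∧ z' ∈ p.1.X ∧ p.1.lt z z')
    (fun x y z h1 h2 => ⟨h1.1, h2.2.1, p.2.line.trans h1.1 h1.2.1 h2.2.1 h1.2.2 h2.2.2⟩)
    {z | ∃ x, (α, (x, z)) ∈ p.1.U ∧ P x z} ((finite_itemsU p α).subset hsub)
    (by obtain ⟨x, z, h1, h2⟩ := hne; exact ⟨z, x, h1, h2⟩)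
    (fun x hx y hy => by
      rcases eq_or_ne x y with h | h
      · exact .inl h
      · rcases p.2.line.total (hXs x hx) (hXs y hy) h with h | h
        · exact .inr (.inl ⟨hXs x hx, hXs y hy, h⟩)
        · exact .inr (.inr ⟨hXs y hy, hXs x hx, h⟩))
  refine ⟨x, m, hx, hP, fun x' z' h1 h2 => ?_⟩
  rcases hm z' ⟨x', h1, h2⟩ with h3 | h3
  · exact .inl h3
  · exact .inr h3.2.2

/-- the leftmost item with a given property -/
theorem exists_left (p : Cond B) (α : I) (P : Pt Ω → Pt Ω → Prop)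
    (hne : ∃ x z, (α, (x, z)) ∈ p.1.U ∧ P x z) :
    ∃ x z, (α, (x, z)) ∈ p.1.U ∧ P x z ∧ ∀ x' z', (α, (x', z')) ∈ p.1.U → P x' z' →
      z' = z ∨ p.1.lt z z' := by
  have hsub : {z | ∃ x, (α, (x, z)) ∈ p.1.U ∧ P x z} ⊆ {z | ∃ x, (α, (x, z)) ∈ p.1.U} := by
    rintro z ⟨x, hx, -⟩
    exact ⟨x, hx⟩
  have hXs : ∀ z ∈ {z | ∃ x, (α, (x, z)) ∈ p.1.U ∧ P x z}, z ∈ p.1.X := by
    rintro z ⟨x, hx, -⟩
    exact (p.2.uX _ _ _ hx).2
  obtain ⟨m, ⟨x, hx, hP⟩, hm⟩ := exists_last (fun z z' => z ∈ p.1.X ∧ z' ∈ p.1.X ∧ p.1.lt z' z)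
    (fun x y z h1 h2 => ⟨h1.1, h2.2.1, p.2.line.trans h2.2.1 h1.2.1 h1.1 h2.2.2 h1.2.2⟩)
    {z | ∃ x, (α, (x, z)) ∈ p.1.U ∧ P x z} ((finite_itemsU p α).subset hsub)
    (by obtain ⟨x, z, h1, h2⟩ := hne; exact ⟨z, x, h1, h2⟩)
    (fun x hx y hy => by
      rcases eq_or_ne x y with h | h
      · exact .inl h
      · rcases p.2.line.total (hXs x hx) (hXs y hy) h with h | h
        · exact .inr (.inr ⟨hXs y hy, hXs x hx, h⟩)
        · exact .inr (.inl ⟨hXs x hx, hXs y hy, h⟩))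
  refine ⟨x, m, hx, hP, fun x' z' h1 h2 => ?_⟩
  rcases hm z' ⟨x', h1, h2⟩ with h3 | h3
  · exact .inl h3
  · exact .inr h3.2.2

/-- the map is defined everywhere -/
theorem Attached.totalU (hΩ : IsOmega Ω) (h : Attached B α N δ b) (p0 : Cond B)
    (hp0 : ∀ q ≤ p0, ∃ q' ≤ q, ∃ k, In N q' k) (z : Pt Ω) :
    ∃ q ≤ p0, ∃ x, (α, (x, z)) ∈ q.1.U := by
  obtain ⟨p, hpp0, hzX, -⟩ := exists_mem p0 z
  by_cases hcov : ∃ x, (α, (x, z)) ∈ p.1.U
  · obtain ⟨x, hx⟩ := hcov
    exact ⟨p, hpp0, x, hx⟩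
  push Not at hcov
  have hb : (B α).2.2 = b := by rw [h.eq]
  have hzne : ∀ x' z', (α, (x', z')) ∈ p.1.U → z' ≠ z := by
    rintro x' z' h1 rfl
    exact hcov x' h1
  have hside : ∀ x' z', (α, (x', z')) ∈ p.1.U → p.1.lt z' z ∨ p.1.lt z z' := fun x' z' h1 =>
    p.2.line.total (p.2.uX _ _ _ h1).2 hzX (hzne x' z' h1)
  -- it suffices to find a stronger condition with the same items
  suffices hs : ∃ q ≤ p, (∀ i, (α, i) ∈ q.1.U ↔ (α, i) ∈ p.1.U) ∧ ∃ k ∈ q.1.X, In N q k ∧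
      Le b k.1 z.1 ∧
      (∀ xl zl, (α, (xl, zl)) ∈ p.1.U → p.1.lt zl z → (∀ x' z', (α, (x', z')) ∈ p.1.U →
        p.1.lt z' z → z' = zl ∨ p.1.lt z' zl) → RR q.1.D q.1.lt b xl zl k z) ∧
      (∀ xr zr, (α, (xr, zr)) ∈ p.1.U → p.1.lt z zr → (∀ x' z', (α, (x', z')) ∈ p.1.U →
        p.1.lt z z' → z' = zr ∨ p.1.lt zr z') → RR q.1.D q.1.lt b k z xr zr) by
    obtain ⟨q, hq, hqU, k, hk, hkN, hkz, hl, hr⟩ := hs
    have hzq : z ∈ q.1.X := Raw.le_X hq hzX
    have hltq : ∀ {x' z'}, (α, (x', z')) ∈ p.1.U → (q.1.lt z' z ↔ p.1.lt z' z) := fun h1 =>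
      Raw.le_lt hq (p.2.uX _ _ _ h1).2 hzX
    have hltq' : ∀ {x' z'}, (α, (x', z')) ∈ p.1.U → (q.1.lt z z' ↔ p.1.lt z z') := fun h1 =>
      Raw.le_lt hq hzX (p.2.uX _ _ _ h1).2
    obtain ⟨r, hr1, hr2⟩ := h.finish q hk hzq hkN hkz (fun x hx => hcov x ((hqU _).1 hx))
      (by
        by_cases hne : ∃ x' z', (α, (x', z')) ∈ p.1.U ∧ p.1.lt z' z
        · right
          obtain ⟨xl, zl, h1, h2, h3⟩ := exists_right p α (fun _ z' => p.1.lt z' z) hne
          refine ⟨xl, zl, (hqU _).2 h1, (hltq h1).2 h2, fun x' z' h4 h5 => ?_, hl xl zl h1 h2 h3⟩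
          have h4' := (hqU _).1 h4
          rcases h3 x' z' h4' ((hltq h4').1 h5) with h6 | h6
          · exact .inl h6
          · exact .inr ((Raw.le_lt hq (p.2.uX _ _ _ h4').2 (p.2.uX _ _ _ h1).2).2 h6)
        · left
          push Not at hne
          intro x' z' h1 h2
          have h1' := (hqU _).1 h1
          exact hne x' z' h1' ((hltq h1').1 h2))
      (by
        by_cases hne : ∃ x' z', (α, (x', z')) ∈ p.1.U ∧ p.1.lt z z'
        · right
          obtain ⟨xl, zl, h1, h2, h3⟩ := exists_left p α (fun _ z' => p.1.lt z z') hne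
          refine ⟨xl, zl, (hqU _).2 h1, (hltq' h1).2 h2, fun x' z' h4 h5 => ?_, hr xl zl h1 h2 h3⟩
          have h4' := (hqU _).1 h4
          rcases h3 x' z' h4' ((hltq' h4').1 h5) with h6 | h6
          · exact .inl h6
          · exact .inr ((Raw.le_lt hq (p.2.uX _ _ _ h1).2 (p.2.uX _ _ _ h4').2).2 h6)
        · left
          push Not at hne
          intro x' z' h1 h2
          have h1' := (hqU _).1 h1
          exact hne x' z' h1' ((hltq' h1').1 h2))
    exact ⟨r, (hr1.trans hq).trans hpp0, k, hr2⟩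
  -- uniqueness of the neighbours
  have huL : ∀ {xl zl xl' zl'}, (α, (xl, zl)) ∈ p.1.U → p.1.lt zl z →
      (∀ x' z', (α, (x', z')) ∈ p.1.U → p.1.lt z' z → z' = zl ∨ p.1.lt z' zl) →
      (α, (xl', zl')) ∈ p.1.U → p.1.lt zl' z →
      (∀ x' z', (α, (x', z')) ∈ p.1.U → p.1.lt z' z → z' = zl' ∨ p.1.lt z' zl') →
      zl = zl' ∧ xl = xl' := by
    intro xl zl xl' zl' h1 h2 h3 h1' h2' h3'
    have hz : zl = zl' := by
      rcases h3 _ _ h1' h2' with h4 | h4
      · exact h4.symm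
      · rcases h3' _ _ h1 h2 with h5 | h5
        · exact h5
        · exact absurd h5 (p.2.line.asymm (p.2.uX _ _ _ h1').2 (p.2.uX _ _ _ h1).2 h4)
    subst hz
    exact ⟨rfl, p.2.uFun _ _ _ _ h1 h1'⟩
  have huR : ∀ {xl zl xl' zl'}, (α, (xl, zl)) ∈ p.1.U → p.1.lt z zl →
      (∀ x' z', (α, (x', z')) ∈ p.1.U → p.1.lt z z' → z' = zl ∨ p.1.lt zl z') →
      (α, (xl', zl')) ∈ p.1.U → p.1.lt z zl' →
      (∀ x' z', (α, (x', z')) ∈ p.1.U → p.1.lt z z' → z' = zl' ∨ p.1.lt zl' z') →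
      zl = zl' ∧ xl = xl' := by
    intro xl zl xl' zl' h1 h2 h3 h1' h2' h3'
    have hz : zl = zl' := by
      rcases h3 _ _ h1' h2' with h4 | h4
      · exact h4.symm
      · rcases h3' _ _ h1 h2 with h5 | h5
        · exact h5
        · exact absurd h5 (p.2.line.asymm (p.2.uX _ _ _ h1).2 (p.2.uX _ _ _ h1').2 h4)
    subst hz
    exact ⟨rfl, p.2.uFun _ _ _ _ h1 h1'⟩
  by_cases hL : ∃ x' z', (α, (x', z')) ∈ p.1.U ∧ p.1.lt z' z
  · obtain ⟨xl, zl, hl1, hl2, hl3⟩ := exists_right p α (fun _ z' => p.1.lt z' z) hL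
    obtain ⟨hxlX, hzlX⟩ := p.2.uX _ _ _ hl1
    have hsl : p.1.D z zl = p.1.D zl z := p.2.line.symm hzX hzlX
    by_cases hR : ∃ x' z', (α, (x', z')) ∈ p.1.U ∧ p.1.lt z z'
    · obtain ⟨xr, zr, hr1, hr2, hr3⟩ := exists_left p α (fun _ z' => p.1.lt z z') hR
      obtain ⟨hxrX, hzrX⟩ := p.2.uX _ _ _ hr1
      have hlr := p.2.line.trans hzlX hzX hzrX hl2 hr2
      have hDlr := p.2.line.D_trans hzlX hzX hzrX hl2 hr2
      have hrr := p.2.uRR _ _ _ _ _ hl1 hr1 hlr
      rw [hb] at hrr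
      rcases hrr with ⟨h1, h2⟩ | ⟨h1, h2, h2'⟩
      · -- both neighbours have the same value
        rw [hDlr] at h2
        have h3 : Le b xl.1 (p.1.D zl z) := h2.trans (Le.of_le (min_le_left _ _))
        have h4 : Le b xl.1 (p.1.D z zr) := h2.trans (Le.of_le (min_le_right _ _))
        refine ⟨p, le_rfl, fun _ => Iff.rfl, xl, hxlX, h.inU hl1,
          h3.trans (Le.of_le (p.2.line.le_right hzlX hzX)), ?_, ?_⟩
        · intro xl' zl' a1 a2 a3
          obtain ⟨rfl, rfl⟩ := huL hl1 hl2 hl3 a1 a2 a3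
          exact .inl ⟨rfl, h3⟩
        · intro xr' zr' a1 a2 a3
          obtain ⟨rfl, rfl⟩ := huR hr1 hr2 hr3 a1 a2 a3
          exact .inl ⟨h1, h4⟩
      · rw [hDlr] at h2 h2'
        rcases le_or_gt (p.1.D zl z) (p.1.D z zr) with hc | hc
        · rw [min_eq_left hc] at h2 h2'
          obtain ⟨q, hq, hqU, k, hk, hkN, hkd, hkx⟩ := h.step hΩ p false hr1 (p.1.D z zr)
            (p.1.D xl xr) (h2.trans (Le.of_le hc))
          have hql : q.1.D zl z = p.1.D zl z := Raw.le_D hq hzlX hzX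
          have hqr : q.1.D z zr = p.1.D z zr := Raw.le_D hq hzX hzrX
          have hqx : q.1.D xl xr = p.1.D xl xr := Raw.le_D hq hxlX hxrX
          have hqlt : q.1.lt xl xr := (Raw.le_lt hq hxlX hxrX).2 h1
          have hxlq := Raw.le_X hq hxlX
          have hxrq := Raw.le_X hq hxrX
          refine ⟨q, hq, hqU, k, hk, hkN, hkd.trans (Le.of_le (p.2.line.le_left hzX hzrX)),
            ?_, ?_⟩
          · intro xl' zl' a1 a2 a3
            obtain ⟨rfl, rfl⟩ := huL hl1 hl2 hl3 a1 a2 a3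
            right
            rcases hkx with h5 | ⟨h5, h6, h7, h8⟩
            · rw [h5, hql, hqx]
              exact ⟨hqlt, h2, h2'⟩
            · have h9 : q.1.D xl xr < q.1.D k xr := by
                rw [q.2.line.symm hk hxrq, hqx]; exact h7
              obtain ⟨h10, h11⟩ := q.2.line.closer hxlq hxrq hk hqlt h9
              rw [hql, h11, hqx]
              exact ⟨h10, h2, h2'⟩
          · intro xr' zr' a1 a2 a3
            obtain ⟨rfl, rfl⟩ := huR hr1 hr2 hr3 a1 a2 a3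
            rcases hkx with h5 | ⟨h5, h6, h7, h8⟩
            · left
              refine ⟨h5, ?_⟩
              rw [hqr]; exact hkd
            · right
              rw [hqr, q.2.line.symm hk hxrq]
              exact ⟨by simpa [ltS] using h5, h8, Le.of_le h6.le⟩
        · rw [min_eq_right hc.le] at h2 h2'
          obtain ⟨q, hq, hqU, k, hk, hkN, hkd, hkx⟩ := h.step hΩ p true hl1 (p.1.D zl z)
            (p.1.D xl xr) (h2.trans (Le.of_le hc.le))
          have hql : q.1.D zl z = p.1.D zl z := Raw.le_D hq hzlX hzX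
          have hqr : q.1.D z zr = p.1.D z zr := Raw.le_D hq hzX hzrX
          have hqx : q.1.D xl xr = p.1.D xl xr := Raw.le_D hq hxlX hxrX
          have hqlt : q.1.lt xl xr := (Raw.le_lt hq hxlX hxrX).2 h1
          have hxlq := Raw.le_X hq hxlX
          have hxrq := Raw.le_X hq hxrX
          refine ⟨q, hq, hqU, k, hk, hkN, hkd.trans (Le.of_le (p.2.line.le_right hzlX hzX)),
            ?_, ?_⟩
          · intro xl' zl' a1 a2 a3
            obtain ⟨rfl, rfl⟩ := huL hl1 hl2 hl3 a1 a2 a3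
            rcases hkx with h5 | ⟨h5, h6, h7, h8⟩
            · left
              refine ⟨h5.symm, ?_⟩
              rw [hql, ← h5]; exact hkd
            · right
              rw [hql]
              exact ⟨by simpa [ltS] using h5, h8, Le.of_le h6.le⟩
          · intro xr' zr' a1 a2 a3
            obtain ⟨rfl, rfl⟩ := huR hr1 hr2 hr3 a1 a2 a3
            right
            rcases hkx with h5 | ⟨h5, h6, h7, h8⟩
            · rw [h5, hqr, hqx]
              exact ⟨hqlt, h2, h2'⟩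
            · have h9 : q.1.D xr xl < q.1.D k xl := by
                rw [q.2.line.symm hk hxlq, q.2.line.symm hxrq hxlq, hqx]; exact h7
              obtain ⟨h10, h11⟩ := q.2.line.flip.closer hxrq hxlq hk hqlt h9
              rw [hqr, q.2.line.symm hk hxrq, h11, q.2.line.symm hxrq hxlq, hqx]
              exact ⟨h10, h2, h2'⟩
    · -- no right neighbour
      push Not at hR
      obtain ⟨q, hq, hqU, k, hk, hkN, hkd, hkx⟩ := h.step hΩ p true hl1 (p.1.D zl z)
        (p.1.D zl z) (Le.refl _ _)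
      have hql : q.1.D zl z = p.1.D zl z := Raw.le_D hq hzlX hzX
      refine ⟨q, hq, hqU, k, hk, hkN, hkd.trans (Le.of_le (p.2.line.le_right hzlX hzX)),
        ?_, fun xr zr a1 a2 _ => absurd a2 (hR xr zr a1)⟩
      intro xl' zl' a1 a2 a3
      obtain ⟨rfl, rfl⟩ := huL hl1 hl2 hl3 a1 a2 a3
      rcases hkx with h5 | ⟨h5, h6, h7, h8⟩
      · left
        refine ⟨h5.symm, ?_⟩
        rw [hql, ← h5]; exact hkd
      · right
        rw [hql]
        exact ⟨by simpa [ltS] using h5, h8, Le.of_le h6.le⟩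
  · push Not at hL
    by_cases hR : ∃ x' z', (α, (x', z')) ∈ p.1.U ∧ p.1.lt z z'
    · obtain ⟨xr, zr, hr1, hr2, hr3⟩ := exists_left p α (fun _ z' => p.1.lt z z') hR
      obtain ⟨hxrX, hzrX⟩ := p.2.uX _ _ _ hr1
      obtain ⟨q, hq, hqU, k, hk, hkN, hkd, hkx⟩ := h.step hΩ p false hr1 (p.1.D z zr)
        (p.1.D z zr) (Le.refl _ _)
      have hqr : q.1.D z zr = p.1.D z zr := Raw.le_D hq hzX hzrX
      have hxrq := Raw.le_X hq hxrX
      refine ⟨q, hq, hqU, k, hk, hkN, hkd.trans (Le.of_le (p.2.line.le_left hzX hzrX)),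
        fun xl zl a1 a2 _ => absurd a2 (hL xl zl a1), ?_⟩
      intro xr' zr' a1 a2 a3
      obtain ⟨rfl, rfl⟩ := huR hr1 hr2 hr3 a1 a2 a3
      rcases hkx with h5 | ⟨h5, h6, h7, h8⟩
      · left
        refine ⟨h5, ?_⟩
        rw [hqr]; exact hkd
      · right
        rw [hqr, q.2.line.symm hk hxrq]
        exact ⟨by simpa [ltS] using h5, h8, Le.of_le h6.le⟩
    · -- no items at all
      push Not at hR
      obtain ⟨γ, hγ1, hγ2, hγ3⟩ := exists_next hΩ b z.1
      obtain ⟨q0, hq0, k0, hk0⟩ := hp0 p hpp0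
      obtain ⟨q1, hq1, k, hk, hkγ⟩ := h.reflU.k0 γ z.1 hγ1 hγ2 q0 k0 hk0
      obtain ⟨q2, hq2, hkX, -⟩ := exists_mem q1 k
      obtain ⟨G, hG, hGX, -, -, hGU, hGN⟩ := h.reduce ((hq2.trans hq1).trans hq0)
      exact ⟨G, hG, hGU, k, by rw [hGX]; exact hkX, hGN k (hk.mono hq2), hγ3 _ hkγ,
        fun xl zl a1 a2 _ => absurd a2 (hL xl zl a1), fun xr zr a1 a2 _ => absurd a2 (hR xr zr a1)⟩

/-- every element of the set is a value -/
theorem Attached.ontoU (h : Attached B α N δ b) (p0 : Cond B) (k : Pt Ω) (hk0 : In N p0 k) :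
    ∃ q ≤ p0, ∃ z, (α, (k, z)) ∈ q.1.U := by
  obtain ⟨p, hpp0, hkX, -⟩ := exists_mem p0 k
  have hkN : In N p k := hk0.mono hpp0
  have hb : (B α).2.2 = b := by rw [h.eq]
  by_cases hval : ∃ z, (α, (k, z)) ∈ p.1.U
  · obtain ⟨z, hz⟩ := hval
    exact ⟨p, hpp0, z, hz⟩
  push Not at hval
  suffices hs : ∃ q ≤ p, ∃ z, (α, (k, z)) ∈ q.1.U by
    obtain ⟨q, hq, hz⟩ := hs
    exact ⟨q, hq.trans hpp0, hz⟩
  have hside : ∀ x' z', (α, (x', z')) ∈ p.1.U → p.1.lt x' k ∨ p.1.lt k x' := by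
    intro x' z' h1
    refine p.2.line.total (p.2.uX _ _ _ h1).1 hkX ?_
    rintro rfl
    exact hval z' h1
  have fresh : ∀ l : Ω, ∃ z : Pt Ω, z.1 = l ∧ z ∉ p.1.X := by
    intro l
    have h1 : {n : ℕ | (l, n) ∈ p.1.X}.Finite :=
      p.1.X.finite_toSet.preimage (fun a _ b _ hab => congrArg Prod.snd hab)
    obtain ⟨n, hn⟩ := h1.infinite_compl.nonempty
    exact ⟨(l, n), rfl, hn⟩
  -- values and points are in the same order
  have hord : ∀ x z x' z', (α, (x, z)) ∈ p.1.U → (α, (x', z')) ∈ p.1.U → p.1.lt x x' →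
      p.1.lt z z' := by
    intro x z x' z' h1 h2 hlt
    obtain ⟨a1, a2⟩ := p.2.uX _ _ _ h1
    obtain ⟨a3, a4⟩ := p.2.uX _ _ _ h2
    rcases eq_or_ne z z' with h3 | h3
    · subst h3
      rw [p.2.uFun _ _ _ _ h1 h2] at hlt
      exact absurd hlt (p.2.line.irrefl a3)
    · rcases p.2.line.total a2 a4 h3 with h4 | h4
      · exact h4
      · rcases p.2.uRR _ _ _ _ _ h2 h1 h4 with h5 | h5
        · rw [h5.1] at hlt
          exact absurd hlt (p.2.line.irrefl a1)
        · exact absurd hlt (p.2.line.asymm a3 a1 h5.1)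
  -- the last step
  have last : ∀ (q : Cond B) (z : Pt Ω), q ≤ p → q.1.U = p.1.U → z ∉ p.1.X → z ∈ q.1.X →
      Le b k.1 z.1 →
      ((∀ x' z', (α, (x', z')) ∈ p.1.U → ¬ q.1.lt z' z) ∨
        ∃ xl zl, (α, (xl, zl)) ∈ p.1.U ∧ q.1.lt zl z ∧ (∀ x' z', (α, (x', z')) ∈ p.1.U →
          q.1.lt z' z → z' = zl ∨ q.1.lt z' zl) ∧ RR q.1.D q.1.lt b xl zl k z) →
      ((∀ x' z', (α, (x', z')) ∈ p.1.U → ¬ q.1.lt z z') ∨
        ∃ xr zr, (α, (xr, zr)) ∈ p.1.U ∧ q.1.lt z zr ∧ (∀ x' z', (α, (x', z')) ∈ p.1.U →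
          q.1.lt z z' → z' = zr ∨ q.1.lt zr z') ∧ RR q.1.D q.1.lt b k z xr zr) →
      ∃ q ≤ p, ∃ z, (α, (k, z)) ∈ q.1.U := by
    intro q z hq hqU hzp hzq hle hl hr
    obtain ⟨r, hr1, hr2⟩ := h.finish q (Raw.le_X hq hkX) hzq (hkN.mono hq) hle
      (fun x hx => hzp (p.2.uX _ _ _ (hqU ▸ hx)).2) (by rw [hqU]; exact hl)
      (by rw [hqU]; exact hr)
    exact ⟨r, hr1.trans hq, z, hr2⟩
  by_cases hL : ∃ x' z', (α, (x', z')) ∈ p.1.U ∧ p.1.lt x' k
  · obtain ⟨xl, zl, hl1, hl2, hl3⟩ := exists_right p α (fun x' _ => p.1.lt x' k) hL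
    obtain ⟨hxlX, hzlX⟩ := p.2.uX _ _ _ hl1
    have hxzl : Le b xl.1 zl.1 := hb ▸ p.2.uLe _ _ _ hl1
    by_cases hR : ∃ x' z', (α, (x', z')) ∈ p.1.U ∧ p.1.lt k x'
    · obtain ⟨xr, zr, hr1, hr2, hr3⟩ := exists_left p α (fun x' _ => p.1.lt k x') hR
      obtain ⟨hxrX, hzrX⟩ := p.2.uX _ _ _ hr1
      have hxzr : Le b xr.1 zr.1 := hb ▸ p.2.uLe _ _ _ hr1
      have hxlr := p.2.line.trans hxlX hkX hxrX hl2 hr2
      have hDx := p.2.line.D_trans hxlX hkX hxrX hl2 hr2
      have hzlr := hord _ _ _ _ hl1 hr1 hxlr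
      have hrr := p.2.uRR _ _ _ _ _ hl1 hr1 hzlr
      rw [hb] at hrr
      have hrr' : Le b (p.1.D xl xr) (p.1.D zl zr) ∧ Le b (p.1.D zl zr) (p.1.D xl xr) := by
        rcases hrr with h1 | h1
        · rw [h1.1] at hxlr
          exact absurd hxlr (p.2.line.irrefl hxrX)
        · exact h1.2
      obtain ⟨g1, g2⟩ := hrr'
      rcases le_or_gt (p.1.D k xr) (p.1.D xl k) with hc | hc
      · -- insert to the right of `zl`
        rw [hDx, min_eq_right hc] at g1 g2
        set a := max (min (p.1.D xl k) zl.1) (p.1.D zl zr) with ha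
        have ha1 : a ≤ zl.1 := max_le (min_le_right _ _) (p.2.line.le_left hzlX hzrX)
        have ha2 : Le b (p.1.D xl k) a := by
          have h1 : Le b (p.1.D xl k) (min (p.1.D xl k) zl.1) :=
            (Le.refl _ _).min ((Le.of_le (p.2.line.le_left hxlX hkX)).trans hxzl)
          exact h1.trans (Le.of_le (le_max_left _ _))
        have ha3 : Le b a (p.1.D xl k) := by
          rcases max_choice (min (p.1.D xl k) zl.1) (p.1.D zl zr) with h1 | h1
          · rw [ha, h1]; exact Le.of_le (min_le_left _ _)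
          · rw [ha, h1]; exact g2.trans (Le.of_le hc)
        obtain ⟨z, hz1, hz⟩ := fresh (max k.1 zl.1)
        obtain ⟨q, hq, hqX, hqU, hqD, hq1, hq2⟩ := exists_insert p hzlX hz ha1
          (by rw [hz1]; exact ha1.trans (le_max_right _ _))
        have hzq : z ∈ q.1.X := by rw [hqX]; exact Finset.mem_insert_self _ _
        have hzlq := Raw.le_X hq hzlX
        have hzrq := Raw.le_X hq hzrX
        have hDl : q.1.D zl z = a := by
          rw [q.2.line.symm hzlq hzq, hqD zl hzlX, p.2.line.diag hzlX]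
          exact min_eq_left ha1
        have hDr : q.1.D z zr = p.1.D zl zr := by
          rw [hqD zr hzrX]
          exact min_eq_right (le_max_right _ _)
        have hltl : q.1.lt zl z := (hq1 zl hzlX).2 (.inl rfl)
        have hltr : q.1.lt z zr := (hq2 zr hzrX).2 ⟨hzlr, le_max_right _ _⟩
        refine last q z hq hqU hz hzq (by rw [hz1]; exact Le.of_le (le_max_left _ _))
          (.inr ⟨xl, zl, hl1, hltl, ?_, ?_⟩) (.inr ⟨xr, zr, hr1, hltr, ?_, ?_⟩)
        · intro x' z' h1 h2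
          obtain ⟨a1, a2⟩ := p.2.uX _ _ _ h1
          rcases hside x' z' h1 with h3 | h3
          · exact (hl3 x' z' h1 h3).imp id fun h4 => (Raw.le_lt hq a2 hzlX).2 h4
          · exfalso
            have h4 : z' = zr ∨ q.1.lt zr z' := (hr3 x' z' h1 h3).imp id fun h4 =>
              (Raw.le_lt hq hzrX a2).2 h4
            rcases h4 with h4 | h4
            · rw [h4] at h2
              exact q.2.line.asymm hzq hzrq hltr h2
            · exact q.2.line.asymm hzq (Raw.le_X hq a2)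
                (q.2.line.trans hzq hzrq (Raw.le_X hq a2) hltr h4) h2
        · right
          refine ⟨(Raw.le_lt hq hxlX hkX).2 hl2, ?_, ?_⟩
          · rw [hDl, Raw.le_D hq hxlX hkX]; exact ha2
          · rw [hDl, Raw.le_D hq hxlX hkX]; exact ha3
        · intro x' z' h1 h2
          obtain ⟨a1, a2⟩ := p.2.uX _ _ _ h1
          rcases hside x' z' h1 with h3 | h3
          · exfalso
            have h4 : z' = zl ∨ q.1.lt z' zl := (hl3 x' z' h1 h3).imp id fun h4 =>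
              (Raw.le_lt hq a2 hzlX).2 h4
            rcases h4 with h4 | h4
            · rw [h4] at h2
              exact q.2.line.asymm hzlq hzq hltl h2
            · exact q.2.line.asymm (Raw.le_X hq a2) hzq
                (q.2.line.trans (Raw.le_X hq a2) hzlq hzq h4 hltl) h2
          · exact (hr3 x' z' h1 h3).imp id fun h4 => (Raw.le_lt hq hzrX a2).2 h4
        · right
          refine ⟨(Raw.le_lt hq hkX hxrX).2 hr2, ?_, ?_⟩
          · rw [hDr, Raw.le_D hq hkX hxrX]; exact g1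
          · rw [hDr, Raw.le_D hq hkX hxrX]; exact g2
      · -- insert to the left of `zr`
        rw [hDx, min_eq_left hc.le] at g1 g2
        set a := max (min (p.1.D k xr) zr.1) (p.1.D zl zr) with ha
        have ha1 : a ≤ zr.1 := max_le (min_le_right _ _) (p.2.line.le_right hzlX hzrX)
        have ha2 : Le b (p.1.D k xr) a := by
          have h1 : Le b (p.1.D k xr) (min (p.1.D k xr) zr.1) :=
            (Le.refl _ _).min ((Le.of_le (p.2.line.le_right hkX hxrX)).trans hxzr)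
          exact h1.trans (Le.of_le (le_max_left _ _))
        have ha3 : Le b a (p.1.D k xr) := by
          rcases max_choice (min (p.1.D k xr) zr.1) (p.1.D zl zr) with h1 | h1
          · rw [ha, h1]; exact Le.of_le (min_le_left _ _)
          · rw [ha, h1]; exact g2.trans (Le.of_le hc.le)
        obtain ⟨z, hz1, hz⟩ := fresh (max k.1 zr.1)
        obtain ⟨q, hq, hqX, hqU, hqD, hq1, hq2⟩ := exists_insert' p hzrX hz ha1
          (by rw [hz1]; exact ha1.trans (le_max_right _ _))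
        have hzq : z ∈ q.1.X := by rw [hqX]; exact Finset.mem_insert_self _ _
        have hzlq := Raw.le_X hq hzlX
        have hzrq := Raw.le_X hq hzrX
        have hDr : q.1.D z zr = a := by
          rw [hqD zr hzrX, p.2.line.diag hzrX]
          exact min_eq_left ha1
        have hDl : q.1.D zl z = p.1.D zl zr := by
          rw [q.2.line.symm hzlq hzq, hqD zl hzlX, p.2.line.symm hzrX hzlX]
          exact min_eq_right (le_max_right _ _)
        have hltr : q.1.lt z zr := (hq1 zr hzrX).2 (.inl rfl)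
        have hltl : q.1.lt zl z := (hq2 zl hzlX).2 ⟨hzlr, by
          rw [p.2.line.symm hzrX hzlX]; exact le_max_right _ _⟩
        refine last q z hq hqU hz hzq (by rw [hz1]; exact Le.of_le (le_max_left _ _))
          (.inr ⟨xl, zl, hl1, hltl, ?_, ?_⟩) (.inr ⟨xr, zr, hr1, hltr, ?_, ?_⟩)
        · intro x' z' h1 h2
          obtain ⟨a1, a2⟩ := p.2.uX _ _ _ h1
          rcases hside x' z' h1 with h3 | h3
          · exact (hl3 x' z' h1 h3).imp id fun h4 => (Raw.le_lt hq a2 hzlX).2 h4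
          · exfalso
            have h4 : z' = zr ∨ q.1.lt zr z' := (hr3 x' z' h1 h3).imp id fun h4 =>
              (Raw.le_lt hq hzrX a2).2 h4
            rcases h4 with h4 | h4
            · rw [h4] at h2
              exact q.2.line.asymm hzq hzrq hltr h2
            · exact q.2.line.asymm hzq (Raw.le_X hq a2)
                (q.2.line.trans hzq hzrq (Raw.le_X hq a2) hltr h4) h2
        · right
          refine ⟨(Raw.le_lt hq hxlX hkX).2 hl2, ?_, ?_⟩
          · rw [hDl, Raw.le_D hq hxlX hkX]; exact g1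
          · rw [hDl, Raw.le_D hq hxlX hkX]; exact g2
        · intro x' z' h1 h2
          obtain ⟨a1, a2⟩ := p.2.uX _ _ _ h1
          rcases hside x' z' h1 with h3 | h3
          · exfalso
            have h4 : z' = zl ∨ q.1.lt z' zl := (hl3 x' z' h1 h3).imp id fun h4 =>
              (Raw.le_lt hq a2 hzlX).2 h4
            rcases h4 with h4 | h4
            · rw [h4] at h2
              exact q.2.line.asymm hzlq hzq hltl h2
            · exact q.2.line.asymm (Raw.le_X hq a2) hzq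
                (q.2.line.trans (Raw.le_X hq a2) hzlq hzq h4 hltl) h2
          · exact (hr3 x' z' h1 h3).imp id fun h4 => (Raw.le_lt hq hzrX a2).2 h4
        · right
          refine ⟨(Raw.le_lt hq hkX hxrX).2 hr2, ?_, ?_⟩
          · rw [hDr, Raw.le_D hq hkX hxrX]; exact ha2
          · rw [hDr, Raw.le_D hq hkX hxrX]; exact ha3
    · -- all items are to the left
      push Not at hR
      set a := min (p.1.D xl k) zl.1 with ha
      have ha1 : a ≤ zl.1 := min_le_right _ _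
      have ha2 : Le b (p.1.D xl k) a :=
        (Le.refl _ _).min ((Le.of_le (p.2.line.le_left hxlX hkX)).trans hxzl)
      have ha3 : Le b a (p.1.D xl k) := Le.of_le (min_le_left _ _)
      obtain ⟨z, hz1, hz⟩ := fresh (max k.1 zl.1)
      obtain ⟨q, hq, hqX, hqU, hqD, hq1, hq2⟩ := exists_insert p hzlX hz ha1
        (by rw [hz1]; exact ha1.trans (le_max_right _ _))
      have hzq : z ∈ q.1.X := by rw [hqX]; exact Finset.mem_insert_self _ _
      have hzlq := Raw.le_X hq hzlX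
      have hDl : q.1.D zl z = a := by
        rw [q.2.line.symm hzlq hzq, hqD zl hzlX, p.2.line.diag hzlX]
        exact min_eq_left ha1
      have hltl : q.1.lt zl z := (hq1 zl hzlX).2 (.inl rfl)
      have hbelow : ∀ x' z', (α, (x', z')) ∈ p.1.U → z' = zl ∨ q.1.lt z' zl := by
        intro x' z' h1
        obtain ⟨a1, a2⟩ := p.2.uX _ _ _ h1
        rcases hside x' z' h1 with h3 | h3
        · exact (hl3 x' z' h1 h3).imp id fun h4 => (Raw.le_lt hq a2 hzlX).2 h4
        · exact absurd h3 (hR x' z' h1)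
      refine last q z hq hqU hz hzq (by rw [hz1]; exact Le.of_le (le_max_left _ _))
        (.inr ⟨xl, zl, hl1, hltl, fun x' z' h1 _ => hbelow x' z' h1, ?_⟩) (.inl ?_)
      · right
        refine ⟨(Raw.le_lt hq hxlX hkX).2 hl2, ?_, ?_⟩
        · rw [hDl, Raw.le_D hq hxlX hkX]; exact ha2
        · rw [hDl, Raw.le_D hq hxlX hkX]; exact ha3
      · intro x' z' h1 h2
        obtain ⟨a1, a2⟩ := p.2.uX _ _ _ h1
        rcases hbelow x' z' h1 with h4 | h4
        · rw [h4] at h2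
          exact q.2.line.asymm hzlq hzq hltl h2
        · exact q.2.line.asymm (Raw.le_X hq a2) hzq
            (q.2.line.trans (Raw.le_X hq a2) hzlq hzq h4 hltl) h2
  · push Not at hL
    by_cases hR : ∃ x' z', (α, (x', z')) ∈ p.1.U ∧ p.1.lt k x'
    · obtain ⟨xr, zr, hr1, hr2, hr3⟩ := exists_left p α (fun x' _ => p.1.lt k x') hR
      obtain ⟨hxrX, hzrX⟩ := p.2.uX _ _ _ hr1
      have hxzr : Le b xr.1 zr.1 := hb ▸ p.2.uLe _ _ _ hr1
      set a := min (p.1.D k xr) zr.1 with ha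
      have ha1 : a ≤ zr.1 := min_le_right _ _
      have ha2 : Le b (p.1.D k xr) a :=
        (Le.refl _ _).min ((Le.of_le (p.2.line.le_right hkX hxrX)).trans hxzr)
      have ha3 : Le b a (p.1.D k xr) := Le.of_le (min_le_left _ _)
      obtain ⟨z, hz1, hz⟩ := fresh (max k.1 zr.1)
      obtain ⟨q, hq, hqX, hqU, hqD, hq1, hq2⟩ := exists_insert' p hzrX hz ha1
        (by rw [hz1]; exact ha1.trans (le_max_right _ _))
      have hzq : z ∈ q.1.X := by rw [hqX]; exact Finset.mem_insert_self _ _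
      have hzrq := Raw.le_X hq hzrX
      have hDr : q.1.D z zr = a := by
        rw [hqD zr hzrX, p.2.line.diag hzrX]
        exact min_eq_left ha1
      have hltr : q.1.lt z zr := (hq1 zr hzrX).2 (.inl rfl)
      have habove : ∀ x' z', (α, (x', z')) ∈ p.1.U → z' = zr ∨ q.1.lt zr z' := by
        intro x' z' h1
        obtain ⟨a1, a2⟩ := p.2.uX _ _ _ h1
        rcases hside x' z' h1 with h3 | h3
        · exact absurd h3 (hL x' z' h1)
        · exact (hr3 x' z' h1 h3).imp id fun h4 => (Raw.le_lt hq hzrX a2).2 h4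
      refine last q z hq hqU hz hzq (by rw [hz1]; exact Le.of_le (le_max_left _ _))
        (.inl ?_) (.inr ⟨xr, zr, hr1, hltr, fun x' z' h1 _ => habove x' z' h1, ?_⟩)
      · intro x' z' h1 h2
        obtain ⟨a1, a2⟩ := p.2.uX _ _ _ h1
        rcases habove x' z' h1 with h4 | h4
        · rw [h4] at h2
          exact q.2.line.asymm hzq hzrq hltr h2
        · exact q.2.line.asymm hzq (Raw.le_X hq a2)
            (q.2.line.trans hzq hzrq (Raw.le_X hq a2) hltr h4) h2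
      · right
        refine ⟨(Raw.le_lt hq hkX hxrX).2 hr2, ?_, ?_⟩
        · rw [hDr, Raw.le_D hq hkX hxrX]; exact ha2
        · rw [hDr, Raw.le_D hq hkX hxrX]; exact ha3
    · -- there are no items
      push Not at hR
      have hno : ∀ x' z', (α, (x', z')) ∉ p.1.U := by
        intro x' z' h1
        rcases hside x' z' h1 with h3 | h3
        · exact hL x' z' h1 h3
        · exact hR x' z' h1 h3
      obtain ⟨r, hr1, hr2⟩ := h.finish p hkX hkX hkN (Le.refl _ _) (fun x hx => hno x k hx)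
        (.inl fun x' z' h1 => absurd h1 (hno x' z')) (.inl fun x' z' h1 => absurd h1 (hno x' z'))
      exact ⟨r, hr1, k, hr2⟩

end

end Pool.Agent.W914.SA
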