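import Mathlib
import Pool.Agent.W914.SA.DensU
import Pool.Agent.W914.SA.Defs

/-!
# All conditions force the principle
-/

set_option autoImplicit false
set_option linter.unusedSectionVars false

open Classical Cardinal Pool.Agent.Helper669.Forcing

namespace Pool.Agent.W914.SA

open Pool.Agent.W914.SS (Lt LexLt FLexLt FDistinct FUncountable FSurjective)

variable {Ω I : Type} [LinearOrder Ω] [WellFoundedLT Ω] [LinearOrder I] {B : Book Ω I}

/-- the name of the generic family -/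
def nr (B : Book Ω I) (x : Ω × ℕ) (n : ℕ) (a : ℚ) : Set (Cond B) := {p | (p.1.st x)[n]? = some a}

theorem getElem?_mono {s t : List ℚ} (h : s <+: t) {n : ℕ} {a : ℚ} (hs : s[n]? = some a) :
    t[n]? = some a := by
  obtain ⟨u, rfl⟩ := h
  rw [List.getElem?_append_left]
  · exact hs
  · exact (List.getElem?_eq_some_iff.1 hs).1

theorem down_nr (x : Ω × ℕ) (n : ℕ) (a : ℚ) : Down (nr B x n a) :=
  fun _ hp _ hq => getElem?_mono (Raw.le_st hq x) hp

/-- the sequences can be made long -/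
theorem exists_long (p : Cond B) (x : Pt Ω) (n : ℕ) : ∃ q ≤ p, n < (q.1.st x).length := by
  obtain ⟨q, hq, hq1, -⟩ := exists_extSt p
    (Function.update p.1.st x (p.1.st x ++ List.replicate (n + 1) 0))
    (by
      intro y
      by_cases hy : y = x
      · subst hy; rw [Function.update_self]; exact List.prefix_append _ _
      · rw [Function.update_of_ne hy])
    ((Set.finite_singleton x).subset fun y hy => by
      by_contra hne
      exact hy (Function.update_of_ne hne _ _))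
  refine ⟨q, hq, ?_⟩
  rw [hq1, Function.update_self, List.length_append, List.length_replicate]
  omega

theorem isFun_nr (p : Cond B) (x : Ω × ℕ) : p ∈ IsFun (nr B x) := by
  refine ⟨fun n => mem_fex.2 fun q _ => ?_, fun n a b => mem_fimp.2 fun q _ h => ?_⟩
  · obtain ⟨r, hr, hlen⟩ := exists_long q x n
    exact ⟨r, hr, (r.1.st x)[n], meets_of_mem (List.getElem?_eq_getElem hlen)⟩
  · obtain ⟨r, hr, h1⟩ := exists_of_meets (down_nr x n a) h.1
    obtain ⟨r', hr', h2⟩ := exists_of_meets (down_nr x n b) (down_meets _ _ h.2 _ hr)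
    refine ⟨r', hr'.trans hr, ?_⟩
    have h3 := down_nr x n a _ h1 _ hr'
    have h4 : some a = some b := h3.symm.trans h2
    exact Option.some.inj h4

theorem flexLt_of_lt {p : Cond B} {x y : Ω × ℕ} (h : Lt (p.1.st x) (p.1.st y)) :
    p ∈ FLexLt (nr B x) (nr B y) := by
  obtain ⟨n, a, b, h1, h2, h3, h4⟩ := Lt.iff_getElem.1 h
  refine mem_fex.2 fun q hq => ⟨q, le_rfl, n, ?_, ?_⟩
  · intro m hm u v
    refine mem_fimp.2 fun q' hq' h5 => ?_
    obtain ⟨r, hr, h6⟩ := exists_of_meets (down_nr x m u) h5.1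
    obtain ⟨r', hr', h7⟩ := exists_of_meets (down_nr y m v) (down_meets _ _ h5.2 _ hr)
    refine ⟨r', hr'.trans hr, ?_⟩
    have h8 := down_nr x m u _ h6 _ hr'
    have hle : r' ≤ p := ((hr'.trans hr).trans hq').trans hq
    have hlen : m < (p.1.st x).length := hm.trans (List.getElem?_eq_some_iff.1 h1).1
    have h9 := List.getElem?_eq_getElem hlen
    have h10 : (p.1.st y)[m]? = some ((p.1.st x)[m]) := (h4 m hm).symm.trans h9
    have h11 := getElem?_mono (Raw.le_st hle x) h9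
    have h12 := getElem?_mono (Raw.le_st hle y) h10
    have e1 : some u = some ((p.1.st x)[m]) := h8.symm.trans h11
    have e2 : some v = some ((p.1.st x)[m]) := h7.symm.trans h12
    exact Option.some.inj (e1.trans e2.symm)
  · refine mem_fex.2 fun q' hq' => ⟨q', le_rfl, a, ?_⟩
    refine mem_fex.2 fun q'' hq'' => ⟨q'', le_rfl, b, h3, ?_, ?_⟩
    · exact meets_of_mem (down_nr x n a _ h1 _ ((hq''.trans hq').trans hq))
    · exact meets_of_mem (down_nr y n b _ h2 _ ((hq''.trans hq').trans hq))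

theorem lt_of_flexLt {p : Cond B} {x y : Ω × ℕ} (h : p ∈ FLexLt (nr B x) (nr B y)) :
    ∃ q ≤ p, Lt (q.1.st x) (q.1.st y) := by
  obtain ⟨q, hq, n, h1, h2⟩ := mem_fex.1 h p le_rfl
  obtain ⟨q1, hq1, a, h3⟩ := mem_fex.1 h2 q le_rfl
  obtain ⟨q2, hq2, b, hab, h4, h5⟩ := mem_fex.1 h3 q1 le_rfl
  obtain ⟨q3, hq3, h6⟩ := exists_of_meets (down_nr x n a) h4
  obtain ⟨q4, hq4, h7⟩ := exists_of_meets (down_nr y n b) (down_meets _ _ h5 _ hq3)
  have h6' := down_nr x n a _ h6 _ hq4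
  -- the entries before `n` agree
  have hle : q4 ≤ q := ((hq4.trans hq3).trans hq2).trans hq1
  refine ⟨q4, hle.trans hq, Lt.iff_getElem.2 ⟨n, a, b, h6', h7, hab, fun m hm => ?_⟩⟩
  have hlenx : m < (q4.1.st x).length := hm.trans (List.getElem?_eq_some_iff.1 h6').1
  have hleny : m < (q4.1.st y).length := hm.trans (List.getElem?_eq_some_iff.1 h7).1
  have e1 := List.getElem?_eq_getElem hlenx
  have e2 := List.getElem?_eq_getElem hleny
  have h8 := h1 m hm (q4.1.st x)[m] (q4.1.st y)[m]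
  obtain ⟨r, hr, h9⟩ := mem_fimp.1 h8 q4 hle ⟨meets_of_mem e1, meets_of_mem e2⟩
  have h9' : (q4.1.st x)[m] = (q4.1.st y)[m] := h9
  rw [e1, e2, h9']

theorem down_flexLt (a b : ℕ → ℚ → Set (Cond B)) : Down (FLexLt a b) := down_fex _

theorem forces_distinct (p : Cond B) : p ∈ FDistinct (nr B) := by
  intro x y hxy
  refine mem_fex.2 fun q _ => ?_
  obtain ⟨r, hr, -, h1, -, -⟩ := exists_separate q x {y} (Set.finite_singleton _) hxy ∅
    Set.finite_empty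
  have key : ∃ (n : ℕ) (a b : ℚ), a ≠ b ∧ (r.1.st x)[n]? = some a ∧ (r.1.st y)[n]? = some b := by
    rcases h1 y rfl with h2 | h2
    · obtain ⟨n, a, b, h3, h4, h5, -⟩ := Lt.iff_getElem.1 h2
      exact ⟨n, a, b, h5.ne, h3, h4⟩
    · obtain ⟨n, a, b, h3, h4, h5, -⟩ := Lt.iff_getElem.1 h2
      exact ⟨n, b, a, h5.ne', h4, h3⟩
  obtain ⟨n, a, b, hab, h3, h4⟩ := key
  refine ⟨r, hr, n, mem_fex.2 fun r1 hr1 => ⟨r1, le_rfl, a, mem_fex.2 fun r2 hr2 =>
    ⟨r2, le_rfl, b, hab, ?_, ?_⟩⟩⟩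
  · exact meets_of_mem (down_nr x n a _ h3 _ (hr2.trans hr1))
  · exact meets_of_mem (down_nr y n b _ h4 _ (hr2.trans hr1))

theorem forces_uncountable (hΩ : IsOmega Ω) (p : Cond B) : p ∈ FUncountable (Cond B) Ω := by
  intro E
  refine mem_fimp.2 fun q _ hE => ⟨q, le_rfl, ?_⟩
  have h1 : ∀ n, ∃ δ, ∀ (r : Cond B) ω, (r ≤ q ∧ r ∈ meets (E n ω)) → ∃ r' ≤ r, ∃ ω', ω' < δ ∧
      (r' ≤ q ∧ r' ∈ meets (E n ω')) := fun n =>
    reflect hΩ (fun ω : Ω => ω) (fun r ω => r ≤ q ∧ r ∈ meets (E n ω))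
      fun r r' ω h hle => ⟨hle.trans h.1, down_meets _ _ h.2 _ hle⟩
  choose δ hδ using h1
  obtain ⟨b, hb⟩ := hΩ.bdd (Set.range δ) (Set.countable_range _)
  refine mem_fex_of_mem b (down_fall fun _ => down_fnot _) ?_
  intro n r hr hmem
  obtain ⟨r', hr', ω', hlt, -, h2⟩ := hδ n r b ⟨hr, hmem⟩
  have h3 : b = ω' := IsFun.unique (down_IsFun _ _ hE _ (hr'.trans hr))
    (down_meets _ _ hmem _ hr') h2
  exact absurd (hlt.trans (hb _ ⟨n, rfl⟩)) (by rw [h3]; exact lt_irrefl _)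

/-- the bookkeeping function attaches each name to some coordinate -/
def IsBook (B : Book Ω I) : Prop :=
  ∀ (N : Pt Ω → ℕ → Option (Raw Ω I)) (δ : Ω) (b : Ω → Ω), ∃ α, B α = (N, δ, b) ∧
    ∀ x n c, N x n = some c → (∀ t ∈ c.T, t.1 < α) ∧ ∀ t ∈ c.U, t.1 < α

/-- the name `K` is attached to some coordinate -/
theorem exists_attached (hΩ : IsOmega Ω) (hB : IsBook B) (K : Ω × ℕ → Set (Cond B)) :
    ∃ (N : Pt Ω → ℕ → Option (Raw Ω I)) (α : I) (δ : Ω) (b : Ω → Ω), Attached B α N δ b ∧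
      (∀ (r : Cond B) x, In N r x → r ∈ meets (K x)) ∧
      ∀ (r : Cond B) x, r ∈ meets (K x) → ∃ r' ≤ r, In N r' x := by
  have h1 : ∀ x, ∃ a : ℕ → Option (Cond B), (∀ n c, a n = some c → ∃ s ∈ K x, c ≤ s) ∧
      ∀ r : Cond B, (∃ s ∈ K x, r ≤ s) → ∃ n c, a n = some c ∧ ∃ r' ≤ r, r' ≤ c :=
    fun x => exists_predense hΩ {r | ∃ s ∈ K x, r ≤ s}
  choose a ha1 ha2 using h1
  let N : Pt Ω → ℕ → Option (Raw Ω I) := fun x n => (a x n).map Subtype.val
  obtain ⟨δ, hδ⟩ := exists_Refl (B := B) hΩ N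
  obtain ⟨b, hb⟩ := exists_ReflU (B := B) hΩ N
  obtain ⟨α, hα1, hα2⟩ := hB N δ b
  refine ⟨N, α, δ, b, ⟨hα1, hα2, hδ, hb⟩, ?_, ?_⟩
  · rintro r x ⟨n, c, hc, hrc⟩
    simp only [N, Option.map_eq_some_iff] at hc
    obtain ⟨c', hc', rfl⟩ := hc
    obtain ⟨s, hs, hcs⟩ := ha1 x n c' hc'
    exact meets_of_le hs (le_trans (show r ≤ c' from hrc) hcs)
  · intro r x hr
    obtain ⟨r1, hr1, s, hs, hrs⟩ := hr r le_rfl
    obtain ⟨n, c, hc, r', hr', hrc⟩ := ha2 x r1 ⟨s, hs, hrs⟩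
    refine ⟨r', hr'.trans hr1, n, c.1, ?_, hrc⟩
    simp only [N, hc, Option.map_some]

theorem forces_surjective (hΩ : IsOmega Ω) (hB : IsBook B) (p : Cond B) :
    p ∈ FSurjective (nr B) := by
  intro K
  refine mem_fimp.2 fun q _ hne => ⟨q, le_rfl, ?_⟩
  obtain ⟨N, α, δ, b, hat, hN1, hN2⟩ := exists_attached hΩ hB K
  have hnon : ∀ r ≤ q, ∃ r' ≤ r, ∃ k, In N r' k := by
    intro r hr
    obtain ⟨r1, hr1, x, hx⟩ := mem_fex.1 hne r hr
    obtain ⟨r2, hr2, hx2⟩ := hN2 r1 x hx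
    exact ⟨r2, hr2.trans hr1, x, hx2⟩
  -- the name of the map
  let F : Ω × ℕ → Ω × ℕ → Set (Cond B) := fun z x => {r | Maps α r z x}
  have hFd : ∀ z x, Down (F z x) := fun z x r hr r' hle => Maps.mono hr hle
  have hF : ∀ {r : Cond B} {z x}, r ∈ meets (F z x) → ∃ r' ≤ r, Maps α r' z x := by
    intro r z x h
    exact exists_of_meets (hFd z x) h
  refine mem_fex_of_mem F (down_fand (down_IsFun _) (down_fand
    (down_fall fun _ => down_fall fun _ => down_fimp _ _) (down_fand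
      (down_fall fun _ => down_fimp _ _) (down_fall fun _ => down_fall fun _ => down_fall fun _ =>
        down_fall fun _ => down_fall fun _ => down_fimp _ _)))) ⟨⟨?_, ?_⟩, ?_, ?_, ?_⟩
  · intro z
    refine mem_fex.2 fun r hr => ?_
    obtain ⟨r', hr', x, hx⟩ := hat.total r (fun s hs => hnon s (hs.trans hr)) z
    exact ⟨r', hr', x, meets_of_mem hx⟩
  · intro z x x'
    refine mem_fimp.2 fun r _ h => ?_
    obtain ⟨r1, hr1, h1⟩ := hF h.1
    obtain ⟨r2, hr2, h2⟩ := hF (down_meets _ _ h.2 _ hr1)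
    exact ⟨r2, hr2.trans hr1, (h1.mono hr2).unique h2⟩
  · intro z x
    refine mem_fimp.2 fun r _ h => ?_
    obtain ⟨r1, hr1, w, h1, -⟩ := hF h
    exact ⟨r1, hr1, hN1 _ _ (hat.in h1)⟩
  · intro x
    refine mem_fimp.2 fun r _ h => ?_
    obtain ⟨r1, hr1, h1⟩ := hN2 r x h
    obtain ⟨r2, hr2, z, h2⟩ := hat.onto r1 x h1
    exact ⟨r2, hr2.trans hr1, mem_fex_of_mem z (down_meets _) (meets_of_mem h2)⟩
  · intro z z' x x' hxx
    refine mem_fimp.2 fun r _ h => ?_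
    obtain ⟨r1, hr1, h1⟩ := hF h.1.1
    obtain ⟨r2, hr2, h2⟩ := hF (down_meets _ _ h.1.2 _ hr1)
    obtain ⟨r3, hr3, h3⟩ := lt_of_flexLt (down_flexLt _ _ _ h.2 _ (hr2.trans hr1))
    refine ⟨r3, (hr3.trans hr2).trans hr1, flexLt_of_lt ?_⟩
    exact ((h1.mono hr2).mono hr3).monotone (h2.mono hr3) h3 hxx

/-- the name of the Aronszajn line -/
def nlt (B : Book Ω I) (x y : Ω × ℕ) : Set (Cond B) := {p | x ∈ p.1.X ∧ y ∈ p.1.X ∧ p.1.lt x y}

theorem down_nlt (x y : Ω × ℕ) : Down (nlt B x y) := fun _ hp _ hq =>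
  ⟨Raw.le_X hq hp.1, Raw.le_X hq hp.2.1, (Raw.le_lt hq hp.1 hp.2.1).2 hp.2.2⟩

theorem forces_linear (p : Cond B) : p ∈ FLinear (nlt B) := by
  refine ⟨?_, ?_, ?_⟩
  · intro x q _ h
    obtain ⟨r, _, h1⟩ := exists_of_meets (down_nlt x x) h
    exact r.2.line.irrefl h1.1 h1.2.2
  · intro x y z
    refine mem_fimp.2 fun q _ h => ?_
    obtain ⟨r, hr, h1⟩ := exists_of_meets (down_nlt x y) h.1
    obtain ⟨r', hr', h2⟩ := exists_of_meets (down_nlt y z) (down_meets _ _ h.2 _ hr)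
    have h1' := down_nlt x y _ h1 _ hr'
    exact ⟨r', hr'.trans hr, meets_of_mem ⟨h1'.1, h2.2.1,
      r'.2.line.trans h1'.1 h1'.2.1 h2.2.1 h1'.2.2 h2.2.2⟩⟩
  · intro x y hxy
    refine mem_fimp.2 fun q _ h => ?_
    obtain ⟨r, hr, hx, -⟩ := exists_mem q x
    obtain ⟨r', hr', hy, -⟩ := exists_mem r y
    have hx' := Raw.le_X hr' hx
    rcases r'.2.line.total hx' hy hxy with h1 | h1
    · exact absurd (meets_of_mem (show r' ∈ nlt B x y from ⟨hx', hy, h1⟩)) (h r' (hr'.trans hr))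
    · exact ⟨r', hr'.trans hr, meets_of_mem ⟨hy, hx', h1⟩⟩

/-- the common part of `up` and `down` -/
theorem unbounded_pair (hΩ : IsOmega Ω) (Y : Ω × ℕ → Set (Cond B)) (p : Cond B)
    (hY : p ∈ FUnbounded Y) (δ : Ω) (ε : Prop) : ∃ q ≤ p, ∃ y y' : Ω × ℕ, y ∈ q.1.X ∧ y' ∈ q.1.X ∧
      q ∈ meets (Y y) ∧ q ∈ meets (Y y') ∧ y.1 < y'.1 ∧ δ < q.1.D y y' ∧
        (q.1.lt y y' ↔ ε) ∧ (q.1.lt y' y ↔ ¬ ε) := by
  have h1 : ∀ ξ : Ω, ∃ r ≤ p, ∃ y : Ω × ℕ, ξ ≤ y.1 ∧ y ∈ r.1.X ∧ r ∈ meets (Y y) := by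
    intro ξ
    obtain ⟨r, hr, y, hy1, hy2⟩ := mem_fex.1 (hY ξ) p le_rfl
    obtain ⟨r', hr', hy, -⟩ := exists_mem r y
    exact ⟨r', hr'.trans hr, y, hy1, hy, down_meets _ _ hy2 _ hr'⟩
  choose r hr u hu huX huY using h1
  obtain ⟨ξ, -, η, -, hlt, q, hq1, hq2, hD, hε1, hε2⟩ := merge hΩ Set.univ hΩ.uncountable r u
    (fun ξ _ => hu ξ) (fun ξ _ => huX ξ) ε δ
  exact ⟨q, hq1.trans (hr ξ), u ξ, u η, Raw.le_X hq1 (huX ξ), Raw.le_X hq2 (huX η),
    down_meets _ _ (huY ξ) _ hq1, down_meets _ _ (huY η) _ hq2, hlt.trans_le (hu η), hD,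
    hε1, hε2⟩

/-- nothing of low level lies between two points which split late -/
theorem nothing_between {q : Cond B} {y y' : Ω × ℕ} (hy : y ∈ q.1.X) (hy' : y' ∈ q.1.X) {δ : Ω}
    (hD : δ < q.1.D y y') (d : Ω × ℕ) (hd : d.1 < δ) :
    q ∈ fnot (fand (meets (nlt B y d)) (meets (nlt B d y'))) := by
  rintro r hr ⟨h1, h2⟩
  obtain ⟨r1, hr1, h3⟩ := exists_of_meets (down_nlt y d) h1
  obtain ⟨r2, hr2, h4⟩ := exists_of_meets (down_nlt d y') (down_meets _ _ h2 _ hr1)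
  have h3' := down_nlt y d _ h3 _ hr2
  have hle : r2 ≤ q := (hr2.trans hr1).trans hr
  have h5 := r2.2.line.D_trans h3'.1 h3'.2.1 h4.2.1 h3'.2.2 h4.2.2
  rw [Raw.le_D hle hy hy'] at h5
  have h6 : r2.1.D y d ≤ d.1 := r2.2.line.le_right h3'.1 h3'.2.1
  have h7 : δ < min (r2.1.D y d) (r2.1.D d y') := h5 ▸ hD
  exact absurd (h7.trans_le ((min_le_left _ _).trans h6)) hd.asymm

theorem forces_up (hΩ : IsOmega Ω) (p : Cond B) : p ∈ FUp (nlt B) := by
  intro Y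
  refine mem_fimp.2 fun q _ hY => ⟨q, le_rfl, fun δ => mem_fex.2 fun q1 hq1 => ?_⟩
  have hY1 : q1 ∈ FUnbounded Y := down_fall (fun _ => down_fex _) _ hY _ hq1
  obtain ⟨r, hr, y, y', h1, h2, h3, h4, h5, h6, h7, -⟩ := unbounded_pair hΩ Y q1 hY1 δ True
  refine ⟨r, hr, y, mem_fex_of_mem y' ?_ ⟨⟨h3, h4⟩, h5, ?_, ?_⟩⟩
  · exact down_fand (down_fand (down_meets _) (down_meets _)) (down_fand (down_fground _)
      (down_fand (down_meets _) (down_fall fun _ => down_fall fun _ => down_fnot _)))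
  · exact meets_of_mem ⟨h1, h2, h7.2 trivial⟩
  · exact fun d hd => nothing_between h1 h2 h6 d hd

theorem forces_down (hΩ : IsOmega Ω) (p : Cond B) : p ∈ FDown (nlt B) := by
  intro Y
  refine mem_fimp.2 fun q _ hY => ⟨q, le_rfl, fun δ => mem_fex.2 fun q1 hq1 => ?_⟩
  have hY1 : q1 ∈ FUnbounded Y := down_fall (fun _ => down_fex _) _ hY _ hq1
  obtain ⟨r, hr, y, y', h1, h2, h3, h4, h5, h6, -, h7⟩ := unbounded_pair hΩ Y q1 hY1 δ False
  refine ⟨r, hr, y, mem_fex_of_mem y' ?_ ⟨⟨h3, h4⟩, h5, ?_, ?_⟩⟩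
  · exact down_fand (down_fand (down_meets _) (down_meets _)) (down_fand (down_fground _)
      (down_fand (down_meets _) (down_fall fun _ => down_fall fun _ => down_fnot _)))
  · exact meets_of_mem ⟨h2, h1, h7.2 not_false⟩
  · exact fun d hd => nothing_between h2 h1 (by rw [r.2.line.symm h2 h1]; exact h6) d hd

theorem forces_surjectiveLine (hΩ : IsOmega Ω) (hB : IsBook B) (p : Cond B) :
    p ∈ FSurjectiveLine (nlt B) := by
  intro K
  refine mem_fimp.2 fun q _ hne => ⟨q, le_rfl, ?_⟩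
  obtain ⟨N, α, δ, b, hat, hN1, hN2⟩ := exists_attached hΩ hB K
  have hnon : ∀ r ≤ q, ∃ r' ≤ r, ∃ k, In N r' k := by
    intro r hr
    obtain ⟨r1, hr1, x, hx⟩ := mem_fex.1 hne r hr
    obtain ⟨r2, hr2, hx2⟩ := hN2 r1 x hx
    exact ⟨r2, hr2.trans hr1, x, hx2⟩
  -- the name of the map
  let F : Ω × ℕ → Ω × ℕ → Set (Cond B) := fun z x => {r | (α, (x, z)) ∈ r.1.U}
  have hFd : ∀ z x, Down (F z x) := fun z x r hr r' hle => Raw.le_U hle hr
  have hF : ∀ {r : Cond B} {z x}, r ∈ meets (F z x) → ∃ r' ≤ r, (α, (x, z)) ∈ r'.1.U := by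
    intro r z x h
    exact exists_of_meets (hFd z x) h
  refine mem_fex_of_mem F (down_fand (down_IsFun _) (down_fand
    (down_fall fun _ => down_fall fun _ => down_fimp _ _) (down_fand
      (down_fall fun _ => down_fimp _ _) (down_fall fun _ => down_fall fun _ => down_fall fun _ =>
        down_fall fun _ => down_fall fun _ => down_fimp _ _)))) ⟨⟨?_, ?_⟩, ?_, ?_, ?_⟩
  · intro z
    refine mem_fex.2 fun r hr => ?_
    obtain ⟨r', hr', x, hx⟩ := hat.totalU hΩ r (fun s hs => hnon s (hs.trans hr)) z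
    exact ⟨r', hr', x, meets_of_mem hx⟩
  · intro z x x'
    refine mem_fimp.2 fun r _ h => ?_
    obtain ⟨r1, hr1, h1⟩ := hF h.1
    obtain ⟨r2, hr2, h2⟩ := hF (down_meets _ _ h.2 _ hr1)
    exact ⟨r2, hr2.trans hr1, r2.2.uFun _ _ _ _ (Raw.le_U hr2 h1) h2⟩
  · intro z x
    refine mem_fimp.2 fun r _ h => ?_
    obtain ⟨r1, hr1, h1⟩ := hF h
    exact ⟨r1, hr1, hN1 _ _ (hat.inU h1)⟩
  · intro x
    refine mem_fimp.2 fun r _ h => ?_
    obtain ⟨r1, hr1, h1⟩ := hN2 r x h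
    obtain ⟨r2, hr2, z, h2⟩ := hat.ontoU r1 x h1
    exact ⟨r2, hr2.trans hr1, mem_fex_of_mem z (down_meets _) (meets_of_mem h2)⟩
  · intro z z' x x' hxx
    refine mem_fimp.2 fun r _ h => ?_
    obtain ⟨r1, hr1, h1⟩ := hF h.1.1
    obtain ⟨r2, hr2, h2⟩ := hF (down_meets _ _ h.1.2 _ hr1)
    obtain ⟨r3, hr3, h3⟩ := exists_of_meets (down_nlt z z') (down_meets _ _ h.2 _ (hr2.trans hr1))
    have h1' : (α, (x, z)) ∈ r3.1.U := Raw.le_U (hr3.trans hr2) h1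
    have h2' : (α, (x', z')) ∈ r3.1.U := Raw.le_U hr3 h2
    refine ⟨r3, (hr3.trans hr2).trans hr1, meets_of_mem ⟨(r3.2.uX _ _ _ h1').1,
      (r3.2.uX _ _ _ h2').1, ?_⟩⟩
    rcases r3.2.uRR _ _ _ _ _ h1' h2' h3.2.2 with h4 | h4
    · exact absurd h4.1 hxx
    · exact h4.1

theorem forces_principle (hΩ : IsOmega Ω) (hB : IsBook B) (p : Cond B) :
    p ∈ ForcedPrinciple (Cond B) Ω := by
  refine mem_fex.2 fun q _ => ⟨q, le_rfl, nr B, mem_fex.2 fun q1 _ => ⟨q1, le_rfl, nlt B,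
    ⟨?_, ?_, ?_, ?_⟩, ?_, ?_, ?_, ?_⟩⟩
  · exact fun x => isFun_nr q1 x
  · exact forces_distinct q1
  · exact forces_uncountable hΩ q1
  · exact forces_surjective hΩ hB q1
  · exact forces_linear q1
  · exact forces_up hΩ q1
  · exact forces_down hΩ q1
  · exact forces_surjectiveLine hΩ hB q1

end Pool.Agent.W914.SA
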