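import Mathlib
import Pool.Agent.W914.SA.Force

/-!
# The orders and the bookkeeping function
-/

set_option autoImplicit false
set_option linter.unusedSectionVars false

open Classical Cardinal Ordinal

namespace Pool.Agent.W914.SA

theorem exists_order {κ μ : Cardinal.{0}} (hcof : μ < κ.ord.cof) :
    ∃ (J : Type) (_ : LinearOrder J) (_ : WellFoundedLT J), #J = κ ∧ (∀ b : J, #(Set.Iio b) < κ) ∧
      (∀ S : Set J, #S ≤ μ → ∃ b, ∀ s ∈ S, s < b) := by
  have hc : Order.cof κ.ord.ToType = κ.ord.cof := by rw [cof_toType]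
  have hcard : #(κ.ord.ToType) = κ := by rw [mk_toType, card_ord]
  refine ⟨κ.ord.ToType, inferInstance, inferInstance, hcard, fun b => ?_, fun S hS => ?_⟩
  · have := Cardinal.mk_Iio_lt b (by rw [hcard, type_toType])
    rwa [hcard] at this
  · by_contra hcon
    push Not at hcon
    have h1 : IsCofinal S := fun b => by
      obtain ⟨s, hs, hb⟩ := hcon b
      exact ⟨s, hs, hb⟩
    have h2 := Order.cof_le h1
    rw [hc] at h2
    exact absurd (h2.trans hS) (not_le.2 hcof)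

theorem exists_isOmega : ∃ (Ω : Type) (_ : LinearOrder Ω) (_ : WellFoundedLT Ω),
    #Ω = ℵ₁ ∧ IsOmega Ω := by
  obtain ⟨Ω, h1, h2, h3, h4, h5⟩ := exists_order (κ := ℵ₁) (μ := ℵ₀) (by
    rw [Cardinal.isRegular_aleph_one.cof_ord]
    exact aleph0_lt_aleph_one)
  refine ⟨Ω, h1, h2, h3, h3.le, fun S hS => h5 S (Cardinal.le_aleph0_iff_set_countable.2 hS), ?_⟩
  intro b
  have := h4 b
  rw [← succ_aleph0, Order.lt_succ_iff] at this
  exact Cardinal.le_aleph0_iff_set_countable.1 this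

/-- the exponent -/
theorem exists_setting : ∃ (Ω : Type) (_ : LinearOrder Ω) (_ : WellFoundedLT Ω) (I : Type)
    (_ : LinearOrder I) (B : Book Ω I), IsOmega Ω ∧ IsBook B := by
  obtain ⟨Ω, iΩ, wΩ, hΩ1, hΩ⟩ := exists_isOmega
  have hinf1 : ℵ₀ ≤ (ℵ₁ : Cardinal.{0}) := aleph0_lt_aleph_one.le
  obtain ⟨I, iI, wI, hI, hI2, hI3⟩ := exists_order (κ := 2 ^ (ℵ₁ : Cardinal.{0})) (μ := ℵ₁)
    (Cardinal.lt_cof_ord_power hinf1 one_lt_two)
  have hκ : ℵ₀ ≤ (2 ^ (ℵ₁ : Cardinal.{0}) : Cardinal.{0}) := hinf1.trans (cantor _).le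
  have hκ1 : (ℵ₁ : Cardinal.{0}) ≤ 2 ^ (ℵ₁ : Cardinal.{0}) := (cantor _).le
  have : Infinite I := by rw [Cardinal.infinite_iff, hI]; exact hκ
  -- cardinalities
  have hPt : #(Pt Ω) = ℵ₁ := by
    rw [mk_prod, Cardinal.lift_id, Cardinal.lift_id, hΩ1, mk_nat]
    exact mul_aleph0_eq hinf1
  have hList : #(List ℚ) = ℵ₀ := by simp
  have hItem : #(Item Ω) ≤ 2 ^ (ℵ₁ : Cardinal.{0}) := by
    rw [mk_prod, Cardinal.lift_id, Cardinal.lift_id, mk_sum, Cardinal.lift_id, Cardinal.lift_id, hPt, hList]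
    refine (mul_le_mul' hκ1 (add_le_add hκ1 hκ)).trans ?_
    rw [add_eq_self hκ, mul_eq_self hκ]
  have hmul : ∀ {A C : Type}, #A ≤ 2 ^ (ℵ₁ : Cardinal.{0}) → #C ≤ 2 ^ (ℵ₁ : Cardinal.{0}) →
      #(A × C) ≤ 2 ^ (ℵ₁ : Cardinal.{0}) := by
    intro A C hA hC
    rw [mk_prod, Cardinal.lift_id, Cardinal.lift_id]
    exact (mul_le_mul' hA hC).trans (mul_eq_self hκ).le
  have hpow : ∀ {A C : Type}, #A ≤ ℵ₁ → #C ≤ 2 ^ (ℵ₁ : Cardinal.{0}) →
      #(A → C) ≤ 2 ^ (ℵ₁ : Cardinal.{0}) := by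
    intro A C hA hC
    rw [← power_def]
    refine (power_le_power_right hC).trans ?_
    rw [← power_mul]
    exact power_le_power_left two_ne_zero ((mul_le_mul' le_rfl hA).trans (mul_eq_self hinf1).le)
  have hfins : ∀ {A : Type}, #A ≤ 2 ^ (ℵ₁ : Cardinal.{0}) →
      #(Finset A) ≤ 2 ^ (ℵ₁ : Cardinal.{0}) := by
    intro A hA
    rcases finite_or_infinite A with h | h
    · have : Finite (Finset A) := inferInstance
      exact (Cardinal.lt_aleph0_of_finite _).le.trans hκ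
    · rw [mk_finset_of_infinite]; exact hA
  have hRaw : #(Raw Ω I) ≤ 2 ^ (ℵ₁ : Cardinal.{0}) := by
    have h1 : #(Raw Ω I) ≤ #((Pt Ω → List ℚ) × Finset (I × Item Ω) × Finset (Pt Ω) ×
        (Pt Ω → Pt Ω → Ω) × (Pt Ω → Pt Ω → Prop) × Finset (I × (Pt Ω × Pt Ω))) := by
      refine mk_le_of_injective (f := fun p => (p.st, p.T, p.X, p.D, p.lt, p.U)) ?_
      intro p q h
      simp only [Prod.mk.injEq] at h
      exact Raw.ext h.1 h.2.1 h.2.2.1 h.2.2.2.1 h.2.2.2.2.1 h.2.2.2.2.2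
    refine h1.trans ?_
    have hPt' : #(Pt Ω) ≤ 2 ^ (ℵ₁ : Cardinal.{0}) := hPt.le.trans hκ1
    have hΩ' : #Ω ≤ 2 ^ (ℵ₁ : Cardinal.{0}) := hΩ1.le.trans hκ1
    refine hmul (hpow hPt.le (by rw [hList]; exact hκ)) (hmul (hfins (hmul hI.le hItem))
      (hmul (hfins hPt') (hmul (hpow hPt.le (hpow hPt.le hΩ'))
        (hmul (hpow hPt.le (hpow hPt.le ?_)) (hfins (hmul hI.le (hmul hPt' hPt')))))))
    exact (Cardinal.lt_aleph0_of_finite _).le.trans hκ
  have hNames : #((Pt Ω → ℕ → Option (Raw Ω I)) × Ω × (Ω → Ω) × I) ≤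
      2 ^ (ℵ₁ : Cardinal.{0}) := by
    have h1 : #(Option (Raw Ω I)) ≤ 2 ^ (ℵ₁ : Cardinal.{0}) := by
      rw [mk_option]
      exact (add_le_add hRaw (one_le_aleph0.trans hκ)).trans (add_eq_self hκ).le
    have hΩ' : #Ω ≤ 2 ^ (ℵ₁ : Cardinal.{0}) := hΩ1.le.trans hκ1
    exact hmul (hpow hPt.le (hpow (by rw [mk_nat]; exact hinf1) h1))
      (hmul hΩ' (hmul (hpow hΩ1.le hΩ') hI.le))
  obtain ⟨f⟩ : Nonempty (((Pt Ω → ℕ → Option (Raw Ω I)) × Ω × (Ω → Ω) × I) ↪ I) :=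
    Cardinal.le_def _ _ |>.1 (hNames.trans hI.ge)
  obtain ⟨b0, -⟩ := hΩ.bdd ∅ Set.countable_empty
  have : Nonempty ((Pt Ω → ℕ → Option (Raw Ω I)) × Ω × (Ω → Ω) × I) :=
    ⟨(fun _ _ => none, b0, id, Classical.arbitrary I)⟩
  obtain ⟨g, hg⟩ : ∃ g : I → (Pt Ω → ℕ → Option (Raw Ω I)) × Ω × (Ω → Ω) × I, Function.Surjective g :=
    ⟨Function.invFun f, Function.invFun_surjective f.injective⟩
  refine ⟨Ω, iΩ, wΩ, I, iI, fun i => ((g i).1, (g i).2.1, (g i).2.2.1), hΩ, ?_⟩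
  intro N δ β
  -- bound the supports
  obtain ⟨b, hb⟩ : ∃ b : I, ∀ x n c, N x n = some c → (∀ t ∈ c.T, t.1 < b) ∧
      ∀ t ∈ c.U, t.1 < b := by
    let A : Pt Ω × ℕ → Set I := fun i => {t | ∃ c, N i.1 i.2 = some c ∧
      ((∃ s ∈ c.T, s.1 = t) ∨ ∃ s ∈ c.U, s.1 = t)}
    have hA : ∀ i, (A i).Countable := by
      intro i
      cases h : N i.1 i.2 with
      | none =>
        have : A i = ∅ := by
          ext t
          simp [A, h]
        rw [this]
        exact Set.countable_empty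
      | some c =>
        have : A i ⊆ ((fun s : I × Item Ω => s.1) '' (c.T : Set (I × Item Ω))) ∪
            (fun s : I × (Pt Ω × Pt Ω) => s.1) '' (c.U : Set (I × (Pt Ω × Pt Ω))) := by
          rintro t ⟨c', hc', ht⟩
          rw [h] at hc'
          simp only [Option.some.injEq] at hc'
          subst hc'
          rcases ht with ⟨s, hs, rfl⟩ | ⟨s, hs, rfl⟩
          · exact .inl ⟨s, hs, rfl⟩
          · exact .inr ⟨s, hs, rfl⟩
        exact (((Finset.countable_toSet _).image _).union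
          ((Finset.countable_toSet _).image _)).mono this
    obtain ⟨b, hb⟩ := hI3 (⋃ i, A i) (by
      refine (mk_iUnion_le_sum_mk).trans ((sum_le_sum _ (fun _ => ℵ₀) fun i => ?_).trans ?_)
      · exact Cardinal.le_aleph0_iff_set_countable.2 (hA i)
      · rw [Cardinal.sum_const', mk_prod, Cardinal.lift_id, Cardinal.lift_id, hPt, mk_nat,
          mul_aleph0_eq hinf1, mul_aleph0_eq hinf1])
    refine ⟨b, fun x n c hc => ⟨fun t ht => hb _ ?_, fun t ht => hb _ ?_⟩⟩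
    · rw [Set.mem_iUnion]
      exact ⟨(x, n), c, hc, .inl ⟨t, ht, rfl⟩⟩
    · rw [Set.mem_iUnion]
      exact ⟨(x, n), c, hc, .inr ⟨t, ht, rfl⟩⟩
  -- a late coordinate
  obtain ⟨α, hα1, hα2⟩ : ∃ α, ((g α).1, (g α).2.1, (g α).2.2.1) = (N, δ, β) ∧ b ≤ α := by
    by_contra hcon
    push Not at hcon
    choose h hh using fun i : I => hg (N, δ, β, i)
    have h1 : ∀ i, h i ∈ Set.Iio b := fun i => hcon (h i) (by rw [hh])
    have h2 : #I ≤ #(Set.Iio b) := by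
      refine mk_le_of_injective (f := fun i => (⟨h i, h1 i⟩ : Set.Iio b)) ?_
      intro i j hij
      simp only [Subtype.mk.injEq] at hij
      have := congrArg g hij
      rw [hh, hh] at this
      simpa using this
    exact absurd (hI2 b) (not_lt.2 (hI ▸ h2))
  exact ⟨α, hα1, fun x n c hc => ⟨fun t ht => ((hb x n c hc).1 t ht).trans_le hα2,
    fun t ht => ((hb x n c hc).2 t ht).trans_le hα2⟩⟩

theorem exists_forcing : ∃ (P : Type) (_ : Preorder P) (Ω : Type) (_ : LinearOrder Ω)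
    (_ : WellFoundedLT Ω), Nonempty P ∧ Nonempty Ω ∧ (∀ b : Ω, (Set.Iio b).Countable) ∧
      ∀ p : P, p ∈ ForcedPrinciple P Ω := by
  obtain ⟨Ω, _, wΩ, I, _, B, hΩ, hB⟩ := exists_setting
  obtain ⟨b0, -⟩ := hΩ.bdd ∅ Set.countable_empty
  refine ⟨Cond B, inferInstance, Ω, inferInstance, wΩ, ?_, ⟨b0⟩, hΩ.init, fun p =>
    forces_principle hΩ hB p⟩
  refine ⟨⟨⟨fun _ => [], ∅, ∅, fun _ _ => b0, fun _ _ => False, ∅⟩, ?_⟩⟩
  constructor
  · simp
  · simp
  · simp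
  · simp
  · simp
  · simpa using line_empty _ _
  · simp
  · simp
  · simp
  · simp
  · simp

end Pool.Agent.W914.SA
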