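import Mathlib
import Pool.Agent.W914.SS.Zfc
import Pool.Agent.W914.SA.Defs

/-!
# The consequences of the principle for linear orders
-/

set_option autoImplicit false

open Classical Cardinal

namespace Pool.Agent.W914.SA

open Pool.Agent.W914.SS (LexLt exists_embedding lexLt_total StronglySurjective)

/-- `A` is an Aronszajn line: it is uncountable, neither `ω₁` nor its reverse embeds into `A`, and
every subset of `A` which embeds into the real line is countable. -/
def IsAronszajnLine (A : Type) [LinearOrder A] : Prop :=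
  Uncountable A ∧ (¬ ∃ f : (Ordinal.omega.{0} 1).ToType → A, StrictMono f) ∧
    (¬ ∃ f : (Ordinal.omega.{0} 1).ToType → A, StrictAnti f) ∧
      ∀ S : Set A, (∃ f : S → ℝ, StrictMono f) → S.Countable

variable {Ω : Type} [LinearOrder Ω]

theorem not_countable_of_principle {r : Ω × ℕ → ℕ → ℚ} {lt : Ω × ℕ → Ω × ℕ → Prop}
    (h : Principle Ω r lt) [hΩ : Nonempty Ω] : ¬ (Set.univ : Set Ω).Countable := by
  intro hc
  obtain ⟨ω0⟩ := hΩ
  obtain ⟨E, hE⟩ := (Set.countable_iff_exists_surjective (s := (Set.univ : Set Ω))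
    ⟨ω0, trivial⟩).1 hc
  obtain ⟨ω, hω⟩ := h.uncountable fun n => (E n).1
  obtain ⟨n, hn⟩ := hE ⟨ω, trivial⟩
  exact hω n (by rw [hn])

/-- the set of reals -/
theorem exists_real {r : Ω × ℕ → ℕ → ℚ} {lt : Ω × ℕ → Ω × ℕ → Prop} [Nonempty Ω]
    (h : Principle Ω r lt) : ∃ L : Set ℝ, Uncountable L ∧ StronglySurjective L := by
  obtain ⟨f, hf⟩ := exists_embedding
  have hΩ := not_countable_of_principle h
  have hlt : ∀ x y, LexLt (r x) (r y) ↔ f (r x) < f (r y) := by
    intro x y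
    constructor
    · exact hf _ _
    · intro h1
      rcases eq_or_ne x y with h2 | h2
      · rw [h2] at h1; exact absurd h1 (lt_irrefl _)
      · rcases lexLt_total (h.distinct x y h2) with h3 | h3
        · exact h3
        · exact absurd (hf _ _ h3) h1.asymm
  have hinj : Function.Injective fun x => f (r x) := by
    intro x y hxy
    by_contra hne
    rcases lexLt_total (h.distinct x y hne) with h3 | h3
    · exact absurd (hf _ _ h3) (by simp only at hxy; rw [hxy]; exact lt_irrefl _)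
    · exact absurd (hf _ _ h3) (by simp only at hxy; rw [hxy]; exact lt_irrefl _)
  let L : Set ℝ := Set.range fun x => f (r x)
  let e : Ω × ℕ ≃ L := Equiv.ofInjective _ hinj
  have he : ∀ x y, e x < e y ↔ LexLt (r x) (r y) := fun x y => (hlt x y).symm
  refine ⟨L, ?_, ?_⟩
  · rw [← not_countable_iff]
    intro hc
    apply hΩ
    have h1 : Function.Injective fun ω : Ω => e (ω, 0) := fun ω ω' h => by
      simpa using e.injective h
    exact Set.countable_univ_iff.2 h1.countable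
  · intro K hK
    obtain ⟨⟨k0, hk0⟩⟩ := hK.to_subtype
    obtain ⟨F, hF1, hF2, hF3⟩ := h.surjective {x | e x ∈ K} ⟨e.symm k0, by simpa using hk0⟩
    refine ⟨fun l => ⟨e (F (e.symm l)), hF1 _⟩, ?_, ?_⟩
    · intro l l' hll
      rcases eq_or_lt_of_le hll with h1 | h1
      · rw [h1]
      · by_cases h2 : F (e.symm l) = F (e.symm l')
        · simp only [h2, le_refl]
        · have h3 : LexLt (r (e.symm l)) (r (e.symm l')) := by
            rw [← he]; simpa using h1
          have h4 := hF3 _ _ h2 h3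
          rw [← he] at h4
          exact le_of_lt h4
    · rintro ⟨k, hk⟩
      obtain ⟨x, hx⟩ := hF2 (e.symm k) (by simpa using hk)
      refine ⟨e x, ?_⟩
      simp [hx]

/-- a set of reals has a countable subset which meets all its nontrivial closed intervals -/
theorem exists_countable_meeting {X : Type} (S : Set X) (f : X → ℝ) :
    ∃ D ⊆ S, D.Countable ∧ ∀ x ∈ S, ∀ y ∈ S, f x < f y → ∃ d ∈ D, f x ≤ f d ∧ f d ≤ f y := by
  rcases S.eq_empty_or_nonempty with rfl | ⟨x0, hx0⟩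
  · exact ⟨∅, le_rfl, Set.countable_empty, by simp⟩
  have : Nonempty X := ⟨x0⟩
  -- elements between rationals
  let A : ℚ × ℚ → Set X := fun q => {x ∈ S | (q.1 : ℝ) < f x ∧ f x < q.2}
  let D1 : Set X := ⋃ q : ℚ × ℚ, if h : (A q).Nonempty then {h.choose} else ∅
  have hD1c : D1.Countable := by
    refine Set.countable_iUnion fun q => ?_
    split_ifs
    · exact Set.countable_singleton _
    · exact Set.countable_empty
  have hD1S : D1 ⊆ S := by
    intro x hx
    obtain ⟨q, hq⟩ := Set.mem_iUnion.1 hx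
    split_ifs at hq with h
    · rw [hq]; exact h.choose_spec.1
    · exact hq.elim
  -- left endpoints of jumps, one for each value of `f`
  let J : Set ℝ := {t | (∃ x ∈ S, f x = t) ∧ ∃ y ∈ S, t < f y ∧ ∀ z ∈ S, ¬ (t < f z ∧ f z < f y)}
  have hJc : J.Countable := by
    have h1 : ∀ t ∈ J, ∃ q : ℚ, t < q ∧ ∀ z ∈ S, t < f z → (q : ℝ) < f z := by
      rintro t ⟨-, y, hy, hty, hz⟩
      obtain ⟨q, hq1, hq2⟩ := exists_rat_btwn hty
      refine ⟨q, hq1, fun z hzS htz => ?_⟩
      exact hq2.trans_le (not_lt.1 fun h => hz z hzS ⟨htz, h⟩)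
    choose! g hg1 hg2 using h1
    refine Set.countable_iff_exists_injOn.2 ?_
    obtain ⟨c, hc⟩ := exists_injective_nat ℚ
    refine ⟨fun t => c (g t), fun t ht t' ht' heq => ?_⟩
    have heq' : g t = g t' := hc heq
    rcases lt_trichotomy t t' with h2 | h2 | h2
    · obtain ⟨x, hx, hxt⟩ := ht'.1
      have h3 := hg2 t ht x hx (by rw [hxt]; exact h2)
      rw [hxt, heq'] at h3
      exact absurd h3 (hg1 t' ht').asymm
    · exact h2
    · obtain ⟨x, hx, hxt⟩ := ht.1
      have h3 := hg2 t' ht' x hx (by rw [hxt]; exact h2)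
      rw [hxt, ← heq'] at h3
      exact absurd h3 (hg1 t ht).asymm
  have h2 : ∀ t ∈ J, ∃ x, x ∈ S ∧ f x = t := fun t ht => by
    obtain ⟨x, hx⟩ := ht.1
    exact ⟨x, hx⟩
  choose! g hg1 hg2 using h2
  refine ⟨D1 ∪ g '' J, ?_, hD1c.union (hJc.image g), ?_⟩
  · rintro x (hx | ⟨t, ht, rfl⟩)
    · exact hD1S hx
    · exact hg1 t ht
  · intro x hx y hy hxy
    by_cases hz : ∃ z ∈ S, f x < f z ∧ f z < f y
    · obtain ⟨z, hzS, h1, h2⟩ := hz
      obtain ⟨q, hq1, hq2⟩ := exists_rat_btwn h1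
      obtain ⟨q', hq1', hq2'⟩ := exists_rat_btwn h2
      have hne : (A (q, q')).Nonempty := ⟨z, hzS, hq2, hq1'⟩
      refine ⟨hne.choose, .inl (Set.mem_iUnion.2 ⟨(q, q'), ?_⟩), ?_, ?_⟩
      · rw [dif_pos hne]; rfl
      · exact (hq1.trans hne.choose_spec.2.1).le
      · exact (hne.choose_spec.2.2.trans hq2').le
    · push Not at hz
      have hJ : f x ∈ J := ⟨⟨x, hx, rfl⟩, y, hy, hxy, fun z hzS h => absurd h.2 (not_lt.2
        (hz z hzS h.1))⟩
      refine ⟨g (f x), .inr ⟨f x, hJ, rfl⟩, ?_, ?_⟩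
      · rw [hg2 _ hJ]
      · rw [hg2 _ hJ]; exact hxy.le

/-- the points of the Aronszajn line -/
structure LPt (Ω : Type) where
  /-- the index -/
  pt : Ω × ℕ

theorem LPt.ext' {a b : LPt Ω} (h : a.pt = b.pt) : a = b := by
  cases a; cases b; simp_all

/-- the order -/
noncomputable def lineOrder {r : Ω × ℕ → ℕ → ℚ} {lt : Ω × ℕ → Ω × ℕ → Prop}
    (h : Principle Ω r lt) : LinearOrder (LPt Ω) :=
  letI : IsStrictTotalOrder (LPt Ω) (fun a b => lt a.pt b.pt) :=
    { trichotomous := fun a b h1 h2 => by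
        by_contra hne
        exact h2 (h.total a.pt b.pt (fun h3 => hne (LPt.ext' h3)) h1)
      irrefl := fun a => h.irrefl a.pt
      trans := fun a b c => h.trans a.pt b.pt c.pt }
  linearOrderOfSTO (fun a b => lt a.pt b.pt)

theorem lineOrder_lt {r : Ω × ℕ → ℕ → ℚ} {lt : Ω × ℕ → Ω × ℕ → Prop}
    (h : Principle Ω r lt) (a b : LPt Ω) :
    (let _ := lineOrder h; a < b) ↔ lt a.pt b.pt := Iff.rfl

theorem aronszajn {r : Ω × ℕ → ℕ → ℚ} {lt : Ω × ℕ → Ω × ℕ → Prop} [Nonempty Ω]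
    [WellFoundedLT Ω] (hi : ∀ b : Ω, (Set.Iio b).Countable) (h : Principle Ω r lt) :
    @IsAronszajnLine (LPt Ω) (lineOrder h) := by
  let _ := lineOrder h
  have hltdef : ∀ a b : LPt Ω, a < b ↔ lt a.pt b.pt := fun a b => Iff.rfl
  have hΩ := not_countable_of_principle h
  -- uncountable sets have unbounded levels
  have hunb : ∀ Y : Set (Ω × ℕ), ¬ Y.Countable → ∀ δ : Ω, ∃ y ∈ Y, δ ≤ y.1 := by
    intro Y hY δ
    by_contra hcon
    push Not at hcon
    apply hY
    have h1 : Y ⊆ Set.Iio δ ×ˢ (Set.univ : Set ℕ) := fun y hy => ⟨hcon y hy, trivial⟩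
    exact ((hi δ).prod Set.countable_univ).mono h1
  -- sequences of length `ω₁`
  have hseq : ∀ f : (Ordinal.omega.{0} 1).ToType → LPt Ω, Function.Injective f →
      ∀ δ : Ω, ∃ w, δ ≤ (f w).pt.1 ∧ ∀ v < w, (f v).pt.1 < (f w).pt.1 := by
    intro f hf δ
    have hne : ({w | δ ≤ (f w).pt.1} : Set (Ordinal.omega.{0} 1).ToType).Nonempty := by
      obtain ⟨y, ⟨w, rfl⟩, hy⟩ := hunb (Set.range fun w => (f w).pt) (by
        intro hc
        have h1 : Function.Injective fun w => (f w).pt := fun a b hab => hf (LPt.ext' hab)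
        have h2 : Countable (Ordinal.omega.{0} 1).ToType := by
          have := hc.to_subtype
          exact Function.Injective.countable (f := fun w => (⟨(f w).pt, w, rfl⟩ :
            Set.range fun w => (f w).pt)) fun a b hab => h1 (congrArg Subtype.val hab)
        rw [← Cardinal.mk_le_aleph0_iff, Cardinal.mk_toType, Ordinal.card_omega] at h2
        exact absurd h2 (not_le.2 Cardinal.aleph0_lt_aleph_one)) δ
      exact ⟨w, hy⟩
    refine ⟨WellFounded.min wellFounded_lt _ hne, WellFounded.min_mem wellFounded_lt _ hne, ?_⟩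
    intro v hv
    have h1 : ¬ δ ≤ (f v).pt.1 := fun h2 => WellFounded.not_lt_min wellFounded_lt
      {w | δ ≤ (f w).pt.1} (x := v) h2 hv
    exact (not_le.1 h1).trans_le (WellFounded.min_mem wellFounded_lt _ hne)
  refine ⟨?_, ?_, ?_, ?_⟩
  · rw [← not_countable_iff]
    intro hc
    apply hΩ
    have h1 : Function.Injective fun ω : Ω => (⟨(ω, 0)⟩ : LPt Ω) := fun ω ω' h => by
      simpa using h
    exact Set.countable_univ_iff.2 h1.countable
  · rintro ⟨f, hf⟩
    obtain ⟨y, ⟨v, hv, rfl⟩, y', ⟨w, hw, rfl⟩, h1, h2, -⟩ := h.down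
      {y | ∃ w, (∀ v < w, (f v).pt.1 < (f w).pt.1) ∧ y = (f w).pt}
      (fun δ => by
        obtain ⟨w, hw1, hw2⟩ := hseq f hf.injective δ
        exact ⟨_, ⟨w, hw2, rfl⟩, hw1⟩) (Classical.arbitrary Ω)
    have h3 : v < w := by
      rcases lt_trichotomy v w with h4 | h4 | h4
      · exact h4
      · subst h4; exact absurd h1 (lt_irrefl _)
      · exact absurd (hv w h4) h1.asymm
    exact absurd ((hltdef _ _).2 h2) (hf h3).asymm
  · rintro ⟨f, hf⟩
    obtain ⟨y, ⟨v, hv, rfl⟩, y', ⟨w, hw, rfl⟩, h1, h2, -⟩ := h.up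
      {y | ∃ w, (∀ v < w, (f v).pt.1 < (f w).pt.1) ∧ y = (f w).pt}
      (fun δ => by
        obtain ⟨w, hw1, hw2⟩ := hseq f hf.injective δ
        exact ⟨_, ⟨w, hw2, rfl⟩, hw1⟩) (Classical.arbitrary Ω)
    have h3 : v < w := by
      rcases lt_trichotomy v w with h4 | h4 | h4
      · exact h4
      · subst h4; exact absurd h1 (lt_irrefl _)
      · exact absurd (hv w h4) h1.asymm
    exact absurd ((hltdef _ _).2 h2) (hf h3).asymm
  · rintro S ⟨f, hf⟩
    by_contra hS
    let f' : LPt Ω → ℝ := fun x => if hx : x ∈ S then f ⟨x, hx⟩ else 0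
    have hf' : ∀ x ∈ S, ∀ y ∈ S, x < y → f' x < f' y := by
      intro x hx y hy hxy
      simp only [f', dif_pos hx, dif_pos hy]
      exact hf (show (⟨x, hx⟩ : S) < ⟨y, hy⟩ from hxy)
    have hf'2 : ∀ x ∈ S, ∀ y ∈ S, f' x ≤ f' y → x ≤ y := by
      intro x hx y hy hxy
      by_contra h1
      exact absurd (hf' y hy x hx (not_le.1 h1)) (not_lt.2 hxy)
    obtain ⟨D, hDS, hDc, hD⟩ := exists_countable_meeting S f'
    -- a bound for the levels of `D`
    obtain ⟨δ, hδ⟩ : ∃ δ : Ω, ∀ d ∈ D, d.pt.1 < δ := by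
      by_contra hcon
      push Not at hcon
      apply hΩ
      have h1 : (Set.univ : Set Ω) ⊆ ⋃ d ∈ D, Set.Iio (d.pt.1) ∪ {d.pt.1} := by
        intro ω _
        obtain ⟨d, hd, hle⟩ := hcon ω
        simp only [Set.mem_iUnion]
        refine ⟨d, hd, ?_⟩
        rcases hle.lt_or_eq with h2 | h2
        · exact .inl h2
        · exact .inr h2
      exact (hDc.biUnion fun d _ => (hi _).union (Set.countable_singleton _)).mono h1
    obtain ⟨y, ⟨⟨a, ha, rfl⟩, hyδ⟩, y', ⟨⟨b, hb, rfl⟩, hyδ'⟩, -, h2, h3⟩ := h.up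
      {y | (∃ x ∈ S, y = x.pt) ∧ δ ≤ y.1}
      (fun ε => by
        have hS' : ¬ {y : Ω × ℕ | ∃ x ∈ S, y = x.pt}.Countable := by
          intro hc
          apply hS
          have h1 : S = (fun y : Ω × ℕ => (⟨y⟩ : LPt Ω)) '' {y : Ω × ℕ | ∃ x ∈ S, y = x.pt} := by
            ext x
            constructor
            · intro hx; exact ⟨x.pt, ⟨x, hx, rfl⟩, rfl⟩
            · rintro ⟨y, ⟨x', hx', rfl⟩, rfl⟩; exact hx'
          rw [h1]
          exact hc.image _
        obtain ⟨y, hy1, hy2⟩ := hunb _ hS' (max δ ε)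
        exact ⟨y, ⟨hy1, (le_max_left _ _).trans hy2⟩, (le_max_right _ _).trans hy2⟩) δ
    have hab : a < b := (hltdef a b).2 h2
    obtain ⟨d, hd, hd1, hd2⟩ := hD a ha b hb (hf' a ha b hb hab)
    have hdδ := hδ d hd
    have h4 : a ≤ d := hf'2 a ha d (hDS hd) hd1
    have h5 : d ≤ b := hf'2 d (hDS hd) b hb hd2
    have h6 : a ≠ d := by
      rintro rfl
      exact absurd hdδ (not_lt.2 hyδ)
    have h7 : d ≠ b := by
      rintro rfl
      exact absurd hdδ (not_lt.2 hyδ')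
    exact h3 d.pt hdδ ⟨(hltdef _ _).1 (lt_of_le_of_ne h4 h6), (hltdef _ _).1
      (lt_of_le_of_ne h5 h7)⟩

theorem strongly {r : Ω × ℕ → ℕ → ℚ} {lt : Ω × ℕ → Ω × ℕ → Prop}
    (h : Principle Ω r lt) : @StronglySurjective (LPt Ω) (lineOrder h) := by
  let _ := lineOrder h
  have hltdef : ∀ a b : LPt Ω, a < b ↔ lt a.pt b.pt := fun a b => Iff.rfl
  intro K hK
  obtain ⟨k0, hk0⟩ := hK
  obtain ⟨F, hF1, hF2, hF3⟩ := h.surjectiveLine {x | (⟨x⟩ : LPt Ω) ∈ K} ⟨k0.pt, hk0⟩
  refine ⟨fun l => ⟨⟨F l.pt⟩, hF1 _⟩, ?_, ?_⟩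
  · intro l l' hll
    rcases eq_or_lt_of_le hll with h1 | h1
    · rw [h1]
    · by_cases h2 : F l.pt = F l'.pt
      · simp only [h2, le_refl]
      · exact le_of_lt (show (⟨F l.pt⟩ : LPt Ω) < ⟨F l'.pt⟩ from
          hF3 _ _ h2 ((hltdef _ _).1 h1))
  · rintro ⟨k, hk⟩
    obtain ⟨x, hx⟩ := hF2 k.pt hk
    refine ⟨⟨x⟩, ?_⟩
    apply Subtype.ext
    exact LPt.ext' hx

/-- both kinds of orders exist -/
theorem exists_orders {r : Ω × ℕ → ℕ → ℚ} {lt : Ω × ℕ → Ω × ℕ → Prop} [Nonempty Ω]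
    [WellFoundedLT Ω] (hi : ∀ b : Ω, (Set.Iio b).Countable) (h : Principle Ω r lt) :
    (∃ L : Set ℝ, Uncountable L ∧ StronglySurjective L) ∧
      ∃ (A : Type) (_ : LinearOrder A), IsAronszajnLine A ∧ StronglySurjective A :=
  ⟨exists_real h, LPt Ω, lineOrder h, aronszajn hi h, strongly h⟩

end Pool.Agent.W914.SA
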